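import Pool.Agent.U581.FL.ProfF

/-!
# The invariance principle with a variance profile, with the time change of the Brownian motion
-/

set_option autoImplicit false
set_option linter.unusedSectionVars false

namespace Pool.Agent.U581.FL

open Finset Filter Topology Pool.Agent.Y722.HS Pool.Agent.X280.BP
  MeasureTheory Pool.Agent.U581.BM ProbabilityTheory Pool.Agent.U62.RB
open scoped BoundedContinuousFunction NNReal

/-- the Brownian path run by the clock `τ` -/
noncomputable def runPath {Ω : Type} (B : ℝ≥0 → Ω → ℝ) (τ : C(unitInterval, ℝ)) (ω : Ω) :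
    C(unitInterval, ℝ) :=
  ContinuousMap.mkD (fun t : unitInterval => B (τ t).toNNReal ω) 0

theorem prof_mem {n : ℕ} (F : ℕ → (Fin n → ℤ) → ℝ) (P : Finset ℕ) (hP : ∀ p ∈ P, p.Prime)
    (t : unitInterval) : 0 ≤ ppath P (totV F P) (fun p => lvar (F p) p) t ∧
      ppath P (totV F P) (fun p => lvar (F p) p) t ≤ 1 := by
  have h0 : ∀ p ∈ P, 0 ≤ lvar (F p) p := fun p hp => by
    have : NeZero p := ⟨(hP p hp).ne_zero⟩
    exact lvar_nonneg _
  have hV : 0 ≤ totV F P := Finset.sum_nonneg h0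
  rw [ppath_apply]
  constructor
  · exact div_nonneg (Finset.sum_nonneg fun p hp => mul_nonneg (h0 p hp) (cl_mem _).1) hV
  · refine div_le_one_of_le₀ ?_ hV
    unfold totV
    exact Finset.sum_le_sum fun p hp => mul_le_of_le_one_right (h0 p hp) (cl_mem _).2

variable [MeasurableSpace C(unitInterval, ℝ)] [BorelSpace C(unitInterval, ℝ)]
  {Ω : Type} [MeasurableSpace Ω] {μ : Measure Ω} [IsProbabilityMeasure μ] {B : ℝ≥0 → Ω → ℝ}

theorem run_eq (hB : IsBrownianReal B μ) (τ : C(unitInterval, ℝ)) (T : C(unitInterval, unitInterval))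
    (h : ∀ t, ((T t : unitInterval) : ℝ) = τ t) (Φ : C(unitInterval, ℝ) → ℝ) :
    ∫ ω, Φ (runPath B τ ω) ∂μ = ∫ ω, Φ ((bpath B ω).comp T) ∂μ := by
  refine integral_congr_ae ?_
  filter_upwards [bpath_apply hB, hB.cont] with ω h1 h2
  congr 1
  refine ContinuousMap.ext fun t => ?_
  have h3 : Continuous fun t : unitInterval => B (τ t).toNNReal ω :=
    h2.comp (continuous_real_toNNReal.comp τ.continuous)
  unfold runPath
  rw [ContinuousMap.mkD_apply_of_continuous h3, ContinuousMap.comp_apply, h1 (T t)]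
  congr 1
  apply NNReal.eq
  rw [Real.coe_toNNReal _ (by rw [← h t]; exact (T t).2.1), ← h t]
  rfl

/-- **the invariance principle for bounded periodic functions, final form** -/
theorem prof_run (n : ℕ) {b δ : ℝ} (hb : 0 < b) (hδ : 0 < δ) (hB : IsBrownianReal B μ)
    (Φ : C(unitInterval, ℝ) →ᵇ ℝ) {ε : ℝ} (hε : 0 < ε) :
    ∃ K : ℕ, ∀ (F : ℕ → (Fin n → ℤ) → ℝ) (P : Finset ℕ) (y H : ℕ), (∀ p ∈ P, p.Prime ∧ p ≤ y) →
      K ≤ P.card → (∀ p ∈ P, PerF (F p) p) → (∀ p ∈ P, ∀ c, |F p c| ≤ b) →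
      δ * P.card ≤ totV F P → y ^ K ≤ H →
      |EB H (fun c => Φ (ppath P (√(totV F P)) (fun p => F p c - lmean (F p) p))) -
        ∫ ω, Φ (runPath B (ppath P (totV F P) (fun p => lvar (F p) p)) ω) ∂μ| ≤ ε := by
  obtain ⟨K, hK⟩ := prof_fun n hb hδ hB Φ hε
  refine ⟨K, fun F P y H hP hc hper hbd hV hH => ?_⟩
  have h := hK F P y H hP hc hper hbd hV hH
  rw [run_eq hB _ (tcF F P) (fun t => by
    change ((Set.projIcc (0 : ℝ) 1 zero_le_one (ppath P (totV F P) (fun p => lvar (F p) p) t) :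
      Set.Icc (0 : ℝ) 1) : ℝ) = _
    rw [Set.projIcc_of_mem zero_le_one (prof_mem F P (fun p hp => (hP p hp).1) t)]) Φ]
  exact h

end Pool.Agent.U581.FL
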