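import Pool.Agent.U581.FL.Main
import Pool.Agent.U62.RB.Std

/-!
# The invariance principle for bounded periodic functions
-/

set_option autoImplicit false
set_option linter.unusedSectionVars false

namespace Pool.Agent.U581.FL

open Finset Filter Topology Pool.Agent.Y722.HS Pool.Agent.X280.BP Pool.Agent.X280.UC
  Pool.Agent.X280.HG MeasureTheory Pool.Agent.U581.BM ProbabilityTheory Pool.Agent.U62.RB
open scoped BoundedContinuousFunction NNReal

/-- data: local functions, a set of primes, bounds -/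
structure BD (n k : ℕ) where
  F : Fin k → ℕ → (Fin n → ℤ) → ℝ
  P : Finset ℕ
  y : ℕ
  H : ℕ

/-- admissible data -/
structure BD.Ok {n k : ℕ} (D : BD n k) (b C : ℝ) (K : ℕ) : Prop where
  prime : ∀ p ∈ D.P, p.Prime ∧ p ≤ D.y
  large : K ≤ D.P.card
  high : D.y ^ K ≤ D.H
  per : ∀ i, ∀ p ∈ D.P, PerF (D.F i p) p
  bound : ∀ i, ∀ p ∈ D.P, ∀ c, |D.F i p c| ≤ b
  mean : ∀ i, ∀ p ∈ D.P, |lmean (D.F i p) p| ≤ C / p
  cov : ∀ i j, ∀ p ∈ D.P, |lcov (D.F i p) (D.F j p) p - if i = j then 1 else 0| ≤ C / p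

/-- the model -/
noncomputable def BD.mdl {n k : ℕ} (D : BD n k) (b : ℝ) : Mdl (Fin n) k :=
  ⟨D.P, D.y, D.H, fun a p x => evF (D.F a) p x - lmean (D.F a p) p, 2 * b⟩

/-- the paths -/
noncomputable def BD.Y {n k : ℕ} (D : BD n k) (c : Fin n → ℤ) (a : Fin k) : C(unitInterval, ℝ) :=
  ppath D.P (√D.P.card) fun p => D.F a p c

theorem sum_Cp {P : Finset ℕ} (hP : ∀ p ∈ P, p.Prime) {C : ℝ} (hC : 0 ≤ C) :
    ∑ p ∈ P, C / (p : ℝ) ≤ C * (2 + Real.log P.card) := by
  have h := sum_inv_log P hP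
  calc ∑ p ∈ P, C / (p : ℝ) = C * ∑ p ∈ P, (1 : ℝ) / p := by
        rw [Finset.mul_sum]
        refine Finset.sum_congr rfl fun p _ => ?_
        ring
    _ ≤ _ := mul_le_mul_of_nonneg_left h hC

theorem log_small' (C : ℝ) (hC : 0 ≤ C) (c : ℝ) (hc : 0 < c) :
    ∃ N : ℕ, ∀ n : ℕ, N ≤ n → C * (2 + Real.log n) ≤ c * √n := by
  obtain ⟨N, hN⟩ := log_small (c / (C + 1)) (by positivity)
  refine ⟨N, fun n hn => ?_⟩
  have h := hN n hn
  have h1 : C * (2 + Real.log n) ≤ C * (c / (C + 1) * √n) := mul_le_mul_of_nonneg_left h hC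
  refine h1.trans ?_
  have h2 : C * (c / (C + 1) * √n) = C / (C + 1) * (c * √n) := by ring
  rw [h2]
  have h3 : C / (C + 1) ≤ 1 := by
    rw [div_le_one (by positivity)]
    linarith
  have h4 : 0 ≤ c * √(n : ℝ) := by positivity
  nlinarith

theorem BD.mdl_ok {n k : ℕ} {b C : ℝ} (hb : 0 ≤ b) (hC : 0 ≤ C) (K : ℕ) : ∃ L : ℕ, ∀ D : BD n k,
    D.Ok b C L → (D.mdl b).Ok ((2 * b) ^ 4) K := by
  obtain ⟨L1, hL1⟩ := exists_nat_ge ((2 * b) ^ 2 * (K + 1))
  obtain ⟨L2, hL2⟩ := log_small' C hC (1 / (K + 1)) (by positivity)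
  refine ⟨L1 + L2 + K + 1, fun D h => ?_⟩
  have hc1 : L1 + L2 + K + 1 ≤ D.P.card := h.large
  have hn1 : (1 : ℝ) ≤ D.P.card := by exact_mod_cast (by omega : 1 ≤ D.P.card)
  have hbound : ∀ a, ∀ p ∈ D.P, ∀ x, |(D.mdl b).Z a p x| ≤ 2 * b := by
    intro a p hp x
    have : NeZero p := ⟨(h.prime p hp).1.ne_zero⟩
    change |evF (D.F a) p x - lmean (D.F a p) p| ≤ 2 * b
    have h2 : |evF (D.F a) p x| ≤ b := h.bound a p hp _
    have h3 : |lmean (D.F a p) p| ≤ b := lmean_abs_le _ (h.bound a p hp)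
    calc |evF (D.F a) p x - lmean (D.F a p) p| ≤ |evF (D.F a) p x| + |lmean (D.F a p) p| := abs_sub _ _
      _ ≤ 2 * b := by linarith
  refine ⟨h.prime, ?_, ?_, ?_, hbound, ?_, ?_, ?_, ?_⟩
  · change K ≤ D.P.card
    omega
  · change D.y ^ K ≤ D.H
    refine le_trans ?_ h.high
    have hy : 0 < D.y := by
      obtain ⟨p, hp⟩ := Finset.card_pos.1 (by omega : 0 < D.P.card)
      exact (h.prime p hp).1.pos.trans_le (h.prime p hp).2
    exact Nat.pow_le_pow_right hy (by omega)
  · change 0 ≤ 2 * b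
    linarith
  · change (2 * b) ^ 2 * ((K : ℝ) + 1) ≤ D.P.card
    refine hL1.trans ?_
    exact_mod_cast (by omega : L1 ≤ D.P.card)
  · intro a p hp
    have : NeZero p := ⟨(h.prime p hp).1.ne_zero⟩
    change EMt p (fun x => evF (D.F a) p x - lmean (D.F a p) p) = 0
    rw [EMt_eq, EM_sub', EM_const', EM_evF, sub_self]
  · intro a c
    change ∑ p ∈ D.P, |EMt p (fun x => (evF (D.F a) p x - lmean (D.F a p) p) *
      (evF (D.F c) p x - lmean (D.F c p) p)) - if a = c then 1 else 0| ≤ D.P.card / (K + 1)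
    have h1 : ∀ p ∈ D.P, |EMt p (fun x => (evF (D.F a) p x - lmean (D.F a p) p) *
      (evF (D.F c) p x - lmean (D.F c p) p)) - if a = c then 1 else 0| ≤ C / p := by
      intro p hp
      have : NeZero p := ⟨(h.prime p hp).1.ne_zero⟩
      have e1 : EM p (fun x => (evF (D.F a) p x - lmean (D.F a p) p) *
          (evF (D.F c) p x - lmean (D.F c p) p)) = lcov (D.F a p) (D.F c p) p := by
        have e2 : (fun x => (evF (D.F a) p x - lmean (D.F a p) p) *
            (evF (D.F c) p x - lmean (D.F c p) p)) = fun x =>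
            ((evF (fun q z => D.F a q z * D.F c q z) p x - lmean (D.F a p) p * evF (D.F c) p x) -
              lmean (D.F c p) p * evF (D.F a) p x) + lmean (D.F a p) p * lmean (D.F c p) p := by
          funext x
          unfold evF
          ring
        rw [e2, EM_add', EM_sub', EM_sub', EM_mul', EM_mul', EM_const', EM_evF, EM_evF, EM_evF]
        unfold lcov
        ring
      rw [EMt_eq, e1]
      exact h.cov a c p hp
    refine (Finset.sum_le_sum h1).trans ((sum_Cp (fun p hp => (h.prime p hp).1) hC).trans ?_)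
    refine (hL2 D.P.card (by omega)).trans ?_
    rw [one_div_mul_eq_div]
    refine div_le_div_of_nonneg_right ?_ (by positivity)
    have h2 : √(D.P.card : ℝ) * √(D.P.card : ℝ) = D.P.card := Real.mul_self_sqrt (by positivity)
    have h3 : 1 ≤ √(D.P.card : ℝ) := Real.one_le_sqrt.2 hn1
    nlinarith
  · intro a p hp
    have : NeZero p := ⟨(h.prime p hp).1.ne_zero⟩
    rw [EMt_eq]
    refine EM_le_of_le p _ _ fun x => ?_
    have h1 := pow_le_pow_left₀ (abs_nonneg _) (hbound a p hp x) 4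
    rwa [show |(D.mdl b).Z a p x| ^ 4 = (D.mdl b).Z a p x ^ 4 by
      rw [show (4 : ℕ) = 2 * 2 by norm_num, pow_mul, sq_abs, ← pow_mul]] at h1

theorem BD.near {n k : ℕ} {b C : ℝ} (hC : 0 ≤ C) {δ : ℝ} (hδ : 0 < δ) : ∃ L : ℕ, ∀ D : BD n k,
    D.Ok b C L → ∀ c, dist (D.Y c) ((D.mdl b).X c) ≤ δ := by
  obtain ⟨L2, hL2⟩ := log_small' C hC δ hδ
  refine ⟨L2 + 1, fun D h c => ?_⟩
  have hc1 : L2 + 1 ≤ D.P.card := h.large
  have hn0 : (0 : ℝ) < D.P.card := by exact_mod_cast (by omega : 0 < D.P.card)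
  have hsn : 0 < √(D.P.card : ℝ) := Real.sqrt_pos.2 hn0
  rw [dist_pi_le_iff hδ.le]
  intro a
  rw [dist_eq_norm]
  have hE : 0 ≤ C * (2 + Real.log D.P.card) := by
    have : 0 ≤ Real.log D.P.card := Real.log_nonneg (by exact_mod_cast (by omega : 1 ≤ D.P.card))
    positivity
  have h1 := ppath_dist D.P hsn (fun p => D.F a p c)
    (fun p => evF (D.F a) p (red p c) - lmean (D.F a p) p) hE (fun m hm => by
      have h2 : ∀ q ∈ Finset.range m, D.F a (el D.P q) c - (evF (D.F a) (el D.P q) (red (el D.P q) c) -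
          lmean (D.F a (el D.P q)) (el D.P q)) = lmean (D.F a (el D.P q)) (el D.P q) := by
        intro q hq
        have hq' : el D.P q ∈ D.P := el_mem (lt_of_lt_of_le (Finset.mem_range.1 hq) hm)
        have : NeZero (el D.P q) := ⟨(h.prime _ hq').1.ne_zero⟩
        rw [evF_red (h.per a _ hq') c]
        ring
      rw [Finset.sum_congr rfl h2]
      refine (Finset.abs_sum_le_sum_abs _ _).trans ?_
      calc ∑ q ∈ Finset.range m, |lmean (D.F a (el D.P q)) (el D.P q)|
          ≤ ∑ q ∈ Finset.range D.P.card, |lmean (D.F a (el D.P q)) (el D.P q)| :=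
            Finset.sum_le_sum_of_subset_of_nonneg (Finset.range_subset_range.2 hm)
              fun _ _ _ => abs_nonneg _
        _ = ∑ p ∈ D.P, |lmean (D.F a p) p| := (sum_rk D.P (fun _ p => |lmean (D.F a p) p|)).symm
        _ ≤ ∑ p ∈ D.P, C / p := Finset.sum_le_sum fun p hp => h.mean a p hp
        _ ≤ _ := sum_Cp (fun p hp => (h.prime p hp).1) hC)
  refine h1.trans ?_
  rw [div_le_iff₀ hsn]
  exact hL2 D.P.card (by omega)

section

variable [MeasurableSpace C(unitInterval, ℝ)] [BorelSpace C(unitInterval, ℝ)]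
  {Ω : Type*} [MeasurableSpace Ω] {μ : Measure Ω} [IsProbabilityMeasure μ]

/-- **the invariance principle** -/
theorem bounded_main (n k : ℕ) {b C : ℝ} (hb : 0 ≤ b) (hC : 0 ≤ C) {B : Fin k → ℝ≥0 → Ω → ℝ}
    (hB : IndBrown B μ) (Φ : (Fin k → C(unitInterval, ℝ)) →ᵇ ℝ) {ε : ℝ} (hε : 0 < ε) :
    ∃ K : ℕ, ∀ D : BD n k, D.Ok b C K →
      |EB D.H (fun c => Φ (D.Y c)) - ∫ ω, Φ (fun a => bpath (B a) ω) ∂μ| ≤ ε := by
  by_contra hcon
  push Not at hcon
  choose Ds h1 h2 using hcon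
  have hmono : ∀ K j : ℕ, K ≤ j → (Ds j).Ok b C K := by
    intro K j hKj
    have h := h1 j
    refine ⟨h.prime, hKj.trans h.large, ?_, h.per, h.bound, h.mean, h.cov⟩
    rcases Nat.eq_zero_or_pos (Ds j).y with h0 | h0
    · rcases Nat.eq_zero_or_pos K with h3 | h3
      · rcases Nat.eq_zero_or_pos j with h4 | h4
        · have := h.high
          rw [h4] at this
          rw [h3, h4]
          exact this
        · obtain ⟨p, hp⟩ := Finset.card_pos.1 (lt_of_lt_of_le h4 h.large)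
          have := (h.prime p hp).1.pos
          have := (h.prime p hp).2
          omega
      · rw [h0, zero_pow (by omega)]
        exact Nat.zero_le _
    · exact (Nat.pow_le_pow_right h0 hKj).trans h.high
  have h3 := model_near (μ := μ) (B := B) (C := (2 * b) ^ 4) (fun j => (Ds j).mdl b)
    (fun K => by
      obtain ⟨L, hL⟩ := BD.mdl_ok (n := n) (k := k) hb hC K
      filter_upwards [eventually_ge_atTop L] with j hj
      exact hL _ (hmono L j hj)) (by positivity) (fun j c => (Ds j).Y c)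
    (fun δ hδ => by
      obtain ⟨L, hL⟩ := BD.near (n := n) (k := k) (b := b) hC hδ
      refine tendsto_const_nhds.congr' ?_
      filter_upwards [eventually_ge_atTop L] with j hj
      have e : {c : Fin n → ℤ | δ < dist ((Ds j).Y c) (((Ds j).mdl b).X c)} = ∅ := by
        rw [Set.eq_empty_iff_forall_notMem]
        intro c hc
        exact absurd hc (not_lt.2 (hL _ (hmono L j hj) c))
      rw [e]
      simp) hB Φ
  rw [Metric.tendsto_atTop] at h3
  obtain ⟨N, hN⟩ := h3 ε hε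
  have h4 := hN N le_rfl
  rw [Real.dist_eq] at h4
  exact absurd h4 (not_lt.2 (h2 N).le)

end

end Pool.Agent.U581.FL
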