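import Pool.Agent.U581.FL.Tight

/-!
# The invariance principle for sums of local data over primes
-/

set_option autoImplicit false
set_option linter.unusedSectionVars false

namespace Pool.Agent.U581.FL

open Finset Filter Topology Pool.Agent.Y722.HS Pool.Agent.X280.BP Pool.Agent.X280.UC
  Pool.Agent.X280.HG MeasureTheory Pool.Agent.U581.BM ProbabilityTheory
open scoped BoundedContinuousFunction NNReal

section

variable {ι : Type} [Fintype ι] [DecidableEq ι] {k : ℕ} {C : ℝ}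
  [MeasurableSpace C(unitInterval, ℝ)] [BorelSpace C(unitInterval, ℝ)]
  {Ω : Type*} [MeasurableSpace Ω] {μ : Measure Ω} [IsProbabilityMeasure μ]
  {B : Fin k → ℝ≥0 → Ω → ℝ}

/-- **the limit of the model paths** -/
theorem model_limit (D : ℕ → Mdl ι k) (hD : ∀ K, ∀ᶠ j in atTop, (D j).Ok C K) (hC : 0 ≤ C)
    (hB : IndBrown B μ) (F : (Fin k → C(unitInterval, ℝ)) →ᵇ ℝ) :
    Tendsto (fun j => EB (D j).H (fun c => F ((D j).X c))) atTop
      (𝓝 (∫ ω, F (fun a => bpath (B a) ω) ∂μ)) := by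
  have h := donskerV (ν := fun j => nu (ι := ι) (D j).H) (P := μ) (X := fun j c => (D j).X c)
    (Z := fun ω a => bpath (B a) ω) (fun j => meas_all _) (bpathV_aem hB)
    (fun N θ => by
      rw [bcharV hB N θ]
      simp only [nu_intc]
      exact char_model D hD N θ)
    (fun a ε hε η hη => tight_model D hD hC a hε hη) F
  simp only [nu_int] at h
  exact h

theorem abs_EB (H : ℕ) (f : (ι → ℤ) → ℝ) : |EB H f| ≤ EB H (fun c => |f c|) := by
  unfold EB
  rw [abs_div, abs_of_pos (by positivity : (0 : ℝ) < (2 * H + 1 : ℝ) ^ Fintype.card ι)]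
  exact div_le_div_of_nonneg_right (Finset.abs_sum_le_sum_abs _ _) (by positivity)

/-- convergence of perturbed random elements -/
theorem near_limit {S : Type*} [PseudoMetricSpace S] [MeasurableSpace S] [BorelSpace S]
    (Hs : ℕ → ℕ) (X Y : ℕ → (ι → ℤ) → S) (μ₀ : ProbabilityMeasure S)
    (h1 : ∀ F : S →ᵇ ℝ, Tendsto (fun j => EB (Hs j) (fun c => F (X j c))) atTop
      (𝓝 (∫ z, F z ∂(μ₀ : Measure S))))
    (h2 : ∀ δ : ℝ, 0 < δ → Tendsto (fun j => (nu (Hs j)).real {c : ι → ℤ | δ < dist (Y j c) (X j c)})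
      atTop (𝓝 0)) (F : S →ᵇ ℝ) :
    Tendsto (fun j => EB (Hs j) (fun c => F (Y j c))) atTop (𝓝 (∫ z, F z ∂(μ₀ : Measure S))) := by
  let μs : ℕ → ProbabilityMeasure S := fun j =>
    ⟨(nu (Hs j)).map (Y j), Measure.isProbabilityMeasure_map (meas_all (Y j)).aemeasurable⟩
  have hconv : Tendsto μs atTop (𝓝 μ₀) := by
    rw [tendsto_iff_forall_lipschitz_integral_tendsto]
    rintro f ⟨C, hC⟩ ⟨L, hL⟩
    have hfc := hL.continuous
    let Fb : S →ᵇ ℝ := ⟨⟨f, hfc⟩, ⟨C, hC⟩⟩
    have e1 : ∀ j, ∫ z, f z ∂(μs j : Measure _) = EB (Hs j) (fun c => f (Y j c)) := fun j => by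
      rw [← nu_int]
      exact integral_map (meas_all (Y j)).aemeasurable hfc.aestronglyMeasurable
    simp_rw [e1]
    obtain ⟨B, hB⟩ : ∃ B : ℝ, B = ‖Fb‖ := ⟨_, rfl⟩
    have hB0 : 0 ≤ B := by rw [hB]; exact norm_nonneg _
    have hfB : ∀ z, ‖f z‖ ≤ B := fun z => by rw [hB]; exact Fb.norm_coe_le_norm z
    rw [Metric.tendsto_atTop]
    intro η hη
    obtain ⟨δ, hδ, hδL⟩ : ∃ δ : ℝ, 0 < δ ∧ L * δ ≤ η / 4 := by
      refine ⟨η / (4 * (L + 1)), by positivity, ?_⟩
      rw [mul_div_assoc', div_le_div_iff₀ (by positivity) (by positivity)]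
      have : (0 : ℝ) ≤ L := L.2
      nlinarith
    have h3 := h1 Fb
    rw [Metric.tendsto_atTop] at h3
    obtain ⟨j1, hj1⟩ := h3 (η / 4) (by positivity)
    have h4 := h2 δ hδ
    rw [Metric.tendsto_atTop] at h4
    obtain ⟨j2, hj2⟩ := h4 (η / (8 * (B + 1))) (by positivity)
    refine ⟨max j1 j2, fun j hj => ?_⟩
    have h5 := hj1 j ((le_max_left _ _).trans hj)
    have h6 := hj2 j ((le_max_right _ _).trans hj)
    rw [Real.dist_eq, sub_zero, abs_of_nonneg measureReal_nonneg] at h6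
    rw [Real.dist_eq] at h5 ⊢
    have h7 : |EB (Hs j) (fun c => f (Y j c)) - EB (Hs j) (fun c => f (X j c))| ≤
        L * δ + 2 * B * (nu (Hs j)).real {c : ι → ℤ | δ < dist (Y j c) (X j c)} := by
      rw [← EB_sub]
      refine (abs_EB _ _).trans ?_
      rw [nu_real, ← EB_mul_left]
      have e : L * δ = EB (Hs j) (fun _ : ι → ℤ => (L : ℝ) * δ) :=
        (Pool.Agent.X280.BP.EB_const _ _).symm
      rw [e, ← EB_addF]
      refine EB_mono _ _ _ fun c => ?_
      by_cases hx : c ∈ {c : ι → ℤ | δ < dist (Y j c) (X j c)}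
      · rw [Set.indicator_of_mem hx]
        have q1 := hfB (X j c)
        have q2 := hfB (Y j c)
        rw [Real.norm_eq_abs] at q1 q2
        have q3 : (0 : ℝ) ≤ L * δ := by positivity
        refine (abs_sub _ _).trans ?_
        linarith
      · rw [Set.indicator_of_notMem hx, mul_zero, add_zero]
        have hx' : dist (Y j c) (X j c) ≤ δ := not_lt.1 hx
        have q1 := hL.dist_le_mul (Y j c) (X j c)
        rw [Real.dist_eq] at q1
        exact q1.trans (mul_le_mul_of_nonneg_left hx' L.2)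
    have h8 : 2 * B * (nu (Hs j)).real {c : ι → ℤ | δ < dist (Y j c) (X j c)} ≤ η / 4 := by
      calc 2 * B * (nu (Hs j)).real {c : ι → ℤ | δ < dist (Y j c) (X j c)}
          ≤ 2 * B * (η / (8 * (B + 1))) := mul_le_mul_of_nonneg_left h6.le (by positivity)
        _ ≤ η / 4 := by
            rw [mul_div_assoc', div_le_div_iff₀ (by positivity) (by positivity)]
            nlinarith
    have h5' : |EB (Hs j) (fun c => f (X j c)) - ∫ z, f z ∂(μ₀ : Measure S)| < η / 4 := h5
    have e3 : EB (Hs j) (fun c => f (Y j c)) - ∫ z, f z ∂(μ₀ : Measure S) =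
      (EB (Hs j) (fun c => f (Y j c)) - EB (Hs j) (fun c => f (X j c))) +
      (EB (Hs j) (fun c => f (X j c)) - ∫ z, f z ∂(μ₀ : Measure S)) := by ring
    rw [e3]
    have t1 := abs_add_le (EB (Hs j) (fun c => f (Y j c)) - EB (Hs j) (fun c => f (X j c)))
      (EB (Hs j) (fun c => f (X j c)) - ∫ z, f z ∂(μ₀ : Measure S))
    linarith
  rw [ProbabilityMeasure.tendsto_iff_forall_integral_tendsto] at hconv
  have h3 := hconv F
  have e1 : ∀ j, ∫ z, F z ∂(μs j : Measure _) = EB (Hs j) (fun c => F (Y j c)) := fun j => by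
    rw [← nu_int]
    exact integral_map (meas_all (Y j)).aemeasurable F.continuous.aestronglyMeasurable
  simp_rw [e1] at h3
  exact h3

/-- **the limit of perturbed model paths** -/
theorem model_near (D : ℕ → Mdl ι k) (hD : ∀ K, ∀ᶠ j in atTop, (D j).Ok C K) (hC : 0 ≤ C)
    (Y : ℕ → (ι → ℤ) → Fin k → C(unitInterval, ℝ))
    (hY : ∀ δ : ℝ, 0 < δ → Tendsto (fun j => (nu (D j).H).real
      {c : ι → ℤ | δ < dist (Y j c) ((D j).X c)}) atTop (𝓝 0))
    (hB : IndBrown B μ) (F : (Fin k → C(unitInterval, ℝ)) →ᵇ ℝ) :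
    Tendsto (fun j => EB (D j).H (fun c => F (Y j c))) atTop
      (𝓝 (∫ ω, F (fun a => bpath (B a) ω) ∂μ)) := by
  have hm := bpathV_aem hB
  let μ₀ : ProbabilityMeasure (Fin k → C(unitInterval, ℝ)) :=
    ⟨μ.map (fun ω a => bpath (B a) ω), Measure.isProbabilityMeasure_map hm⟩
  have e : ∀ F : (Fin k → C(unitInterval, ℝ)) →ᵇ ℝ, ∫ z, F z ∂(μ₀ : Measure _) =
      ∫ ω, F (fun a => bpath (B a) ω) ∂μ := fun F =>
    integral_map hm F.continuous.aestronglyMeasurable
  have h := near_limit (fun j => (D j).H) (fun j c => (D j).X c) Y μ₀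
    (fun F => by
      rw [e]
      exact model_limit D hD hC hB F) hY F
  rw [e] at h
  exact h

end

end Pool.Agent.U581.FL
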