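import Pool.Agent.U581.BM.Brown

/-!
# An abstract invariance principle for vectors of paths
-/

set_option autoImplicit false

namespace Pool.Agent.U581.FL

open Real MeasureTheory Filter Topology ProbabilityTheory Pool.Agent.U581.BM
open scoped BoundedContinuousFunction NNReal

section

variable {Ω : Type*} [MeasurableSpace Ω] {Ω' : Type*} [MeasurableSpace Ω'] {P : Measure Ω'}
  [IsProbabilityMeasure P] {ν : ℕ → Measure Ω} [∀ j, IsProbabilityMeasure (ν j)]

/-- **convergence from the convergence of approximations** -/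
theorem conv_together {S : Type*} [PseudoMetricSpace S] [MeasurableSpace S] [BorelSpace S]
    {X : ℕ → Ω → S} {Z : Ω' → S} (T : ℕ → S → S) (hT : ∀ N, Continuous (T N))
    (hTz : ∀ z, Tendsto (fun N => T N z) atTop (𝓝 z))
    (hX : ∀ j, Measurable (X j)) (hZ : AEMeasurable Z P)
    (h1 : ∀ (N : ℕ) (F : S →ᵇ ℝ), Tendsto (fun j => ∫ x, F (T N (X j x)) ∂ν j) atTop
      (𝓝 (∫ ω, F (T N (Z ω)) ∂P)))
    (h2 : ∀ ε : ℝ, 0 < ε → ∀ η : ℝ, 0 < η → ∃ N0 : ℕ, ∀ N ≥ N0, ∀ᶠ j in atTop,
      (ν j).real {x | ε < dist (X j x) (T N (X j x))} ≤ η)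
    (F : S →ᵇ ℝ) :
    Tendsto (fun j => ∫ x, F (X j x) ∂ν j) atTop (𝓝 (∫ ω, F (Z ω) ∂P)) := by
  have hXa : ∀ j, AEMeasurable (X j) (ν j) := fun j => (hX j).aemeasurable
  let μ : ℕ → ProbabilityMeasure S := fun j =>
    ⟨(ν j).map (X j), Measure.isProbabilityMeasure_map (hXa j)⟩
  let μ₀ : ProbabilityMeasure S :=
    ⟨P.map Z, Measure.isProbabilityMeasure_map hZ⟩
  have hne : Nonempty Ω' := by
    by_contra hcon
    rw [not_nonempty_iff] at hcon
    have h3 : P Set.univ = 1 := measure_univ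
    rw [Set.univ_eq_empty_iff.2 hcon, measure_empty] at h3
    exact zero_ne_one h3
  have hconv : Tendsto μ atTop (𝓝 μ₀) := by
    rw [tendsto_iff_forall_lipschitz_integral_tendsto]
    rintro f ⟨C, hC⟩ ⟨L, hL⟩
    have hfc := hL.continuous
    -- the bounded continuous function
    let Fb : S →ᵇ ℝ := ⟨⟨f, hfc⟩, ⟨C, hC⟩⟩
    have e1 : ∀ j, ∫ z, f z ∂(μ j : Measure _) = ∫ x, f (X j x) ∂ν j := fun j =>
      integral_map (hXa j) hfc.aestronglyMeasurable
    have e2 : ∫ z, f z ∂(μ₀ : Measure _) = ∫ ω, f (Z ω) ∂P :=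
      integral_map hZ hfc.aestronglyMeasurable
    simp_rw [e1]
    rw [e2]
    obtain ⟨z0⟩ : Nonempty S := ⟨Z hne.some⟩
    have hC0 : 0 ≤ C := dist_nonneg.trans (hC z0 z0)
    obtain ⟨B, hB⟩ : ∃ B : ℝ, B = ‖Fb‖ := ⟨_, rfl⟩
    have hB0 : 0 ≤ B := by rw [hB]; exact norm_nonneg _
    have hfB : ∀ z, ‖f z‖ ≤ B := fun z => by rw [hB]; exact Fb.norm_coe_le_norm z
    -- the limit in `N`
    have hlim : Tendsto (fun N => ∫ ω, f (T N (Z ω)) ∂P) atTop (𝓝 (∫ ω, f (Z ω) ∂P)) := by
      refine tendsto_integral_of_dominated_convergence (fun _ => B) (fun N => ?_)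
        (integrable_const _) (fun N => ?_) ?_
      · exact ((hfc.comp (hT N)).measurable.comp_aemeasurable hZ).aestronglyMeasurable
      · exact Eventually.of_forall fun ω => hfB _
      · exact Eventually.of_forall fun ω => (hfc.tendsto _).comp (hTz (Z ω))
    rw [Metric.tendsto_atTop]
    intro η hη
    obtain ⟨ε, hε, hεL⟩ : ∃ ε : ℝ, 0 < ε ∧ L * ε ≤ η / 8 := by
      refine ⟨η / (8 * (L + 1)), by positivity, ?_⟩
      rw [mul_div_assoc', div_le_div_iff₀ (by positivity) (by positivity)]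
      have : (0 : ℝ) ≤ L := L.2
      nlinarith
    obtain ⟨N0, hN0⟩ := h2 ε hε (η / (16 * (B + 1))) (by positivity)
    rw [Metric.tendsto_atTop] at hlim
    obtain ⟨N1, hN1⟩ := hlim (η / 4) (by positivity)
    set N := max N0 N1 with hN
    have h3 := hN1 N (le_max_right _ _)
    have h4 := hN0 N (le_max_left _ _)
    have h5 := h1 N Fb
    rw [Metric.tendsto_atTop] at h5
    obtain ⟨j1, hj1⟩ := h5 (η / 4) (by positivity)
    obtain ⟨j2, hj2⟩ := eventually_atTop.1 h4
    refine ⟨max j1 j2, fun j hj => ?_⟩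
    have h6 := hj1 j ((le_max_left _ _).trans hj)
    have h7 := hj2 j ((le_max_right _ _).trans hj)
    have h8 : |(∫ x, f (X j x) ∂ν j) - ∫ x, f (T N (X j x)) ∂ν j| ≤ η / 4 := by
      have i1 : Integrable (fun x => f (X j x)) (ν j) :=
        Integrable.of_bound (hfc.measurable.comp (hX j)).aestronglyMeasurable B
          (Eventually.of_forall fun x => hfB _)
      have i2 : Integrable (fun x => f (T N (X j x))) (ν j) :=
        Integrable.of_bound
          (((hfc.comp (hT N)).measurable).comp (hX j)).aestronglyMeasurable B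
          (Eventually.of_forall fun x => hfB _)
      rw [← integral_sub i1 i2]
      have hmS : MeasurableSet {x | ε < dist (X j x) (T N (X j x))} := by
        have hc : Continuous fun w : S => dist w (T N w) :=
          continuous_id.dist (hT N)
        exact measurableSet_lt measurable_const (hc.measurable.comp (hX j))
      have hbound : ∀ x, |f (X j x) - f (T N (X j x))| ≤ L * ε +
          Set.indicator {x | ε < dist (X j x) (T N (X j x))} (fun _ => 2 * B) x := by
        intro x
        by_cases hx : x ∈ {x | ε < dist (X j x) (T N (X j x))}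
        · rw [Set.indicator_of_mem hx]
          have q1 := hfB (X j x)
          have q2 := hfB (T N (X j x))
          rw [Real.norm_eq_abs] at q1 q2
          have q3 : (0 : ℝ) ≤ L * ε := by positivity
          refine (abs_sub _ _).trans ?_
          linarith
        · rw [Set.indicator_of_notMem hx, add_zero]
          have hx' : dist (X j x) (T N (X j x)) ≤ ε := not_lt.1 hx
          have q1 := hL.dist_le_mul (X j x) (T N (X j x))
          rw [Real.dist_eq] at q1
          exact q1.trans (mul_le_mul_of_nonneg_left hx' L.2)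
      have hint : Integrable (fun x => L * ε +
          Set.indicator {x | ε < dist (X j x) (T N (X j x))} (fun _ => 2 * B) x) (ν j) :=
        (integrable_const _).add ((integrable_const _).indicator hmS)
      calc |∫ x, (f (X j x) - f (T N (X j x))) ∂ν j|
          ≤ ∫ x, |f (X j x) - f (T N (X j x))| ∂ν j := abs_integral_le_integral_abs
        _ ≤ ∫ x, (L * ε + Set.indicator {x | ε < dist (X j x) (T N (X j x))}
            (fun _ => 2 * B) x) ∂ν j := integral_mono (i1.sub i2).abs hint hbound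
        _ = L * ε + (ν j).real {x | ε < dist (X j x) (T N (X j x))} * (2 * B) := by
            rw [integral_add (integrable_const _) ((integrable_const _).indicator hmS),
              integral_indicator_const _ hmS]
            simp
        _ ≤ η / 8 + (η / (16 * (B + 1))) * (2 * B) := by gcongr
        _ ≤ η / 8 + η / 8 := by
            gcongr
            rw [div_mul_eq_mul_div, div_le_div_iff₀ (by positivity) (by positivity)]
            nlinarith
        _ = η / 4 := by ring
    have h6' : |(∫ x, f (T N (X j x)) ∂ν j) - ∫ ω, f (T N (Z ω)) ∂P| < η / 4 := by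
      rw [← Real.dist_eq]
      exact h6
    have h3' : |(∫ ω, f (T N (Z ω)) ∂P) - ∫ ω, f (Z ω) ∂P| < η / 4 := by
      rw [← Real.dist_eq]
      exact h3
    rw [Real.dist_eq]
    have e3 : (∫ x, f (X j x) ∂ν j) - ∫ ω, f (Z ω) ∂P =
      ((∫ x, f (X j x) ∂ν j) - ∫ x, f (T N (X j x)) ∂ν j) +
      ((∫ x, f (T N (X j x)) ∂ν j) - ∫ ω, f (T N (Z ω)) ∂P) +
      ((∫ ω, f (T N (Z ω)) ∂P) - ∫ ω, f (Z ω) ∂P) := by ring
    rw [e3]
    have t1 := abs_add_le (((∫ x, f (X j x) ∂ν j) - ∫ x, f (T N (X j x)) ∂ν j) +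
      ((∫ x, f (T N (X j x)) ∂ν j) - ∫ ω, f (T N (Z ω)) ∂P))
      ((∫ ω, f (T N (Z ω)) ∂P) - ∫ ω, f (Z ω) ∂P)
    have t2 := abs_add_le ((∫ x, f (X j x) ∂ν j) - ∫ x, f (T N (X j x)) ∂ν j)
      ((∫ x, f (T N (X j x)) ∂ν j) - ∫ ω, f (T N (Z ω)) ∂P)
    linarith
  rw [ProbabilityMeasure.tendsto_iff_forall_integral_tendsto] at hconv
  have h3 := hconv F
  have e1 : ∀ j, ∫ z, F z ∂(μ j : Measure _) = ∫ x, F (X j x) ∂ν j := fun j =>
    integral_map (hXa j) F.continuous.aestronglyMeasurable
  have e2 : ∫ z, F z ∂(μ₀ : Measure _) = ∫ ω, F (Z ω) ∂P :=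
    integral_map hZ F.continuous.aestronglyMeasurable
  simp_rw [e1] at h3
  rwa [e2] at h3

end

/-- extension of a finite family of vectors by `0` -/
noncomputable def extV {k : ℕ} (N : ℕ) (z : EuclideanSpace ℝ (Fin k × Fin (N + 1))) (a : Fin k)
    (i : ℕ) : ℝ :=
  if h : i < N + 1 then z (a, ⟨i, h⟩) else 0

theorem extV_cont {k : ℕ} (N : ℕ) (a : Fin k) (i : ℕ) : Continuous fun z => extV N z a i := by
  unfold extV
  split_ifs with h
  · fun_prop
  · exact continuous_const

/-- the values at the points of the grid -/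
noncomputable def valsV {k : ℕ} (N : ℕ) (w : Fin k → C(unitInterval, ℝ)) :
    EuclideanSpace ℝ (Fin k × Fin (N + 1)) :=
  WithLp.toLp 2 fun p => w p.1 (pt N p.2)

theorem valsV_cont {k : ℕ} (N : ℕ) : Continuous (valsV (k := k) N) := by
  unfold valsV
  refine (PiLp.continuous_toLp 2 _).comp (continuous_pi fun p => ?_)
  exact (continuous_eval_const _).comp (continuous_apply p.1)

/-- the interpolation of a vector of paths -/
noncomputable def interpV {k : ℕ} (N : ℕ) (w : Fin k → C(unitInterval, ℝ)) :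
    Fin k → C(unitInterval, ℝ) := fun a => interp N (w a)

theorem interpV_cont {k : ℕ} (N : ℕ) : Continuous (interpV (k := k) N) :=
  continuous_pi fun a => (interp_cont N).comp (continuous_apply a)

theorem polygon_valsV {k : ℕ} (N : ℕ) (w : Fin k → C(unitInterval, ℝ)) :
    (fun a => polygon N (extV N (valsV N w) a)) = interpV N w := by
  funext a
  unfold interpV interp
  apply polygon_congr
  intro i hi
  unfold extV valsV
  rw [dif_pos (by omega)]

theorem inner_valsV {k : ℕ} (N : ℕ) (w : Fin k → C(unitInterval, ℝ))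
    (θ : EuclideanSpace ℝ (Fin k × Fin (N + 1))) :
    inner ℝ (valsV N w) θ = ∑ a, ∑ i ∈ Finset.range (N + 1), extV N θ a i * w a (pt N i) := by
  rw [PiLp.inner_apply, Fintype.sum_prod_type]
  apply Finset.sum_congr rfl
  intro a _
  rw [← Fin.sum_univ_eq_sum_range (fun i => extV N θ a i * w a (pt N i)) (N + 1)]
  apply Finset.sum_congr rfl
  intro i _
  have h1 : extV N θ a i = θ (a, i) := by
    unfold extV
    rw [dif_pos i.2]
  rw [h1]
  simp [valsV]

section

variable {Ω : Type*} [MeasurableSpace Ω] {Ω' : Type*} [MeasurableSpace Ω'] {P : Measure Ω'}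
  [IsProbabilityMeasure P] {ν : ℕ → Measure Ω} [∀ j, IsProbabilityMeasure (ν j)]
  [MeasurableSpace C(unitInterval, ℝ)] [BorelSpace C(unitInterval, ℝ)] {k : ℕ}
  {X : ℕ → Ω → Fin k → C(unitInterval, ℝ)} {Z : Ω' → Fin k → C(unitInterval, ℝ)}

/-- convergence of the interpolated functionals -/
theorem fidiV (hX : ∀ j, Measurable (X j)) (hZ : AEMeasurable Z P) (N : ℕ)
    (h1 : ∀ θ : Fin k → ℕ → ℝ, Tendsto (fun j => ∫ x, Complex.exp (((∑ a,
      ∑ i ∈ Finset.range (N + 1), θ a i * X j x a (pt N i) : ℝ) : ℂ) * Complex.I) ∂ν j) atTop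
      (𝓝 (∫ ω, Complex.exp (((∑ a, ∑ i ∈ Finset.range (N + 1),
      θ a i * Z ω a (pt N i) : ℝ) : ℂ) * Complex.I) ∂P)))
    (F : (Fin k → C(unitInterval, ℝ)) →ᵇ ℝ) :
    Tendsto (fun j => ∫ x, F (interpV N (X j x)) ∂ν j) atTop
      (𝓝 (∫ ω, F (interpV N (Z ω)) ∂P)) := by
  have hv : Measurable (valsV (k := k) N) := (valsV_cont N).measurable
  have hVX : ∀ j, AEMeasurable (fun x => valsV N (X j x)) (ν j) :=
    fun j => (hv.comp (hX j)).aemeasurable
  have hVZ : AEMeasurable (fun ω => valsV N (Z ω)) P := hv.comp_aemeasurable hZ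
  let μ : ℕ → ProbabilityMeasure (EuclideanSpace ℝ (Fin k × Fin (N + 1))) := fun j =>
    ⟨(ν j).map (fun x => valsV N (X j x)), Measure.isProbabilityMeasure_map (hVX j)⟩
  let μ₀ : ProbabilityMeasure (EuclideanSpace ℝ (Fin k × Fin (N + 1))) :=
    ⟨P.map (fun ω => valsV N (Z ω)), Measure.isProbabilityMeasure_map hVZ⟩
  have hconv : Tendsto μ atTop (𝓝 μ₀) := by
    refine ProbabilityMeasure.tendsto_iff_tendsto_charFun.2 fun θ => ?_
    have e1 : ∀ j, charFun ((μ j : ProbabilityMeasure _) : Measure _) θ =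
        ∫ x, Complex.exp (((∑ a, ∑ i ∈ Finset.range (N + 1),
          extV N θ a i * X j x a (pt N i) : ℝ) : ℂ) * Complex.I) ∂ν j := by
      intro j
      show charFun ((ν j).map (fun x => valsV N (X j x))) θ = _
      rw [charFun_apply, integral_map (hVX j) (by fun_prop)]
      simp_rw [inner_valsV]
    have e2 : charFun ((μ₀ : ProbabilityMeasure _) : Measure _) θ =
        ∫ ω, Complex.exp (((∑ a, ∑ i ∈ Finset.range (N + 1),
          extV N θ a i * Z ω a (pt N i) : ℝ) : ℂ) * Complex.I) ∂P := by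
      show charFun (P.map (fun ω => valsV N (Z ω))) θ = _
      rw [charFun_apply, integral_map hVZ (by fun_prop)]
      simp_rw [inner_valsV]
    simp_rw [e1]
    rw [e2]
    exact h1 _
  rw [ProbabilityMeasure.tendsto_iff_forall_integral_tendsto] at hconv
  have hc : Continuous fun z => fun a : Fin k => polygon N (extV N z a) :=
    continuous_pi fun a => polygon_cont N fun i => extV_cont N a i
  have hF : Continuous fun z => F (fun a : Fin k => polygon N (extV N z a)) := F.continuous.comp hc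
  have h2 := hconv (F.compContinuous ⟨fun z => fun a : Fin k => polygon N (extV N z a), hc⟩)
  have e3 : ∀ j, ∫ z, (F.compContinuous ⟨fun z => fun a : Fin k => polygon N (extV N z a), hc⟩) z
      ∂(μ j : Measure _) = ∫ x, F (interpV N (X j x)) ∂ν j := by
    intro j
    show ∫ z, F (fun a : Fin k => polygon N (extV N z a)) ∂((ν j).map (fun x => valsV N (X j x))) = _
    rw [integral_map (hVX j) hF.aestronglyMeasurable]
    simp_rw [polygon_valsV]
  have e4 : ∫ z, (F.compContinuous ⟨fun z => fun a : Fin k => polygon N (extV N z a), hc⟩) z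
      ∂(μ₀ : Measure _) = ∫ ω, F (interpV N (Z ω)) ∂P := by
    show ∫ z, F (fun a : Fin k => polygon N (extV N z a)) ∂(P.map (fun ω => valsV N (Z ω))) = _
    rw [integral_map hVZ hF.aestronglyMeasurable]
    simp_rw [polygon_valsV]
  simp_rw [e3] at h2
  rw [e4] at h2
  exact h2

/-- **an abstract invariance principle for vectors** -/
theorem donskerV (hX : ∀ j, Measurable (X j)) (hZ : AEMeasurable Z P)
    (h1 : ∀ (N : ℕ) (θ : Fin k → ℕ → ℝ), Tendsto (fun j => ∫ x, Complex.exp (((∑ a,
      ∑ i ∈ Finset.range (N + 1), θ a i * X j x a (pt N i) : ℝ) : ℂ) * Complex.I) ∂ν j) atTop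
      (𝓝 (∫ ω, Complex.exp (((∑ a, ∑ i ∈ Finset.range (N + 1),
      θ a i * Z ω a (pt N i) : ℝ) : ℂ) * Complex.I) ∂P)))
    (h2 : ∀ a : Fin k, ∀ ε : ℝ, 0 < ε → ∀ η : ℝ, 0 < η → ∃ N0 : ℕ, ∀ N ≥ N0, ∀ᶠ j in atTop,
      (ν j).real {x | ε < ‖X j x a - interp N (X j x a)‖} ≤ η)
    (F : (Fin k → C(unitInterval, ℝ)) →ᵇ ℝ) :
    Tendsto (fun j => ∫ x, F (X j x) ∂ν j) atTop (𝓝 (∫ ω, F (Z ω) ∂P)) := by
  refine conv_together (fun N => interpV N) (fun N => interpV_cont N) (fun z => ?_) hX hZ
    (fun N F => fidiV hX hZ N (h1 N) F) (fun ε hε η hη => ?_) F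
  · exact tendsto_pi_nhds.2 fun a => interp_tendsto (z a)
  · have hk : (0 : ℝ) < k + 1 := by positivity
    choose N0 hN0 using fun a => h2 a ε hε (η / (k + 1)) (by positivity)
    refine ⟨∑ a, N0 a, fun N hN => ?_⟩
    have h3 : ∀ a, N0 a ≤ N := fun a =>
      (Finset.single_le_sum (f := N0) (fun _ _ => Nat.zero_le _) (Finset.mem_univ a)).trans hN
    have h4 : ∀ᶠ j in atTop, ∀ a, (ν j).real {x | ε < ‖X j x a - interp N (X j x a)‖} ≤ η / (k + 1) :=
      eventually_all.2 fun a => hN0 a N (h3 a)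
    filter_upwards [h4] with j hj
    have hsub : {x | ε < dist (X j x) (interpV N (X j x))} ⊆
        ⋃ a ∈ (Finset.univ : Finset (Fin k)), {x | ε < ‖X j x a - interp N (X j x a)‖} := by
      intro x hx
      by_contra hcon
      simp only [Set.mem_iUnion, Set.mem_ofPred_eq, not_exists, not_lt, Finset.mem_univ,
        true_implies] at hcon
      have h5 : dist (X j x) (interpV N (X j x)) ≤ ε := by
        rw [dist_pi_le_iff hε.le]
        intro a
        rw [dist_eq_norm]
        exact hcon a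
      exact absurd hx (not_lt.2 h5)
    calc (ν j).real {x | ε < dist (X j x) (interpV N (X j x))}
        ≤ (ν j).real (⋃ a ∈ (Finset.univ : Finset (Fin k)),
          {x | ε < ‖X j x a - interp N (X j x a)‖}) := measureReal_mono hsub (measure_ne_top _ _)
      _ ≤ ∑ a, (ν j).real {x | ε < ‖X j x a - interp N (X j x a)‖} :=
          measureReal_biUnion_finset_le _ _
      _ ≤ ∑ _a : Fin k, η / (k + 1) := Finset.sum_le_sum fun a _ => hj a
      _ = k * (η / (k + 1)) := by simp
      _ ≤ η := by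
          rw [mul_div_assoc', div_le_iff₀ hk]
          nlinarith

end

/-! ### Independent Brownian motions -/

section

variable {Ω : Type*} [MeasurableSpace Ω] {P : Measure Ω} {k : ℕ} {B : Fin k → ℝ≥0 → Ω → ℝ}

/-- independent Brownian motions -/
structure IndBrown (B : Fin k → ℝ≥0 → Ω → ℝ) (P : Measure Ω) : Prop where
  brown : ∀ a, IsBrownianReal (B a) P
  ind : iIndepFun (fun a ω t => B a t ω) P

theorem bpathV_aem [MeasurableSpace C(unitInterval, ℝ)] [BorelSpace C(unitInterval, ℝ)]
    (hB : IndBrown B P) : AEMeasurable (fun ω a => bpath (B a) ω) P :=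
  aemeasurable_pi_lambda _ fun a => bpath_aem (hB.brown a)

/-- the quadratic form of the Brownian motion -/
noncomputable def qform (N : ℕ) (θ : ℕ → ℝ) : ℝ :=
  ∑ i ∈ Finset.range (N + 1), ∑ j ∈ Finset.range (N + 1),
      θ i * θ j * min ((pt N i : unitInterval) : ℝ) ((pt N j : unitInterval) : ℝ)

theorem bcharV [IsProbabilityMeasure P] (hB : IndBrown B P) (N : ℕ) (θ : Fin k → ℕ → ℝ) :
    ∫ ω, Complex.exp (((∑ a, ∑ i ∈ Finset.range (N + 1),
      θ a i * bpath (B a) ω (pt N i) : ℝ) : ℂ) * Complex.I) ∂P =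
    ((exp (-((∑ a, qform N (θ a)) / 2)) : ℝ) : ℂ) := by
  set S : Fin k → Ω → ℝ := fun a ω => ∑ i ∈ Finset.range (N + 1), θ a i * B a (tm (pt N i)) ω with hS
  have hSm : ∀ a, AEMeasurable (S a) P := by
    intro a
    exact Finset.aemeasurable_fun_sum _ fun i _ => ((hB.brown a).aemeasurable _).const_mul _
  have hind : iIndepFun S P := by
    have h1 := hB.ind.comp (fun a (f : ℝ≥0 → ℝ) => ∑ i ∈ Finset.range (N + 1), θ a i * f (tm (pt N i)))
      (fun a => by fun_prop)
    exact h1
  have hprod := hind.charFun_map_fun_sum_eq_prod hSm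
  have e0 : ∀ a, charFun (P.map (S a)) 1 = ((exp (-(qform N (θ a) / 2)) : ℝ) : ℂ) := by
    intro a
    rw [charFun_apply, integral_map (hSm a) (by fun_prop)]
    have h2 := bchar (hB.brown a) N (θ a)
    unfold qform
    rw [← h2]
    apply integral_congr_ae
    filter_upwards [bpath_apply (hB.brown a)] with ω hω
    simp only [hω, hS]
    congr 2
    simp
  have e1 : ∫ ω, Complex.exp (((∑ a, ∑ i ∈ Finset.range (N + 1),
      θ a i * bpath (B a) ω (pt N i) : ℝ) : ℂ) * Complex.I) ∂P = charFun (P.map (fun ω => ∑ a, S a ω)) 1 := by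
    rw [charFun_apply, integral_map (Finset.aemeasurable_fun_sum _ fun a _ => hSm a) (by fun_prop)]
    apply integral_congr_ae
    filter_upwards [eventually_all.2 fun a => bpath_apply (hB.brown a)] with ω hω
    simp only [hω, hS]
    congr 2
    simp
  rw [e1, hprod]
  simp only [Finset.prod_apply, e0]
  rw [← Complex.ofReal_prod, ← Real.exp_sum]
  congr 2
  rw [Finset.sum_neg_distrib, Finset.sum_div]

end

end Pool.Agent.U581.FL
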