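import Pool.Agent.U62.BM.Vec

/-!
# The uniform measure on a box of integral vectors
-/

set_option autoImplicit false

namespace Pool.Agent.U581.FL

open Finset Filter Topology Pool.Agent.Y722.HS Pool.Agent.X280.BP MeasureTheory

variable {ι : Type} [Fintype ι] [DecidableEq ι]

/-- the uniform measure on the box -/
noncomputable def nu (H : ℕ) : Measure (ι → ℤ) := Pool.Agent.U62.BM.lawE H id

instance nu_prob (H : ℕ) : IsProbabilityMeasure (nu (ι := ι) H) := by
  unfold nu
  infer_instance

theorem nu_int (H : ℕ) (f : (ι → ℤ) → ℝ) : ∫ c, f c ∂(nu H) = EB H f := by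
  unfold nu Pool.Agent.U62.BM.lawE
  rw [integral_finsetSum_measure]
  · unfold EB
    rw [Finset.sum_div]
    refine Finset.sum_congr rfl fun c _ => ?_
    rw [integral_smul_measure, integral_dirac, ENNReal.toReal_ofReal (by positivity)]
    simp only [id, smul_eq_mul]
    ring
  · intro c _
    apply Integrable.smul_measure _ ENNReal.ofReal_ne_top
    exact integrable_dirac (by simp)

theorem nu_intc (H : ℕ) (f : (ι → ℤ) → ℂ) : ∫ c, f c ∂(nu H) = EBc H f := by
  unfold nu Pool.Agent.U62.BM.lawE
  rw [integral_finsetSum_measure]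
  · unfold EBc
    rw [Finset.sum_div]
    refine Finset.sum_congr rfl fun c _ => ?_
    rw [integral_smul_measure, integral_dirac, ENNReal.toReal_ofReal (by positivity)]
    simp only [id, Complex.real_smul]
    push_cast
    ring
  · intro c _
    apply Integrable.smul_measure _ ENNReal.ofReal_ne_top
    exact integrable_dirac (by simp)

theorem nu_real (H : ℕ) (S : Set (ι → ℤ)) : (nu H).real S = EB H (S.indicator fun _ => 1) := by
  rw [← nu_int, integral_indicator_const _ (MeasurableSet.of_discrete)]
  simp

theorem meas_all {E : Type*} [MeasurableSpace E] (f : (ι → ℤ) → E) : Measurable f :=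
  Measurable.of_discrete

/-- Markov's inequality -/
theorem nu_markov (H : ℕ) (S : Set (ι → ℤ)) (M : (ι → ℤ) → ℝ) {r : ℝ} (hr : 0 < r)
    (h0 : ∀ c, 0 ≤ M c) (h : ∀ c ∈ S, r ≤ M c) : (nu H).real S ≤ EB H M / r := by
  rw [nu_real, le_div_iff₀ hr, mul_comm, ← EB_mul_left]
  refine EB_mono H _ _ fun c => ?_
  by_cases hc : c ∈ S
  · rw [Set.indicator_of_mem hc, mul_one]
    exact h c hc
  · rw [Set.indicator_of_notMem hc, mul_zero]
    exact h0 c

end Pool.Agent.U581.FL
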