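import Pool.Agent.U581.FL.Model
import Pool.Agent.U62.RB.Joint2

/-!
# Convergence of the joint characteristic functions
-/

set_option autoImplicit false
set_option linter.unusedSectionVars false

namespace Pool.Agent.U581.FL

open Finset Filter Topology Pool.Agent.Y722.HS Pool.Agent.X280.BP Pool.Agent.X280.UC
  Pool.Agent.X280.HG MeasureTheory Pool.Agent.U581.BM

variable {ι : Type} [Fintype ι] [DecidableEq ι] {k : ℕ} {C : ℝ}

/-- the error term of the fourth moments -/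
theorem Mdl.err {D : Mdl ι k} {K : ℕ} (h : D.Ok C K) (hK : 9 ≤ K) (hK2 : 2 ^ Fintype.card ι ≤ K)
    {I : Finset ℕ} (hI : I ⊆ D.P) (b : ℕ → ℝ) :
    2 ^ Fintype.card ι * ((D.y : ℝ) ^ 4 / (2 * D.H + 1)) * (∑ p ∈ I, b p) ^ 4 ≤
      (∑ p ∈ I, b p ^ 2) ^ 2 / D.y ^ 2 := by
  have hny := h.card_le
  have hy1 : K ≤ D.y := h.large.trans hny
  have hy0 : 0 < D.y := by omega
  have hyr : (0 : ℝ) < D.y := by exact_mod_cast hy0
  have h1 : (∑ p ∈ I, b p) ^ 2 ≤ D.y * ∑ p ∈ I, b p ^ 2 := by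
    refine sq_sum_le_card_mul_sum_sq.trans ?_
    refine mul_le_mul_of_nonneg_right ?_ (Finset.sum_nonneg fun _ _ => sq_nonneg _)
    exact_mod_cast (Finset.card_le_card hI).trans hny
  have h2 : (∑ p ∈ I, b p) ^ 4 ≤ D.y ^ 2 * (∑ p ∈ I, b p ^ 2) ^ 2 := by
    calc (∑ p ∈ I, b p) ^ 4 = ((∑ p ∈ I, b p) ^ 2) ^ 2 := by ring
      _ ≤ (D.y * ∑ p ∈ I, b p ^ 2) ^ 2 := pow_le_pow_left₀ (sq_nonneg _) h1 2
      _ = _ := by ring
  have h3 : (2 : ℝ) ^ Fintype.card ι * (D.y : ℝ) ^ 8 ≤ 2 * D.H + 1 := by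
    have h4 : 2 ^ Fintype.card ι * D.y ^ 8 ≤ D.H := by
      calc 2 ^ Fintype.card ι * D.y ^ 8 ≤ D.y * D.y ^ 8 := Nat.mul_le_mul_right _ (hK2.trans hy1)
        _ = D.y ^ 9 := by ring
        _ ≤ D.y ^ K := Nat.pow_le_pow_right hy0 hK
        _ ≤ D.H := h.high
    have h5 : ((2 ^ Fintype.card ι * D.y ^ 8 : ℕ) : ℝ) ≤ D.H := by exact_mod_cast h4
    push_cast at h5
    have : (0 : ℝ) ≤ D.H := Nat.cast_nonneg _
    linarith
  have hH : (0 : ℝ) < 2 * D.H + 1 := by positivity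
  calc 2 ^ Fintype.card ι * ((D.y : ℝ) ^ 4 / (2 * D.H + 1)) * (∑ p ∈ I, b p) ^ 4
      ≤ 2 ^ Fintype.card ι * ((D.y : ℝ) ^ 4 / (2 * D.H + 1)) * (D.y ^ 2 * (∑ p ∈ I, b p ^ 2) ^ 2) := by
        gcongr
    _ = (2 ^ Fintype.card ι * (D.y : ℝ) ^ 8 / (2 * D.H + 1)) * ((∑ p ∈ I, b p ^ 2) ^ 2 / D.y ^ 2) := by
        field_simp
    _ ≤ 1 * ((∑ p ∈ I, b p ^ 2) ^ 2 / D.y ^ 2) := by
        refine mul_le_mul_of_nonneg_right ?_ (by positivity)
        rw [div_le_one hH]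
        exact h3
    _ = _ := one_mul _

theorem qform_nn (N : ℕ) (θ : ℕ → ℝ) : 0 ≤ qform N θ := by
  set c := (∑ i ∈ Finset.range (N + 1), |θ i|) ^ 2 with hc
  have h1 : ∀ n : ℕ, -(c * (1 / ((n : ℝ) + 1))) ≤ qform N θ := by
    intro n
    have h2 := wt_sq (Nat.succ_pos n) N θ
    have h3 := (abs_le.1 h2).2
    have h4 : 0 ≤ (∑ m ∈ Finset.range n.succ, wt n.succ N θ m ^ 2) / (n.succ : ℝ) := by positivity
    rw [← hc] at h3
    push_cast at h3 h4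
    linarith
  have h2 : Tendsto (fun n : ℕ => -(c * (1 / ((n : ℝ) + 1)))) atTop (𝓝 (-(c * 0))) :=
    (tendsto_one_div_add_atTop_nhds_zero_nat.const_mul c).neg
  rw [mul_zero, neg_zero] at h2
  exact le_of_tendsto' h2 h1

theorem exp_one_le (x : ℝ) {η : ℝ} (hη : 0 < η) :
    ‖Complex.exp ((x : ℂ) * Complex.I) - 1‖ ≤ η + x ^ 4 / η ^ 3 := by
  have h := Pool.Agent.U62.RB.exp_dist x 0
  rw [Complex.ofReal_zero, zero_mul, Complex.exp_zero, sub_zero] at h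
  refine h.trans ?_
  by_cases hx : |x| ≤ η
  · have : 0 ≤ x ^ 4 / η ^ 3 := by positivity
    linarith
  · push Not at hx
    have h1 : |x| ≤ x ^ 4 / η ^ 3 := by
      rw [le_div_iff₀ (by positivity)]
      have h2 : η ^ 3 ≤ |x| ^ 3 := pow_le_pow_left₀ hη.le hx.le 3
      calc |x| * η ^ 3 ≤ |x| * |x| ^ 3 := mul_le_mul_of_nonneg_left h2 (abs_nonneg _)
        _ = |x| ^ 4 := by ring
        _ = x ^ 4 := by
          rw [show (4 : ℕ) = 2 * 2 by norm_num, pow_mul, sq_abs, ← pow_mul]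
    linarith

theorem EBc_mono_norm (H : ℕ) (f : (ι → ℤ) → ℂ) (g : (ι → ℤ) → ℝ) (h : ∀ c, ‖f c‖ ≤ g c) :
    ‖EBc H f‖ ≤ EB H g := norm_EBc_le H _ _ h

/-- **the degenerate case** -/
theorem char_deg (D : ℕ → Mdl ι k) (hD : ∀ K, ∀ᶠ j in atTop, (D j).Ok C K) (N : ℕ)
    (θ : Fin k → ℕ → ℝ) (h0 : ∑ a, qform N (θ a) = 0) :
    Tendsto (fun j => EBc (D j).H (fun c => Complex.exp (((SP ((D j).G N θ) (D j).P c /
      √(D j).P.card : ℝ) : ℂ) * Complex.I))) atTop (𝓝 1) := by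
  set Θ := TH N θ with hΘ
  have hΘ0 : 0 ≤ Θ := TH_nn N θ
  rw [Metric.tendsto_atTop]
  intro ε hε
  set η := ε / 4 with hη
  have hη0 : 0 < η := by positivity
  obtain ⟨K1, hK1⟩ := exists_nat_ge (5 * (k : ℝ) ^ 4 * Θ ^ 4 / η ^ 4)
  obtain ⟨d2, hd2⟩ : ∃ d2 : ℕ, d2 = 2 ^ Fintype.card ι := ⟨_, rfl⟩
  set K := K1 + 9 + d2 with hK
  have hK9 : 9 ≤ K := by omega
  have hKd : 2 ^ Fintype.card ι ≤ K := by omega
  obtain ⟨J, hJ⟩ := eventually_atTop.1 (hD K)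
  refine ⟨J, fun j hj => ?_⟩
  have h := hJ j hj
  set E := D j with hE
  set n : ℝ := (E.P.card : ℝ) with hn
  have hn0' : 0 < E.P.card := lt_of_lt_of_le (by omega) h.large
  have hn0 : 0 < n := by rw [hn]; exact_mod_cast hn0'
  have hsn : 0 < √n := Real.sqrt_pos.2 hn0
  set b : ℕ → ℝ := fun p => E.A * ∑ a, |wt E.P.card N (θ a) (rk E.P p)| with hb
  have hb0 : ∀ p, 0 ≤ b p := fun p => mul_nonneg h.A0 (Finset.sum_nonneg fun _ _ => abs_nonneg _)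
  have hbG : ∀ p ∈ E.P, ∀ x, |E.G N θ p x| ≤ b p := fun p hp x => Mdl.G_bound h N θ hp x
  have hV : ∑ p ∈ E.P, b p ^ 2 ≤ k ^ 2 * Θ ^ 2 * E.A ^ 2 := by
    have h1 := E.wt_sum hn0' N θ
    rw [h0, mul_zero, sub_zero] at h1
    have h2 := (abs_le.1 h1).2
    calc ∑ p ∈ E.P, b p ^ 2 ≤ ∑ p ∈ E.P, E.A ^ 2 * (k * ∑ a, wt E.P.card N (θ a) (rk E.P p) ^ 2) := by
          refine Finset.sum_le_sum fun p _ => ?_
          rw [hb]
          dsimp only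
          rw [mul_pow]
          refine mul_le_mul_of_nonneg_left ?_ (sq_nonneg _)
          refine sq_sum_le_card_mul_sum_sq.trans (le_of_eq ?_)
          rw [Finset.card_univ, Fintype.card_fin]
          simp only [sq_abs]
      _ = E.A ^ 2 * k * ∑ p ∈ E.P, ∑ a, wt E.P.card N (θ a) (rk E.P p) ^ 2 := by
          rw [Finset.mul_sum]
          refine Finset.sum_congr rfl fun p _ => ?_
          ring
      _ ≤ E.A ^ 2 * k * (k * Θ ^ 2) := mul_le_mul_of_nonneg_left h2 (by positivity)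
      _ = _ := by ring
  have hV0 : 0 ≤ ∑ p ∈ E.P, b p ^ 2 := Finset.sum_nonneg fun _ _ => sq_nonneg _
  have hy1 : 1 ≤ E.y := (Nat.succ_le_of_lt hn0').trans h.card_le
  have hyr : (1 : ℝ) ≤ E.y := by exact_mod_cast hy1
  have h4 := mom4 E.P E.y h.prime (E.G N θ) b (fun p => b p ^ 2) (fun p => b p ^ 4) hbG
    (fun p hp _ => Mdl.G_mean h N θ hp)
    (fun p hp _ => EM_le_of_le p _ _ fun x => by
      rw [← sq_abs]
      exact pow_le_pow_left₀ (abs_nonneg _) (hbG p hp x) 2)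
    (fun p hp _ => EM_le_of_le p _ _ fun x => by
      have := pow_le_pow_left₀ (abs_nonneg _) (hbG p hp x) 4
      rwa [show |E.G N θ p x| ^ 4 = E.G N θ p x ^ 4 by
        rw [show (4 : ℕ) = 2 * 2 by norm_num, pow_mul, sq_abs, ← pow_mul]] at this)
    E.H (by
      have h5 : E.y ^ 4 ≤ E.y ^ K := Nat.pow_le_pow_right (by omega) (by omega)
      have := h.high
      omega)
  have h5 := Mdl.err h hK9 hKd (Finset.Subset.refl _) b
  have h6 : ∑ p ∈ E.P, b p ^ 4 ≤ (∑ p ∈ E.P, b p ^ 2) ^ 2 := by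
    calc ∑ p ∈ E.P, b p ^ 4 = ∑ p ∈ E.P, b p ^ 2 * b p ^ 2 := by
          refine Finset.sum_congr rfl fun p _ => ?_
          ring
      _ ≤ ∑ p ∈ E.P, b p ^ 2 * ∑ q ∈ E.P, b q ^ 2 := by
          refine Finset.sum_le_sum fun p hp => ?_
          exact mul_le_mul_of_nonneg_left (Finset.single_le_sum (f := fun p => b p ^ 2)
            (fun _ _ => sq_nonneg _) hp) (sq_nonneg _)
      _ = (∑ p ∈ E.P, b p ^ 2) ^ 2 := by rw [← Finset.sum_mul, sq]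
  have h7 : (∑ p ∈ E.P, b p ^ 2) ^ 2 / (E.y : ℝ) ^ 2 ≤ (∑ p ∈ E.P, b p ^ 2) ^ 2 :=
    div_le_self (sq_nonneg _) (one_le_pow₀ hyr)
  have h8 : EB E.H (fun c => (SP (E.G N θ) E.P c) ^ 4) ≤ 5 * (k ^ 2 * Θ ^ 2 * E.A ^ 2) ^ 2 := by
    have e : (fun c => (SP (E.G N θ) E.P c) ^ 4) = fun c : ι → ℤ =>
        (∑ p ∈ E.P, E.G N θ p (red p c)) ^ 4 := rfl
    rw [e]
    have h9 : (∑ p ∈ E.P, b p ^ 2) ^ 2 ≤ (k ^ 2 * Θ ^ 2 * E.A ^ 2) ^ 2 :=
      pow_le_pow_left₀ hV0 hV 2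
    linarith
  have hKr : (0 : ℝ) < (K : ℝ) + 1 := by positivity
  have hA2 : E.A ^ 2 ≤ n / (K + 1) := by
    rw [le_div_iff₀ hKr]
    exact h.Asq
  have h9 : EB E.H (fun c => (SP (E.G N θ) E.P c / √n) ^ 4) ≤ 5 * k ^ 4 * Θ ^ 4 / (K + 1) ^ 2 := by
    have e : (fun c : ι → ℤ => (SP (E.G N θ) E.P c / √n) ^ 4) = fun c =>
        (1 / n ^ 2) * (SP (E.G N θ) E.P c) ^ 4 := by
      funext c
      rw [div_pow]
      have : √n ^ 4 = n ^ 2 := by
        rw [show (4 : ℕ) = 2 * 2 by norm_num, pow_mul, Real.sq_sqrt hn0.le]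
      rw [this]
      ring
    rw [e, EB_mul_left]
    have h10 : (E.A ^ 2) ^ 2 ≤ (n / (K + 1)) ^ 2 := pow_le_pow_left₀ (sq_nonneg _) hA2 2
    calc 1 / n ^ 2 * EB E.H (fun c => (SP (E.G N θ) E.P c) ^ 4)
        ≤ 1 / n ^ 2 * (5 * (k ^ 2 * Θ ^ 2 * E.A ^ 2) ^ 2) := mul_le_mul_of_nonneg_left h8 (by positivity)
      _ = 5 * k ^ 4 * Θ ^ 4 / n ^ 2 * (E.A ^ 2) ^ 2 := by ring
      _ ≤ 5 * k ^ 4 * Θ ^ 4 / n ^ 2 * (n / (K + 1)) ^ 2 := mul_le_mul_of_nonneg_left h10 (by positivity)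
      _ = _ := by field_simp
  rw [dist_eq_norm]
  have e1 : EBc E.H (fun c => Complex.exp (((SP (E.G N θ) E.P c / √n : ℝ) : ℂ) * Complex.I)) - 1 =
      EBc E.H (fun c => Complex.exp (((SP (E.G N θ) E.P c / √n : ℝ) : ℂ) * Complex.I) - 1) := by
    rw [EBc_sub, Pool.Agent.U62.RB.EBc_one]
  rw [e1]
  have h10 := EBc_mono_norm E.H (fun c => Complex.exp (((SP (E.G N θ) E.P c / √n : ℝ) : ℂ) *
    Complex.I) - 1) (fun c => η + (1 / η ^ 3) * (SP (E.G N θ) E.P c / √n) ^ 4) (fun c => by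
      refine (exp_one_le _ hη0).trans (le_of_eq ?_)
      ring)
  refine lt_of_le_of_lt h10 ?_
  rw [EB_addF, EB_mul_left, Pool.Agent.X280.BP.EB_const]
  have h11 : 1 / η ^ 3 * EB E.H (fun c => (SP (E.G N θ) E.P c / √n) ^ 4) ≤ η := by
    calc 1 / η ^ 3 * EB E.H (fun c => (SP (E.G N θ) E.P c / √n) ^ 4)
        ≤ 1 / η ^ 3 * (5 * k ^ 4 * Θ ^ 4 / (K + 1) ^ 2) := mul_le_mul_of_nonneg_left h9 (by positivity)
      _ = (5 * k ^ 4 * Θ ^ 4 / η ^ 4) * η / (K + 1) ^ 2 := by field_simp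
      _ ≤ (K + 1) ^ 2 * η / (K + 1) ^ 2 := by
          gcongr
          have h12 : (K1 : ℝ) ≤ K := by
            rw [hK]
            push_cast
            have : (0 : ℝ) ≤ d2 := Nat.cast_nonneg d2
            linarith
          have h13 : (0 : ℝ) ≤ K := Nat.cast_nonneg K
          nlinarith
      _ = η := by field_simp
  linarith

/-- **the general case** -/
theorem char_pos (D : ℕ → Mdl ι k) (hD : ∀ K, ∀ᶠ j in atTop, (D j).Ok C K) (N : ℕ)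
    (θ : Fin k → ℕ → ℝ) (h0 : 0 < ∑ a, qform N (θ a)) :
    Tendsto (fun j => EBc (D j).H (fun c => Complex.exp (((SP ((D j).G N θ) (D j).P c /
      √(D j).P.card : ℝ) : ℂ) * Complex.I))) atTop
      (𝓝 ((Real.exp (-((∑ a, qform N (θ a)) / 2)) : ℝ) : ℂ)) := by
  set Θ := TH N θ with hΘ
  have hΘ0 : 0 ≤ Θ := TH_nn N θ
  set Q := ∑ a, qform N (θ a) with hQ
  have hsQ : 0 < √Q := Real.sqrt_pos.2 h0
  rw [Metric.tendsto_atTop]
  intro ε hε
  obtain ⟨m, hm⟩ := unif_char2 (ι := ι) (√Q) (half_pos hε)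
  have hm0 : (0 : ℝ) < (m : ℝ) + 1 := by positivity
  obtain ⟨K1, hK1⟩ := exists_nat_ge (Θ ^ 2 * (m + 1) ^ 2 / Q)
  obtain ⟨K2, hK2⟩ := exists_nat_ge (2 * k ^ 2 * Θ ^ 2 * (m + 1) / Q)
  obtain ⟨K3, hK3⟩ := exists_nat_ge (2 * k * Θ ^ 2 * (m + 1) / Q)
  set K := K1 + K2 + K3 + m + 1 with hK
  obtain ⟨J, hJ⟩ := eventually_atTop.1 (hD K)
  refine ⟨J, fun j hj => ?_⟩
  have h := hJ j hj
  set E := D j with hE
  set n : ℝ := (E.P.card : ℝ) with hn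
  have hn0' : 0 < E.P.card := lt_of_lt_of_le (by omega) h.large
  have hn0 : 0 < n := by rw [hn]; exact_mod_cast hn0'
  have hsn : 0 < √n := Real.sqrt_pos.2 hn0
  have hKn : (K : ℝ) ≤ n := by rw [hn]; exact_mod_cast h.large
  have hKr : (0 : ℝ) < (K : ℝ) + 1 := by positivity
  have c1 : (K1 : ℝ) ≤ K := by exact_mod_cast (by omega : K1 ≤ K)
  have c2 : (K2 : ℝ) ≤ K := by exact_mod_cast (by omega : K2 ≤ K)
  have c3 : (K3 : ℝ) ≤ K := by exact_mod_cast (by omega : K3 ≤ K)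
  have d1 : Θ ^ 2 * (m + 1) ^ 2 ≤ Q * (K + 1) := by
    have h1 : Θ ^ 2 * (m + 1) ^ 2 / Q ≤ K + 1 := by linarith
    rw [div_le_iff₀ h0] at h1
    linarith
  have d2 : 2 * k ^ 2 * Θ ^ 2 * (m + 1) ≤ Q * (K + 1) := by
    have h1 : 2 * k ^ 2 * Θ ^ 2 * (m + 1) / Q ≤ K + 1 := by linarith
    rw [div_le_iff₀ h0] at h1
    linarith
  have d3 : 2 * k * Θ ^ 2 * (m + 1) ≤ Q * n := by
    have h1 : 2 * k * Θ ^ 2 * (m + 1) / Q ≤ n := by linarith
    rw [div_le_iff₀ h0] at h1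
    linarith
  set σ : ℝ := √n * √Q with hσ
  have hσ0 : 0 < σ := by positivity
  have hσ2 : σ ^ 2 = n * Q := by
    rw [hσ, mul_pow, Real.sq_sqrt hn0.le, Real.sq_sqrt h0.le]
  have hA2 : E.A ^ 2 * (K + 1) ≤ n := h.Asq
  set D2 : Dat2 ι := ⟨E.P, E.y, E.H, E.G N θ, fun c => SP (E.G N θ) E.P c / σ, σ⟩ with hD2
  have hmono := h.mono (show m ≤ K by omega)
  have hOk : D2.Ok m := by
    refine ⟨fun p hp => (h.prime p hp).1, fun p hp => (h.prime p hp).2, hσ0, ?_, ?_, ?_, ?_, ?_, ?_⟩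
    · intro p hp x
      change |E.G N θ p x| ≤ σ / (m + 1)
      have h1 : |E.G N θ p x| ≤ E.A * Θ := (Mdl.G_bound h N θ hp x).trans
        (mul_le_mul_of_nonneg_left (wt_TH _ N θ _) h.A0)
      refine h1.trans ?_
      rw [le_div_iff₀ hm0]
      refine abs_le_of_sq_le_sq' ?_ hσ0.le |>.2
      rw [hσ2]
      calc (E.A * Θ * (m + 1)) ^ 2 = E.A ^ 2 * (Θ ^ 2 * (m + 1) ^ 2) := by ring
        _ ≤ E.A ^ 2 * (Q * (K + 1)) := mul_le_mul_of_nonneg_left d1 (sq_nonneg _)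
        _ = Q * (E.A ^ 2 * (K + 1)) := by ring
        _ ≤ Q * n := mul_le_mul_of_nonneg_left hA2 h0.le
        _ = n * Q := mul_comm _ _
    · intro p hp _
      exact Mdl.G_mean h N θ hp
    · change |VP (E.G N θ) E.P - σ ^ 2| ≤ σ ^ 2 / (m + 1)
      rw [hσ2]
      refine (Mdl.VP_near h hn0' N θ).trans ?_
      rw [le_div_iff₀ hm0, ← hn, ← hΘ, add_mul]
      have f1 : k ^ 2 * Θ ^ 2 * (n / (K + 1)) * (m + 1) ≤ n * Q / 2 := by
        calc k ^ 2 * Θ ^ 2 * (n / (K + 1)) * (m + 1) =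
            (2 * k ^ 2 * Θ ^ 2 * (m + 1)) * (n / (K + 1)) / 2 := by ring
          _ ≤ (Q * (K + 1)) * (n / (K + 1)) / 2 := by
              have : 0 ≤ n / ((K : ℝ) + 1) := by positivity
              gcongr
          _ = n * Q / 2 := by field_simp
      have f2 : k * Θ ^ 2 * (m + 1) ≤ n * Q / 2 := by
        have : 2 * (k * Θ ^ 2 * ((m : ℝ) + 1)) ≤ Q * n := by linarith
        linarith
      linarith
    · change m ≤ E.y
      exact hmono.large.trans h.card_le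
    · exact hmono.high
    · change EB E.H (far (fun c => SP (E.G N θ) E.P c / σ) (fun c => SP (E.G N θ) E.P c / σ)
        (1 / (m + 1))) ≤ 1 / (m + 1)
      have e : far (fun c => SP (E.G N θ) E.P c / σ) (fun c => SP (E.G N θ) E.P c / σ)
          (1 / ((m : ℝ) + 1)) = fun _ : ι → ℤ => (0 : ℝ) := by
        funext c
        unfold far
        rw [sub_self, abs_zero, if_pos (by positivity)]
      rw [e, Pool.Agent.X280.BP.EB_const]
      positivity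
  have h1 := hm D2 hOk
  have e1 : (fun c => Complex.exp ((√Q * D2.Q c : ℝ) * Complex.I)) =
      fun c => Complex.exp (((SP (E.G N θ) E.P c / √n : ℝ) : ℂ) * Complex.I) := by
    funext c
    have e2 : √Q * D2.Q c = SP (E.G N θ) E.P c / √n := by
      change √Q * (SP (E.G N θ) E.P c / σ) = _
      rw [hσ]
      field_simp
    rw [e2]
  rw [e1, Real.sq_sqrt h0.le] at h1
  rw [dist_eq_norm]
  exact lt_of_le_of_lt h1 (by linarith)

/-- **convergence of the joint characteristic functions** -/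
theorem char_model (D : ℕ → Mdl ι k) (hD : ∀ K, ∀ᶠ j in atTop, (D j).Ok C K) (N : ℕ)
    (θ : Fin k → ℕ → ℝ) :
    Tendsto (fun j => EBc (D j).H (fun c => Complex.exp (((∑ a, ∑ i ∈ Finset.range (N + 1),
      θ a i * (D j).X c a (pt N i) : ℝ) : ℂ) * Complex.I))) atTop
      (𝓝 ((Real.exp (-((∑ a, qform N (θ a)) / 2)) : ℝ) : ℂ)) := by
  simp only [Mdl.comb]
  have hQ0 : 0 ≤ ∑ a, qform N (θ a) := Finset.sum_nonneg fun a _ => qform_nn N (θ a)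
  rcases eq_or_lt_of_le hQ0 with h0 | h0
  · have h1 := char_deg D hD N θ h0.symm
    rw [← h0]
    simpa using h1
  · exact char_pos D hD N θ h0

end Pool.Agent.U581.FL
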