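import Pool.Agent.X280.BP.Chain

/-!
# Fourth moments of sums over primes
-/

set_option autoImplicit false

namespace Pool.Agent.U581.FL

open Finset Filter Topology Pool.Agent.Y722.HS Pool.Agent.X280.BP

variable {ι : Type} [Fintype ι] [DecidableEq ι]

theorem lim_one (p : ℕ) [NeZero p] (f : (ι → ZMod p) → ℝ) :
    Tendsto (fun H => EB H (fun c => f (red p c))) atTop (𝓝 (EM p f)) := by
  have h := lim_two p 1 (Nat.coprime_one_right p) f (fun _ => (1 : ℝ))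
  rw [EM_one1] at h
  simpa using h

theorem EB_addF (H : ℕ) (f g : (ι → ℤ) → ℝ) : EB H (fun c => f c + g c) = EB H f + EB H g := by
  unfold EB
  rw [Finset.sum_add_distrib, add_div]

theorem EM_nn (p : ℕ) [NeZero p] (f : (ι → ZMod p) → ℝ) (h : ∀ x, 0 ≤ f x) : 0 ≤ EM p f := by
  unfold EM
  exact div_nonneg (Finset.sum_nonneg fun x _ => h x) (by positivity)

/-- **The limits of the moments.** -/
theorem lim_four (I : Finset ℕ) (hI : ∀ p ∈ I, p.Prime) (Z : ∀ p : ℕ, (ι → ZMod p) → ℝ)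
    (v m4 : ℕ → ℝ) (h0 : ∀ p ∈ I, ∀ [NeZero p], EM p (Z p) = 0)
    (h2 : ∀ p ∈ I, ∀ [NeZero p], EM p (fun x => Z p x ^ 2) ≤ v p)
    (h4 : ∀ p ∈ I, ∀ [NeZero p], EM p (fun x => Z p x ^ 4) ≤ m4 p) :
    Tendsto (fun H => EB H (fun c => ∑ p ∈ I, Z p (red p c))) atTop (𝓝 0) ∧
    (∃ L2 : ℝ, Tendsto (fun H => EB H (fun c => (∑ p ∈ I, Z p (red p c)) ^ 2)) atTop (𝓝 L2) ∧
      L2 ≤ ∑ p ∈ I, v p) ∧
    (∃ L4 : ℝ, Tendsto (fun H => EB H (fun c => (∑ p ∈ I, Z p (red p c)) ^ 4)) atTop (𝓝 L4) ∧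
      L4 ≤ 3 * (∑ p ∈ I, v p) ^ 2 + ∑ p ∈ I, m4 p) := by
  induction I using Finset.induction_on with
  | empty =>
    have e0 : ∀ H : ℕ, EB H (fun _ : ι → ℤ => (0 : ℝ)) = 0 := fun H => by simp [EB]
    refine ⟨?_, ⟨0, ?_, by simp⟩, ⟨0, ?_, by simp⟩⟩
    · simp only [Finset.sum_empty, e0]
      exact tendsto_const_nhds
    · simp only [Finset.sum_empty, ne_eq, OfNat.ofNat_ne_zero, not_false_eq_true, zero_pow, e0]
      exact tendsto_const_nhds
    · simp only [Finset.sum_empty, ne_eq, OfNat.ofNat_ne_zero, not_false_eq_true, zero_pow, e0]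
      exact tendsto_const_nhds
  | insert q I hq ih =>
    obtain ⟨i1, ⟨L2, i2, i2'⟩, ⟨L4, i4, i4'⟩⟩ := ih (fun p hp => hI p (Finset.mem_insert_of_mem hp))
      (fun p hp => h0 p (Finset.mem_insert_of_mem hp)) (fun p hp => h2 p (Finset.mem_insert_of_mem hp))
      (fun p hp => h4 p (Finset.mem_insert_of_mem hp))
    have hqp : q.Prime := hI q (Finset.mem_insert_self q I)
    have hM0 : ∏ p ∈ I, p ≠ 0 := Finset.prod_ne_zero_iff.mpr fun p hp =>
      (hI p (Finset.mem_insert_of_mem hp)).ne_zero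
    set M := ∏ p ∈ I, p with hM
    have : NeZero M := ⟨hM0⟩
    have : NeZero q := ⟨hqp.ne_zero⟩
    set F : (ι → ZMod M) → ℝ := fun r => ∑ p ∈ I, Z p (fun j => ((r j).cast : ZMod p)) with hF
    have h1 : ∀ c : ι → ℤ, ∑ p ∈ I, Z p (red p c) = F (red M c) := by
      intro c
      rw [hF]
      refine Finset.sum_congr rfl fun p hp => ?_
      congr 1
      funext j
      unfold red
      have hd : p ∣ M := Finset.dvd_prod_of_mem (fun x => x) hp
      rw [ZMod.cast_intCast hd]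
    have hcop : Nat.Coprime q M := by
      rw [hM]
      refine Nat.Coprime.prod_right fun p hp => ?_
      refine (Nat.coprime_primes hqp (hI p (Finset.mem_insert_of_mem hp))).mpr ?_
      rintro rfl
      exact hq hp
    simp only [h1] at i1 i2 i4
    have g1 : EM M F = 0 := tendsto_nhds_unique (lim_one M F) i1
    have g2 : EM M (fun r => F r ^ 2) = L2 := tendsto_nhds_unique (lim_one M _) i2
    have g4 : EM M (fun r => F r ^ 4) = L4 := tendsto_nhds_unique (lim_one M _) i4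
    have k0 := h0 q (Finset.mem_insert_self q I)
    have k2 := h2 q (Finset.mem_insert_self q I)
    have k4 := h4 q (Finset.mem_insert_self q I)
    have L20 : 0 ≤ L2 := by rw [← g2]; exact EM_nn M _ fun x => sq_nonneg _
    have v20 : 0 ≤ EM q (fun x => Z q x ^ 2) := EM_nn q _ fun x => sq_nonneg _
    have lz1 := lim_one q (Z q)
    have lz2 := lim_one q (fun x => Z q x ^ 2)
    have lz4 := lim_one q (fun x => Z q x ^ 4)
    rw [k0] at lz1
    have l11 := lim_two q M hcop (Z q) F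
    have l31 := lim_two q M hcop (fun x => Z q x ^ 3) F
    have l22 := lim_two q M hcop (fun x => Z q x ^ 2) (fun r => F r ^ 2)
    have l13 := lim_two q M hcop (Z q) (fun r => F r ^ 3)
    rw [k0, zero_mul] at l11 l13
    rw [g1, mul_zero] at l31
    rw [g2] at l22
    refine ⟨?_, ⟨EM q (fun x => Z q x ^ 2) + 2 * 0 + L2, ?_, ?_⟩,
      ⟨EM q (fun x => Z q x ^ 4) + 4 * 0 + 6 * (EM q (fun x => Z q x ^ 2) * L2) + 4 * 0 + L4, ?_, ?_⟩⟩
    · have h := lz1.add i1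
      rw [add_zero] at h
      refine h.congr fun H => ?_
      rw [← EB_addF]
      congr 1
      funext c
      rw [Finset.sum_insert hq, h1]
    · have h := (lz2.add (l11.const_mul 2)).add i2
      refine h.congr fun H => ?_
      rw [← EB_mul_left, ← EB_addF, ← EB_addF]
      congr 1
      funext c
      rw [Finset.sum_insert hq, h1]
      ring
    · rw [Finset.sum_insert hq]
      linarith
    · have h := (((lz4.add (l31.const_mul 4)).add (l22.const_mul 6)).add (l13.const_mul 4)).add i4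
      refine h.congr fun H => ?_
      rw [← EB_mul_left, ← EB_mul_left, ← EB_mul_left, ← EB_addF, ← EB_addF, ← EB_addF, ← EB_addF]
      congr 1
      funext c
      rw [Finset.sum_insert hq, h1]
      ring
    · rw [Finset.sum_insert hq, Finset.sum_insert hq]
      have h5 : EM q (fun x => Z q x ^ 2) * L2 ≤ v q * ∑ p ∈ I, v p :=
        mul_le_mul k2 i2' L20 (v20.trans k2)
      nlinarith [sq_nonneg (v q)]

/-- **The fourth moment.** -/
theorem mom4 (I : Finset ℕ) (x : ℕ) (hI : ∀ p ∈ I, p.Prime ∧ p ≤ x)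
    (Z : ∀ p : ℕ, (ι → ZMod p) → ℝ) (b v m4 : ℕ → ℝ) (hb : ∀ p ∈ I, ∀ c, |Z p c| ≤ b p)
    (h0 : ∀ p ∈ I, ∀ [NeZero p], EM p (Z p) = 0)
    (h2 : ∀ p ∈ I, ∀ [NeZero p], EM p (fun x => Z p x ^ 2) ≤ v p)
    (h4 : ∀ p ∈ I, ∀ [NeZero p], EM p (fun x => Z p x ^ 4) ≤ m4 p)
    (H : ℕ) (hH : x ^ 4 ≤ 2 * H + 1) :
    EB H (fun c => (∑ p ∈ I, Z p (red p c)) ^ 4) ≤ 3 * (∑ p ∈ I, v p) ^ 2 + ∑ p ∈ I, m4 p +
      2 ^ Fintype.card ι * ((x : ℝ) ^ 4 / (2 * H + 1)) * (∑ p ∈ I, b p) ^ 4 := by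
  obtain ⟨-, -, ⟨L4, i4, i4'⟩⟩ := lim_four I (fun p hp => (hI p hp).1) Z v m4 h0 h2 h4
  have hlim : Tendsto (fun H' : ℕ => 2 ^ Fintype.card ι * ((x : ℝ) ^ 4 / (2 * H + 1) +
      (x : ℝ) ^ 4 / (2 * (H' : ℝ) + 1)) * (∑ p ∈ I, b p) ^ 4) atTop
      (𝓝 (2 ^ Fintype.card ι * ((x : ℝ) ^ 4 / (2 * H + 1) + 0) * (∑ p ∈ I, b p) ^ 4)) :=
    ((tendsto_const_nhds.add (tendsto_ratio _)).const_mul _).mul_const _
  have hle : ∀ᶠ H' : ℕ in atTop, EB H (fun c => (∑ p ∈ I, Z p (red p c)) ^ 4) ≤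
      EB H' (fun c => (∑ p ∈ I, Z p (red p c)) ^ 4) + 2 ^ Fintype.card ι * ((x : ℝ) ^ 4 / (2 * H + 1) +
      (x : ℝ) ^ 4 / (2 * (H' : ℝ) + 1)) * (∑ p ∈ I, b p) ^ 4 := by
    filter_upwards [eventually_ge_atTop (x ^ 4)] with H' hH'
    have h := mom_diff I x (fun p hp => ⟨(hI p hp).1.ne_zero, (hI p hp).2⟩) Z b hb 4 H H' hH
      (by omega)
    have := (abs_le.mp h).2
    linarith
  have h := ge_of_tendsto (i4.add hlim) hle
  rw [add_zero] at h
  linarith

end Pool.Agent.U581.FL
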