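import Pool.Agent.U581.FL.Unb
import Pool.Agent.U62.SH.Law

/-!
# Hypersurfaces: the data of polynomials in the trace
-/

set_option autoImplicit false
set_option linter.unusedSectionVars false

namespace Pool.Agent.U581.FL

open Finset hiding val
open Polynomial Filter Topology Pool.Agent.Y722.HS Pool.Agent.X280.BP Pool.Agent.X280.UC
  Pool.Agent.X280.HG Pool.Agent.N534.XH MeasureTheory ProbabilityTheory Pool.Agent.U62.SH

theorem hyp_data {k : ℕ} (n d : ℕ) (hn : 2 ≤ n) (φ : Fin k → ℝ[X])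
    (hd : ∀ i, 4 * (φ i).natDegree ≤ d + 1) (h0 : ∀ i, GM (φ i) = 0)
    (h1 : ∀ i j, GM (φ i * φ j) = if i = j then 1 else 0) :
    ∃ C : ℝ, LV (fun i p (c : Mon (n + 1) d → ZMod p) => (φ i).eval (tn n d p c)) C := by
  choose C1 h10 hc1 using fun i => EM_polyn (φ i)
  choose C2 h20 hc2 using fun i j => EM_polyn (φ i * φ j)
  choose C4 h40 hc4 using fun i => EM_polyn ((φ i) ^ 4)
  set S1 : ℝ := ∑ i, C1 i with hS1
  set S2 : ℝ := ∑ i, ∑ j, C2 i j with hS2
  set S4 : ℝ := ∑ i, (C4 i + |GM ((φ i) ^ 4)|) with hS4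
  have hle1 : ∀ i, C1 i ≤ S1 := fun i => Finset.single_le_sum (f := C1) (fun i _ => h10 i) (Finset.mem_univ i)
  have hle2 : ∀ i j, C2 i j ≤ S2 := fun i j =>
    (Finset.single_le_sum (f := C2 i) (fun j _ => h20 i j) (Finset.mem_univ j)).trans
      (Finset.single_le_sum (f := fun i => ∑ j, C2 i j) (fun i _ => Finset.sum_nonneg fun j _ => h20 i j)
        (Finset.mem_univ i))
  have hle4 : ∀ i, C4 i + |GM ((φ i) ^ 4)| ≤ S4 := fun i =>
    Finset.single_le_sum (f := fun i => C4 i + |GM ((φ i) ^ 4)|)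
      (fun i _ => add_nonneg (h40 i) (abs_nonneg _)) (Finset.mem_univ i)
  have hS10 : 0 ≤ S1 := Finset.sum_nonneg fun i _ => h10 i
  have hS20 : 0 ≤ S2 := Finset.sum_nonneg fun i _ => Finset.sum_nonneg fun j _ => h20 i j
  have hS40 : 0 ≤ S4 := Finset.sum_nonneg fun i _ => add_nonneg (h40 i) (abs_nonneg _)
  refine ⟨S1 + S2 + S4, by positivity, fun i p hp => ?_, fun i j p hp => ?_, fun i p hp => ?_⟩
  · have : NeZero p := ⟨hp.ne_zero⟩
    have : Fact p.Prime := ⟨hp⟩
    have hp0 : (0 : ℝ) < p := by exact_mod_cast hp.pos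
    have h := hc1 i n d (by omega) (by have := hd i; omega) (Or.inl hn) p
    rw [h0 i, sub_zero] at h
    rw [EMt_eq]
    exact h.trans (div_le_div_of_nonneg_right (by linarith [hle1 i]) hp0.le)
  · have : NeZero p := ⟨hp.ne_zero⟩
    have : Fact p.Prime := ⟨hp⟩
    have hp0 : (0 : ℝ) < p := by exact_mod_cast hp.pos
    have h := hc2 i j n d (by omega) (natDegree_mul_le.trans (by have := hd i; have := hd j; omega))
      (Or.inl hn) p
    rw [h1 i j] at h
    simp only [eval_mul] at h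
    rw [EMt_eq]
    exact h.trans (div_le_div_of_nonneg_right (by linarith [hle2 i j]) hp0.le)
  · have : NeZero p := ⟨hp.ne_zero⟩
    have : Fact p.Prime := ⟨hp⟩
    have hp1 : (1 : ℝ) ≤ p := by exact_mod_cast hp.one_lt.le
    have h := hc4 i n d (by omega) (natDegree_pow_le.trans (hd i)) (Or.inl hn) p
    simp only [eval_pow] at h
    rw [EMt_eq]
    have h5 := (abs_le.mp h).2
    have h6 : C4 i / p ≤ C4 i := div_le_self (h40 i) hp1
    have h7 := le_abs_self (GM ((φ i) ^ 4))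
    have h8 := hle4 i
    linarith

theorem hyp_good (n d : ℕ) (hd : 1 ≤ d) : ∃ D : ℝ, 0 ≤ D ∧ ∀ p : ℕ, p.Prime →
    EMt p (ib (GR n d) p) ≤ D / p := by
  refine ⟨|DD (n + 1) d|, abs_nonneg _, fun p hp => ?_⟩
  have : NeZero p := ⟨hp.ne_zero⟩
  have hp0 : (0 : ℝ) < p := by exact_mod_cast hp.pos
  rw [EMt_eq]
  exact (EM_GR n d hd p hp).trans (div_le_div_of_nonneg_right (le_abs_self _) hp0.le)

end Pool.Agent.U581.FL
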