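import Pool.Agent.U581.FL.Wts

/-!
# Paths of sums over a finite set of natural numbers
-/

set_option autoImplicit false

namespace Pool.Agent.U581.FL

open Real MeasureTheory Filter Topology Pool.Agent.U581.BM

/-- the rank of `p` in `P` -/
def rk (P : Finset ℕ) (p : ℕ) : ℕ := (P.filter (fun q => q < p)).card

/-- the element of `P` of rank `k` -/
noncomputable def el (P : Finset ℕ) (k : ℕ) : ℕ := Nat.nth (· ∈ P) k

theorem rk_eq (P : Finset ℕ) (p : ℕ) : rk P p = Nat.count (· ∈ P) p := by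
  rw [Nat.count_eq_card_filter_range]
  unfold rk
  congr 1
  ext q
  simp [and_comm]

theorem el_rk {P : Finset ℕ} {p : ℕ} (h : p ∈ P) : el P (rk P p) = p := by
  unfold el
  rw [rk_eq]
  exact Nat.nth_count h

theorem fin_card (P : Finset ℕ) (hf : (Set.ofPred (· ∈ P)).Finite) : hf.toFinset.card = P.card := by
  congr 1
  ext x
  simp

theorem rk_lt {P : Finset ℕ} {p : ℕ} (h : p ∈ P) : rk P p < P.card := by
  unfold rk
  refine Finset.card_lt_card ⟨Finset.filter_subset _ _, fun hc => ?_⟩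
  have := hc h
  rw [Finset.mem_filter] at this
  exact lt_irrefl _ this.2

theorem el_mem {P : Finset ℕ} {k : ℕ} (h : k < P.card) : el P k ∈ P := by
  unfold el
  have hf : (Set.ofPred (· ∈ P)).Finite := P.finite_toSet
  exact Nat.nth_mem_of_lt_card hf (by rw [fin_card P hf]; exact h)

theorem rk_el {P : Finset ℕ} {k : ℕ} (h : k < P.card) : rk P (el P k) = k := by
  rw [rk_eq]
  unfold el
  have hf : (Set.ofPred (· ∈ P)).Finite := P.finite_toSet
  exact Nat.count_nth (fun _ => by rw [fin_card P]; exact h)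

theorem sum_rk (P : Finset ℕ) (f : ℕ → ℕ → ℝ) :
    ∑ p ∈ P, f (rk P p) p = ∑ k ∈ Finset.range P.card, f k (el P k) := by
  refine Finset.sum_nbij' (fun p => rk P p) (fun k => el P k) ?_ ?_ ?_ ?_ ?_
  · intro p hp
    exact Finset.mem_range.2 (rk_lt hp)
  · intro k hk
    exact el_mem (Finset.mem_range.1 hk)
  · intro p hp
    exact el_rk hp
  · intro k hk
    exact rk_el (Finset.mem_range.1 hk)
  · intro p hp
    rw [el_rk hp]

/-- the polygonal path of the sums of `g` over the elements of `P` in increasing order -/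
noncomputable def ppath (P : Finset ℕ) (q : ℝ) (g : ℕ → ℝ) : C(unitInterval, ℝ) :=
  spath P.card q fun k => g (el P k)

theorem ppath_apply (P : Finset ℕ) (q : ℝ) (g : ℕ → ℝ) (t : unitInterval) :
    ppath P q g t = (∑ p ∈ P, g p * cl (P.card * t - rk P p)) / q := by
  unfold ppath
  rw [spath_apply, sum_rk P (fun k p => g p * cl (P.card * t - k))]

/-- the weights of a linear combination of the values -/
noncomputable def wt (n N : ℕ) (θ : ℕ → ℝ) (m : ℕ) : ℝ :=
  ∑ i ∈ Finset.range (N + 1), θ i * cl (n * ((pt N i : unitInterval) : ℝ) - m)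

theorem wt_le (n N : ℕ) (θ : ℕ → ℝ) (m : ℕ) : |wt n N θ m| ≤ ∑ i ∈ Finset.range (N + 1), |θ i| := by
  unfold wt
  refine (Finset.abs_sum_le_sum_abs _ _).trans (Finset.sum_le_sum fun i _ => ?_)
  have := cl_mem (n * ((pt N i : unitInterval) : ℝ) - m)
  rw [abs_mul, abs_of_nonneg this.1]
  exact mul_le_of_le_one_right (abs_nonneg _) this.2

theorem wt_sq {n : ℕ} (hn : 0 < n) (N : ℕ) (θ : ℕ → ℝ) :
    |(∑ m ∈ Finset.range n, wt n N θ m ^ 2) / n - qform N θ| ≤
      (∑ i ∈ Finset.range (N + 1), |θ i|) ^ 2 * (1 / n) :=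
  weight_cov hn N θ

theorem ppath_comb {k : ℕ} (P : Finset ℕ) (q : ℝ) (g : Fin k → ℕ → ℝ) (N : ℕ) (θ : Fin k → ℕ → ℝ) :
    ∑ a, ∑ i ∈ Finset.range (N + 1), θ a i * ppath P q (g a) (pt N i) =
    (∑ p ∈ P, ∑ a, wt P.card N (θ a) (rk P p) * g a p) / q := by
  rw [Finset.sum_comm (s := P), Finset.sum_div]
  apply Finset.sum_congr rfl
  intro a _
  simp_rw [ppath_apply]
  unfold wt
  simp_rw [Finset.sum_mul, Finset.sum_div, Finset.mul_sum]
  rw [Finset.sum_comm]
  apply Finset.sum_congr rfl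
  intro p _
  apply Finset.sum_congr rfl
  intro i _
  ring

/-- the distance of two paths -/
theorem ppath_dist (P : Finset ℕ) {q : ℝ} (hq : 0 < q) (g h : ℕ → ℝ) {E : ℝ} (hE : 0 ≤ E)
    (hgh : ∀ m ≤ P.card, |∑ k ∈ Finset.range m, (g (el P k) - h (el P k))| ≤ E) :
    ‖ppath P q g - ppath P q h‖ ≤ E / q := by
  rw [ContinuousMap.norm_le _ (by positivity)]
  intro t
  rcases Nat.eq_zero_or_pos P.card with h0 | h0
  · have e : P = ∅ := Finset.card_eq_zero.1 h0
    rw [ContinuousMap.sub_apply, ppath_apply, ppath_apply, e]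
    simp
    positivity
  · obtain ⟨m, hm, h1, h2⟩ := exists_block h0 t
    rw [ContinuousMap.sub_apply]
    unfold ppath
    rw [spath_apply, spath_apply, ← sub_div, ← Finset.sum_sub_distrib, Real.norm_eq_abs, abs_div,
      abs_of_pos hq]
    apply div_le_div_of_nonneg_right _ hq.le
    have e : ∀ k ∈ Finset.range P.card, g (el P k) * cl (P.card * t - k) -
        h (el P k) * cl (P.card * t - k) = (g (el P k) - h (el P k)) * cl (P.card * t - k) := by
      intro k _
      ring
    rw [Finset.sum_congr rfl e, cl_sum _ hm h1 h2]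
    have h3 := hgh m hm.le
    have h4 := hgh (m + 1) hm
    rw [Finset.sum_range_succ] at h4
    set A := ∑ k ∈ Finset.range m, (g (el P k) - h (el P k)) with hA
    set B := g (el P m) - h (el P m) with hB
    have e2 : A + B * (P.card * t - m) = (1 - (P.card * t - m)) * A + (P.card * t - m) * (A + B) := by
      ring
    rw [e2]
    refine (abs_add_le _ _).trans ?_
    rw [abs_mul, abs_mul, abs_of_nonneg (by linarith : 0 ≤ 1 - ((P.card : ℝ) * t - m)),
      abs_of_nonneg (by linarith : 0 ≤ (P.card : ℝ) * t - m)]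
    nlinarith

end Pool.Agent.U581.FL
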