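import Pool.Agent.U62.RB.Art
import Pool.Agent.N430.AD.Pos
import Pool.Agent.H386R2.Artin.SumH

/-!
# Lower bounds for the variance of the number of primes with Lenstra's condition
-/

set_option autoImplicit false

namespace Pool.Agent.U581.FL

open Finset Filter Topology Pool.Agent.U62.RB
open Pool.Agent.H730R2.AA (rho)
open Pool.Agent.H386R2.Artin (PP hL sumH card_PP)
open Pool.Agent.N430.AD (rho_lower fac_nn)

theorem dens_le_one' {n : ℕ} (R : (Fin n → ℤ) → Prop) {p : ℕ} (hp : 0 < p) : dens R p ≤ 1 := by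
  classical
  have hp0 : (0 : ℝ) < (p : ℝ) ^ n := by positivity
  unfold Pool.Agent.U62.RB.dens
  rw [div_le_one hp0]
  have h1 : ((Fintype.piFinset fun _ : Fin n => range p).filter fun t => R fun l => (t l : ℤ)).card ≤
      p ^ n := by
    refine (Finset.card_filter_le _ _).trans ?_
    rw [Fintype.card_piFinset]
    simp
  have h2 : ((((Fintype.piFinset fun _ : Fin n => range p).filter fun t => R fun l => (t l : ℤ)).card :
      ℕ) : ℝ) ≤ ((p ^ n : ℕ) : ℝ) := by exact_mod_cast h1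
  push_cast at h2
  convert h2 using 3

theorem var_lower (r k : ℕ) (hr : 1 ≤ r) (hk : k ≠ 0) {κ : ℝ} (hκ : 0 < κ) : ∃ δ : ℝ, 0 < δ ∧
    ∃ y₀ : ℕ, ∀ y : ℕ, y₀ ≤ y → ∀ T : Finset ℕ, (∀ q ∈ T, q.Prime ∧ q ≤ y) →
    κ * Nat.primeCounting y ≤ ((T.filter fun q => 2 ^ (k.factorization 2 + 1) ∣ q - 1).card : ℝ) →
    δ * T.card ≤ ∑ q ∈ T, dens (InS (r := r) k q) q * (1 - dens (InS (r := r) k q) q) := by
  classical
  obtain ⟨C, hC, hH⟩ := sumH
  obtain ⟨L, hL1⟩ : ∃ L : ℕ, 4 * C / κ < L := exists_nat_gt _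
  have hL0 : (0 : ℝ) < L := lt_trans (by positivity) hL1
  have hL2 : 1 ≤ L := by exact_mod_cast hL0
  obtain ⟨x₁, hx₁⟩ := hH L hL2
  set c : ℝ := ∏ q ∈ PP L, (1 - 1 / (q : ℝ)) with hc
  have hc0 : 0 < c := Finset.prod_pos fun q hq =>
    (fac_nn (by unfold PP at hq; exact (mem_filter.1 hq).2)).1
  set m : ℕ := 2 ^ (k.factorization 2 + 1) with hm
  have hm0 : (0 : ℝ) < m := by rw [hm]; positivity
  obtain ⟨w, hw⟩ : ∃ w : ℝ, w = (1 / 2 : ℝ) ^ r * (c / 4) * (1 / (2 * (m : ℝ))) ^ r := ⟨_, rfl⟩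
  have hw0 : 0 < w := by rw [hw]; positivity
  refine ⟨w * (κ / 2), by positivity, x₁, fun y hy T hT hTm => ?_⟩
  set T' := T.filter fun q => m ∣ q - 1 with hT'
  set B := (PP y).filter (fun p => 1 / 2 < hL L (p - 1)) with hB
  have hBc : (B.card : ℝ) ≤ κ / 2 * Nat.primeCounting y := by
    have h1 : (B.card : ℝ) * (1 / 2) ≤ ∑ p ∈ B, hL L (p - 1) := by
      rw [← nsmul_eq_mul, ← Finset.sum_const]
      exact Finset.sum_le_sum fun p hp => (mem_filter.1 hp).2.le
    have h2 : ∑ p ∈ B, hL L (p - 1) ≤ ∑ p ∈ PP y, hL L (p - 1) :=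
      Finset.sum_le_sum_of_subset_of_nonneg (Finset.filter_subset _ _)
        fun p _ _ => Pool.Agent.H771R4.SE.hL_nn L p
    have h3 := hx₁ y hy
    have h4 : C / L ≤ κ / 4 := by
      rw [div_lt_iff₀ hκ] at hL1
      rw [div_le_div_iff₀ hL0 (by norm_num)]
      linarith
    have h5 : (0 : ℝ) ≤ Nat.primeCounting y := Nat.cast_nonneg _
    have h6 : C / L * (Nat.primeCounting y : ℝ) ≤ κ / 4 * Nat.primeCounting y :=
      mul_le_mul_of_nonneg_right h4 h5
    linarith
  have hTc : (T.card : ℝ) ≤ Nat.primeCounting y := by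
    rw [← card_PP]
    have : T ⊆ PP y := by
      intro q hq
      unfold PP
      rw [mem_filter, mem_range]
      exact ⟨by have := (hT q hq).2; omega, (hT q hq).1⟩
    exact_mod_cast Finset.card_le_card this
  have hdiff : κ / 2 * Nat.primeCounting y ≤ ((T' \ B).card : ℝ) := by
    have h1 : T'.card ≤ (T' \ B).card + B.card := by
      have := Finset.card_le_card_sdiff_add_card (s := T') (t := B)
      omega
    have h2 : (T'.card : ℝ) ≤ (T' \ B).card + B.card := by exact_mod_cast h1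
    linarith
  have hterm : ∀ q ∈ T' \ B, w ≤ dens (InS (r := r) k q) q * (1 - dens (InS (r := r) k q) q) := by
    intro q hq
    rw [Finset.mem_sdiff, hT', mem_filter] at hq
    obtain ⟨⟨hqT, hqm⟩, hqB⟩ := hq
    have hq1 := (hT q hqT).1
    have hq2 := (hT q hqT).2
    have hhL : hL L (q - 1) ≤ 1 / 2 := by
      by_contra hcon
      push Not at hcon
      apply hqB
      rw [hB, mem_filter]
      refine ⟨?_, hcon⟩
      unfold PP
      rw [mem_filter, mem_range]
      exact ⟨by omega, hq1⟩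
    have h8 := rho_lower hq1 L
    rw [← hc] at h8
    have h9 : c / 2 ≤ rho q := by nlinarith
    have hq0 : (0 : ℝ) < q := by exact_mod_cast hq1.pos
    have h10 : c / 4 ≤ (Nat.totient (q - 1) : ℝ) / q := by
      have h11 : rho q = (Nat.totient (q - 1) : ℝ) / ((q - 1 : ℕ) : ℝ) := rfl
      have hq3 : (0 : ℝ) < ((q - 1 : ℕ) : ℝ) := by
        have := hq1.two_le
        exact_mod_cast (by omega : 0 < q - 1)
      rw [h11, le_div_iff₀ hq3] at h9
      rw [le_div_iff₀ hq0]
      have h12 : (q : ℝ) ≤ 2 * ((q - 1 : ℕ) : ℝ) := by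
        have := hq1.two_le
        exact_mod_cast (by omega : q ≤ 2 * (q - 1))
      nlinarith
    have h1 := dens_lower (r := r) k q hq1 hr
    have h2 := dens_upper (r := r) k q m hk hm hq1 hqm
    have h3 : (1 / 2 : ℝ) ^ r * (c / 4) ≤ dens (InS (r := r) k q) q := by
      refine le_trans ?_ h1
      gcongr
    rw [hw]
    exact mul_le_mul h3 h2 (by positivity) (dens_nonneg _ _)
  calc w * (κ / 2) * T.card ≤ w * (κ / 2) * Nat.primeCounting y :=
        mul_le_mul_of_nonneg_left hTc (by positivity)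
    _ = w * (κ / 2 * Nat.primeCounting y) := by ring
    _ ≤ w * ((T' \ B).card : ℝ) := mul_le_mul_of_nonneg_left hdiff hw0.le
    _ = ∑ _q ∈ T' \ B, w := by rw [Finset.sum_const, nsmul_eq_mul, mul_comm]
    _ ≤ ∑ q ∈ T' \ B, dens (InS (r := r) k q) q * (1 - dens (InS (r := r) k q) q) :=
        Finset.sum_le_sum hterm
    _ ≤ ∑ q ∈ T, dens (InS (r := r) k q) q * (1 - dens (InS (r := r) k q) q) := by
        refine Finset.sum_le_sum_of_subset_of_nonneg
          (Finset.sdiff_subset.trans (Finset.filter_subset _ _)) fun q hq _ => ?_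
        have := dens_le_one' (InS (r := r) k q) (hT q hq).1.pos
        exact mul_nonneg (dens_nonneg _ _) (by linarith)

end Pool.Agent.U581.FL
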