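import Pool.Agent.U581.FL.Box
import Pool.Agent.U581.FL.Four
import Pool.Agent.U581.FL.Idx
import Pool.Agent.X280.HG.Law

/-!
# The characteristic functions of the paths of sums of local data over primes
-/

set_option autoImplicit false
set_option linter.unusedSectionVars false

namespace Pool.Agent.U581.FL

open Finset Filter Topology Pool.Agent.Y722.HS Pool.Agent.X280.BP Pool.Agent.X280.UC
  Pool.Agent.X280.HG MeasureTheory Pool.Agent.U581.BM

variable {ι : Type} [Fintype ι] [DecidableEq ι]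

/-- the mean over the residues, `0` if the modulus is `0` -/
noncomputable def EMt (p : ℕ) (f : (ι → ZMod p) → ℝ) : ℝ :=
  if h : p = 0 then 0 else (haveI : NeZero p := ⟨h⟩; EM p f)

theorem EMt_eq (p : ℕ) [NeZero p] (f : (ι → ZMod p) → ℝ) : EMt p f = EM p f := by
  unfold EMt
  rw [dif_neg (NeZero.ne p)]

/-- data -/
structure Mdl (ι : Type) (k : ℕ) where
  P : Finset ℕ
  y : ℕ
  H : ℕ
  Z : Fin k → ∀ p : ℕ, (ι → ZMod p) → ℝ
  A : ℝ

/-- admissible data -/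
structure Mdl.Ok {k : ℕ} (D : Mdl ι k) (C : ℝ) (K : ℕ) : Prop where
  prime : ∀ p ∈ D.P, p.Prime ∧ p ≤ D.y
  large : K ≤ D.P.card
  high : D.y ^ K ≤ D.H
  A0 : 0 ≤ D.A
  bound : ∀ a, ∀ p ∈ D.P, ∀ x, |D.Z a p x| ≤ D.A
  Asq : D.A ^ 2 * (K + 1) ≤ D.P.card
  mean : ∀ a, ∀ p ∈ D.P, EMt p (D.Z a p) = 0
  cov : ∀ a b, ∑ p ∈ D.P, |EMt p (fun x => D.Z a p x * D.Z b p x) - if a = b then 1 else 0| ≤
    D.P.card / (K + 1)
  four : ∀ a, ∀ p ∈ D.P, EMt p (fun x => D.Z a p x ^ 4) ≤ C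

theorem Mdl.Ok.mono {k : ℕ} {D : Mdl ι k} {C : ℝ} {K L : ℕ} (h : D.Ok C L) (hKL : K ≤ L) :
    D.Ok C K := by
  have h1 : (K : ℝ) ≤ L := by exact_mod_cast hKL
  refine ⟨h.prime, hKL.trans h.large, ?_, h.A0, h.bound, ?_, h.mean, fun a b => (h.cov a b).trans ?_,
    h.four⟩
  · rcases Nat.eq_zero_or_pos D.y with h0 | h0
    · rcases Nat.eq_zero_or_pos K with h2 | h2
      · rcases Nat.eq_zero_or_pos L with h3 | h3
        · have := h.high
          rw [h3] at this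
          rw [h2]
          exact this
        · have h4 : D.P.Nonempty := Finset.card_pos.1 (lt_of_lt_of_le h3 h.large)
          obtain ⟨p, hp⟩ := h4
          have := (h.prime p hp).1.pos
          have := (h.prime p hp).2
          omega
      · rw [h0, zero_pow (by omega)]
        exact Nat.zero_le _
    · exact (Nat.pow_le_pow_right h0 hKL).trans h.high
  · refine le_trans ?_ h.Asq
    exact mul_le_mul_of_nonneg_left (by linarith) (sq_nonneg _)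
  · exact div_le_div_of_nonneg_left (Nat.cast_nonneg _) (by positivity) (by linarith)

theorem Mdl.Ok.card_le {k : ℕ} {D : Mdl ι k} {C : ℝ} {K : ℕ} (h : D.Ok C K) : D.P.card ≤ D.y := by
  have h1 : D.P ⊆ Finset.Icc 1 D.y := by
    intro p hp
    rw [Finset.mem_Icc]
    exact ⟨(h.prime p hp).1.pos, (h.prime p hp).2⟩
  have h2 := Finset.card_le_card h1
  rwa [Nat.card_Icc, Nat.add_sub_cancel] at h2

/-- the vector of the paths -/
noncomputable def Mdl.X {k : ℕ} (D : Mdl ι k) (c : ι → ℤ) (a : Fin k) : C(unitInterval, ℝ) :=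
  ppath D.P (√D.P.card) fun p => D.Z a p (red p c)

/-- the local function of a linear combination -/
noncomputable def Mdl.G {k : ℕ} (D : Mdl ι k) (N : ℕ) (θ : Fin k → ℕ → ℝ) (p : ℕ)
    (x : ι → ZMod p) : ℝ :=
  ∑ a, wt D.P.card N (θ a) (rk D.P p) * D.Z a p x

theorem Mdl.comb {k : ℕ} (D : Mdl ι k) (N : ℕ) (θ : Fin k → ℕ → ℝ) (c : ι → ℤ) :
    ∑ a, ∑ i ∈ Finset.range (N + 1), θ a i * D.X c a (pt N i) = SP (D.G N θ) D.P c / √D.P.card := by
  unfold Mdl.X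
  rw [ppath_comb]
  rfl

/-- the sum of the absolute values of the coefficients -/
noncomputable def TH {k : ℕ} (N : ℕ) (θ : Fin k → ℕ → ℝ) : ℝ :=
  ∑ a, ∑ i ∈ Finset.range (N + 1), |θ a i|

theorem TH_nn {k : ℕ} (N : ℕ) (θ : Fin k → ℕ → ℝ) : 0 ≤ TH N θ :=
  Finset.sum_nonneg fun _ _ => Finset.sum_nonneg fun _ _ => abs_nonneg _

theorem TH_one {k : ℕ} (N : ℕ) (θ : Fin k → ℕ → ℝ) (a : Fin k) :
    ∑ i ∈ Finset.range (N + 1), |θ a i| ≤ TH N θ :=
  Finset.single_le_sum (f := fun a => ∑ i ∈ Finset.range (N + 1), |θ a i|)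
    (fun _ _ => Finset.sum_nonneg fun _ _ => abs_nonneg _) (Finset.mem_univ a)

theorem wt_TH {k : ℕ} (n N : ℕ) (θ : Fin k → ℕ → ℝ) (m : ℕ) : ∑ a, |wt n N (θ a) m| ≤ TH N θ :=
  Finset.sum_le_sum fun a _ => wt_le n N (θ a) m

theorem wt_TH1 {k : ℕ} (n N : ℕ) (θ : Fin k → ℕ → ℝ) (m : ℕ) (a : Fin k) :
    |wt n N (θ a) m| ≤ TH N θ := (wt_le n N (θ a) m).trans (TH_one N θ a)

theorem Mdl.G_bound {k : ℕ} {D : Mdl ι k} {C : ℝ} {K : ℕ} (h : D.Ok C K) (N : ℕ)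
    (θ : Fin k → ℕ → ℝ) {p : ℕ} (hp : p ∈ D.P) (x : ι → ZMod p) :
    |D.G N θ p x| ≤ D.A * ∑ a, |wt D.P.card N (θ a) (rk D.P p)| := by
  unfold Mdl.G
  rw [Finset.mul_sum]
  refine (Finset.abs_sum_le_sum_abs _ _).trans (Finset.sum_le_sum fun a _ => ?_)
  rw [abs_mul, mul_comm D.A]
  exact mul_le_mul_of_nonneg_left (h.bound a p hp x) (abs_nonneg _)

theorem EM_sumF {κ : Type*} (s : Finset κ) (p : ℕ) [NeZero p] (f : κ → (ι → ZMod p) → ℝ) :
    EM p (fun x => ∑ i ∈ s, f i x) = ∑ i ∈ s, EM p (f i) := by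
  unfold EM
  rw [Finset.sum_comm, Finset.sum_div]

theorem EM_mulF (p : ℕ) [NeZero p] (t : ℝ) (f : (ι → ZMod p) → ℝ) :
    EM p (fun x => t * f x) = t * EM p f := by
  unfold EM
  rw [← Finset.mul_sum]
  ring

theorem Mdl.G_mean {k : ℕ} {D : Mdl ι k} {C : ℝ} {K : ℕ} (h : D.Ok C K) (N : ℕ)
    (θ : Fin k → ℕ → ℝ) {p : ℕ} (hp : p ∈ D.P) [NeZero p] : EM p (D.G N θ p) = 0 := by
  have e : D.G N θ p = fun x => ∑ a, wt D.P.card N (θ a) (rk D.P p) * D.Z a p x := rfl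
  rw [e, EM_sumF]
  refine Finset.sum_eq_zero fun a _ => ?_
  have := h.mean a p hp
  rw [EMt_eq] at this
  rw [EM_mulF, this, mul_zero]

theorem Mdl.G_vv {k : ℕ} {D : Mdl ι k} {C : ℝ} {K : ℕ} (h : D.Ok C K) (N : ℕ)
    (θ : Fin k → ℕ → ℝ) {p : ℕ} (hp : p ∈ D.P) : vv (D.G N θ) p =
      ∑ a, ∑ b, wt D.P.card N (θ a) (rk D.P p) * wt D.P.card N (θ b) (rk D.P p) *
        EMt p (fun x => D.Z a p x * D.Z b p x) := by
  have : NeZero p := ⟨(h.prime p hp).1.ne_zero⟩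
  rw [vv_eq]
  have e : (fun x => D.G N θ p x ^ 2) = fun x => ∑ a, ∑ b, wt D.P.card N (θ a) (rk D.P p) *
      wt D.P.card N (θ b) (rk D.P p) * (D.Z a p x * D.Z b p x) := by
    funext x
    unfold Mdl.G
    rw [sq, Finset.sum_mul]
    refine Finset.sum_congr rfl fun a _ => ?_
    rw [Finset.mul_sum]
    refine Finset.sum_congr rfl fun b _ => ?_
    ring
  rw [e, EM_sumF]
  refine Finset.sum_congr rfl fun a _ => ?_
  rw [EM_sumF]
  refine Finset.sum_congr rfl fun b _ => ?_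
  rw [EM_mulF, EMt_eq]

/-- the squares of the weights -/
theorem Mdl.wt_sum {k : ℕ} {D : Mdl ι k} (hn : 0 < D.P.card) (N : ℕ) (θ : Fin k → ℕ → ℝ) :
    |∑ p ∈ D.P, ∑ a, wt D.P.card N (θ a) (rk D.P p) ^ 2 - D.P.card * ∑ a, qform N (θ a)| ≤
      k * TH N θ ^ 2 := by
  have hn0 : (0 : ℝ) < D.P.card := by exact_mod_cast hn
  rw [Finset.sum_comm, Finset.mul_sum, ← Finset.sum_sub_distrib]
  have e : (k : ℝ) * TH N θ ^ 2 = ∑ _a : Fin k, TH N θ ^ 2 := by simp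
  rw [e]
  refine (Finset.abs_sum_le_sum_abs _ _).trans (Finset.sum_le_sum fun a _ => ?_)
  rw [sum_rk D.P (fun m _ => wt D.P.card N (θ a) m ^ 2)]
  have h1 := wt_sq hn N (θ a)
  have h2 : (∑ i ∈ Finset.range (N + 1), |θ a i|) ^ 2 ≤ TH N θ ^ 2 :=
    pow_le_pow_left₀ (Finset.sum_nonneg fun _ _ => abs_nonneg _) (TH_one N θ a) 2
  have e2 : ∑ m ∈ Finset.range D.P.card, wt D.P.card N (θ a) m ^ 2 - D.P.card * qform N (θ a) =
      D.P.card * ((∑ m ∈ Finset.range D.P.card, wt D.P.card N (θ a) m ^ 2) / D.P.card -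
        qform N (θ a)) := by
    field_simp
  rw [e2, abs_mul, abs_of_pos hn0]
  calc (D.P.card : ℝ) * |(∑ m ∈ Finset.range D.P.card, wt D.P.card N (θ a) m ^ 2) / D.P.card -
        qform N (θ a)| ≤ D.P.card * ((∑ i ∈ Finset.range (N + 1), |θ a i|) ^ 2 * (1 / D.P.card)) :=
        mul_le_mul_of_nonneg_left h1 hn0.le
    _ = (∑ i ∈ Finset.range (N + 1), |θ a i|) ^ 2 := by field_simp
    _ ≤ TH N θ ^ 2 := h2

theorem Mdl.VP_near {k : ℕ} {D : Mdl ι k} {C : ℝ} {K : ℕ} (h : D.Ok C K) (hn : 0 < D.P.card) (N : ℕ)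
    (θ : Fin k → ℕ → ℝ) : |VP (D.G N θ) D.P - D.P.card * ∑ a, qform N (θ a)| ≤
      k ^ 2 * TH N θ ^ 2 * (D.P.card / (K + 1)) + k * TH N θ ^ 2 := by
  have h1 : |VP (D.G N θ) D.P - ∑ p ∈ D.P, ∑ a, wt D.P.card N (θ a) (rk D.P p) ^ 2| ≤
      k ^ 2 * TH N θ ^ 2 * (D.P.card / (K + 1)) := by
    have e1 : VP (D.G N θ) D.P - ∑ p ∈ D.P, ∑ a, wt D.P.card N (θ a) (rk D.P p) ^ 2 =
        ∑ a, ∑ b, ∑ p ∈ D.P, wt D.P.card N (θ a) (rk D.P p) * wt D.P.card N (θ b) (rk D.P p) *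
          (EMt p (fun x => D.Z a p x * D.Z b p x) - if a = b then 1 else 0) := by
      unfold VP
      rw [← Finset.sum_sub_distrib]
      have e2 : ∀ p ∈ D.P, vv (D.G N θ) p - ∑ a, wt D.P.card N (θ a) (rk D.P p) ^ 2 =
          ∑ a, ∑ b, wt D.P.card N (θ a) (rk D.P p) * wt D.P.card N (θ b) (rk D.P p) *
          (EMt p (fun x => D.Z a p x * D.Z b p x) - if a = b then 1 else 0) := by
        intro p hp
        rw [Mdl.G_vv h N θ hp, ← Finset.sum_sub_distrib]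
        refine Finset.sum_congr rfl fun a _ => ?_
        have e3 : wt D.P.card N (θ a) (rk D.P p) ^ 2 = ∑ b, wt D.P.card N (θ a) (rk D.P p) *
            wt D.P.card N (θ b) (rk D.P p) * (if a = b then 1 else 0) := by
          simp only [mul_ite, mul_one, mul_zero, Finset.sum_ite_eq, Finset.mem_univ, if_true]
          ring
        rw [e3, ← Finset.sum_sub_distrib]
        refine Finset.sum_congr rfl fun b _ => ?_
        ring
      rw [Finset.sum_congr rfl e2, Finset.sum_comm]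
      refine Finset.sum_congr rfl fun a _ => ?_
      rw [Finset.sum_comm]
    rw [e1]
    have e4 : (k : ℝ) ^ 2 * TH N θ ^ 2 * (D.P.card / (K + 1)) =
        ∑ _a : Fin k, ∑ _b : Fin k, TH N θ ^ 2 * (D.P.card / (K + 1)) := by
      simp
      ring
    rw [e4]
    refine (Finset.abs_sum_le_sum_abs _ _).trans (Finset.sum_le_sum fun a _ => ?_)
    refine (Finset.abs_sum_le_sum_abs _ _).trans (Finset.sum_le_sum fun b _ => ?_)
    refine le_trans ?_ (mul_le_mul_of_nonneg_left (h.cov a b) (sq_nonneg (TH N θ)))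
    rw [Finset.mul_sum]
    refine (Finset.abs_sum_le_sum_abs _ _).trans (Finset.sum_le_sum fun p _ => ?_)
    rw [abs_mul, abs_mul]
    refine mul_le_mul_of_nonneg_right ?_ (abs_nonneg _)
    rw [sq]
    exact mul_le_mul (wt_TH1 _ N θ _ a) (wt_TH1 _ N θ _ b) (abs_nonneg _) (TH_nn N θ)
  have h2 := D.wt_sum hn N θ
  have e : VP (D.G N θ) D.P - D.P.card * ∑ a, qform N (θ a) =
      (VP (D.G N θ) D.P - ∑ p ∈ D.P, ∑ a, wt D.P.card N (θ a) (rk D.P p) ^ 2) +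
      (∑ p ∈ D.P, ∑ a, wt D.P.card N (θ a) (rk D.P p) ^ 2 - D.P.card * ∑ a, qform N (θ a)) := by ring
  rw [e]
  exact (abs_add_le _ _).trans (add_le_add h1 h2)

end Pool.Agent.U581.FL
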