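import Pool.Agent.U581.FL.Bounded

/-!
# The invariance principle with a variance profile: characteristic functions and tightness
-/

set_option autoImplicit false
set_option linter.unusedSectionVars false

namespace Pool.Agent.U581.FL

open Finset Filter Topology Pool.Agent.Y722.HS Pool.Agent.X280.BP Pool.Agent.X280.UC
  Pool.Agent.X280.HG MeasureTheory Pool.Agent.U581.BM ProbabilityTheory
open scoped BoundedContinuousFunction NNReal

variable {ι : Type} [Fintype ι] [DecidableEq ι]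

/-- data -/
structure Pd (ι : Type) where
  P : Finset ℕ
  y : ℕ
  H : ℕ
  Z : ∀ p : ℕ, (ι → ZMod p) → ℝ

/-- the variance -/
noncomputable def Pd.V (D : Pd ι) : ℝ := VP D.Z D.P

/-- admissible data -/
structure Pd.Ok (D : Pd ι) (b δ : ℝ) (K : ℕ) : Prop where
  prime : ∀ p ∈ D.P, p.Prime ∧ p ≤ D.y
  large : K ≤ D.P.card
  high : D.y ^ K ≤ D.H
  b0 : 0 < b
  δ0 : 0 < δ
  bound : ∀ p ∈ D.P, ∀ x, |D.Z p x| ≤ b
  mean : ∀ p ∈ D.P, EMt p (D.Z p) = 0
  var : δ * D.P.card ≤ D.V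

/-- the data without functions -/
def Pd.m0 (D : Pd ι) : Mdl ι 0 := ⟨D.P, D.y, D.H, fun a => a.elim0, 0⟩

theorem Pd.m0_ok {D : Pd ι} {b δ : ℝ} {K : ℕ} (h : D.Ok b δ K) : D.m0.Ok 0 K :=
  ⟨h.prime, h.large, h.high, le_rfl, fun a => a.elim0, by
    change (0 : ℝ) ^ 2 * (K + 1) ≤ _
    rw [zero_pow (by norm_num), zero_mul]
    exact Nat.cast_nonneg _, fun a => a.elim0, fun a => a.elim0, fun a => a.elim0⟩

theorem Pd.Ok.mono {D : Pd ι} {b δ : ℝ} {K L : ℕ} (h : D.Ok b δ L) (hKL : K ≤ L) : D.Ok b δ K := by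
  have h0 := (Pd.m0_ok h).mono hKL
  exact ⟨h.prime, h0.large, h0.high, h.b0, h.δ0, h.bound, h.mean, h.var⟩

theorem Pd.Ok.card_le {D : Pd ι} {b δ : ℝ} {K : ℕ} (h : D.Ok b δ K) : D.P.card ≤ D.y :=
  (Pd.m0_ok h).card_le

/-- the path -/
noncomputable def Pd.X (D : Pd ι) (c : ι → ℤ) : C(unitInterval, ℝ) :=
  ppath D.P (√D.V) fun p => D.Z p (red p c)

/-- the profile of the variance -/
noncomputable def Pd.tau (D : Pd ι) : C(unitInterval, ℝ) := ppath D.P D.V fun p => vv D.Z p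

theorem Pd.vv_le {D : Pd ι} {b δ : ℝ} {K : ℕ} (h : D.Ok b δ K) {p : ℕ} (hp : p ∈ D.P) :
    vv D.Z p ≤ b ^ 2 := by
  have : NeZero p := ⟨(h.prime p hp).1.ne_zero⟩
  rw [vv_eq]
  refine EM_le_of_le p _ _ fun x => ?_
  rw [← sq_abs]
  exact pow_le_pow_left₀ (abs_nonneg _) (h.bound p hp x) 2

theorem Pd.V_pos {D : Pd ι} {b δ : ℝ} {K : ℕ} (h : D.Ok b δ K) (hK : 1 ≤ K) : 0 < D.V := by
  have h1 : (0 : ℝ) < D.P.card := by exact_mod_cast (lt_of_lt_of_le hK h.large)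
  exact lt_of_lt_of_le (mul_pos h.δ0 h1) h.var

/-- the fourth moments of weighted sums over blocks -/
theorem Pd.four_block {D : Pd ι} {b δ : ℝ} {K : ℕ} (h : D.Ok b δ K) (hK : 9 ≤ K)
    (hK2 : 2 ^ Fintype.card ι ≤ K) (ω : ℕ → ℝ) {u v : ℕ} (hv : v ≤ D.P.card) :
    EB D.H (fun c => (∑ i ∈ Ico u v, ω i * D.Z (el D.P i) (red (el D.P i) c)) ^ 4) ≤
      5 * b ^ 4 * (∑ i ∈ Ico u v, ω i ^ 2) ^ 2 := by
  set I := D.P.filter (fun p => u ≤ rk D.P p ∧ rk D.P p < v) with hI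
  have hIP : I ⊆ D.P := Finset.filter_subset _ _
  have hy1 : K ≤ D.y := h.large.trans h.card_le
  have hb := h.b0
  set Z' : ∀ p : ℕ, (ι → ZMod p) → ℝ := fun p x => ω (rk D.P p) * D.Z p x with hZ'
  have e1 : ∀ c : ι → ℤ, ∑ i ∈ Ico u v, ω i * D.Z (el D.P i) (red (el D.P i) c) =
      ∑ p ∈ I, Z' p (red p c) := by
    intro c
    rw [hI, hZ', ← sum_rk_Ico D.P hv (fun k p => ω k * D.Z p (red p c))]
  have e2 : ∀ f : ℕ → ℝ, ∑ i ∈ Ico u v, f i = ∑ p ∈ I, f (rk D.P p) := by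
    intro f
    rw [hI, ← sum_rk_Ico D.P hv (fun k _ => f k)]
  simp only [e1]
  rw [e2 (fun i => ω i ^ 2)]
  set V := ∑ p ∈ I, ω (rk D.P p) ^ 2 with hV
  have hV0 : 0 ≤ V := Finset.sum_nonneg fun _ _ => sq_nonneg _
  have hbd : ∀ p ∈ I, ∀ x, |Z' p x| ≤ |ω (rk D.P p)| * b := by
    intro p hp x
    rw [hZ']
    dsimp only
    rw [abs_mul]
    exact mul_le_mul_of_nonneg_left (h.bound p (hIP hp) x) (abs_nonneg _)
  have h1 := mom4 I D.y (fun p hp => h.prime p (hIP hp)) Z' (fun p => |ω (rk D.P p)| * b)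
    (fun p => ω (rk D.P p) ^ 2 * b ^ 2) (fun p => ω (rk D.P p) ^ 4 * b ^ 4) hbd
    (fun p hp _ => by
      have := h.mean p (hIP hp)
      rw [EMt_eq] at this
      rw [hZ']
      dsimp only
      rw [EM_mulF, this, mul_zero])
    (fun p hp _ => EM_le_of_le p _ _ fun x => by
      have h1 := pow_le_pow_left₀ (abs_nonneg _) (hbd p hp x) 2
      have e : (|ω (rk D.P p)| * b) ^ 2 = ω (rk D.P p) ^ 2 * b ^ 2 := by rw [mul_pow, sq_abs]
      rw [sq_abs, e] at h1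
      exact h1)
    (fun p hp _ => EM_le_of_le p _ _ fun x => by
      have h1 := pow_le_pow_left₀ (abs_nonneg _) (hbd p hp x) 4
      have e : (|ω (rk D.P p)| * b) ^ 4 = ω (rk D.P p) ^ 4 * b ^ 4 := by
        rw [mul_pow, (show Even 4 by decide).pow_abs]
      rw [(show Even 4 by decide).pow_abs, e] at h1
      exact h1)
    D.H (by
      have h5 : D.y ^ 4 ≤ D.y ^ K := Nat.pow_le_pow_right (by omega) (by omega)
      have := h.high
      omega)
  have h2 : 2 ^ Fintype.card ι * ((D.y : ℝ) ^ 4 / (2 * D.H + 1)) * (∑ p ∈ I, |ω (rk D.P p)| * b) ^ 4 ≤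
      (∑ p ∈ I, (|ω (rk D.P p)| * b) ^ 2) ^ 2 / D.y ^ 2 :=
    Mdl.err (Pd.m0_ok h) hK hK2 hIP (fun p => |ω (rk D.P p)| * b)
  have h3 : ∑ p ∈ I, ω (rk D.P p) ^ 4 ≤ V ^ 2 := by
    calc ∑ p ∈ I, ω (rk D.P p) ^ 4 = ∑ p ∈ I, ω (rk D.P p) ^ 2 * ω (rk D.P p) ^ 2 := by
          refine Finset.sum_congr rfl fun p _ => ?_
          ring
      _ ≤ ∑ p ∈ I, ω (rk D.P p) ^ 2 * V := by
          refine Finset.sum_le_sum fun p hp => ?_
          exact mul_le_mul_of_nonneg_left (Finset.single_le_sum (f := fun p => ω (rk D.P p) ^ 2)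
            (fun _ _ => sq_nonneg _) hp) (sq_nonneg _)
      _ = V ^ 2 := by rw [← Finset.sum_mul, sq]
  have h4 : (∑ p ∈ I, (|ω (rk D.P p)| * b) ^ 2) ^ 2 / (D.y : ℝ) ^ 2 ≤ b ^ 4 * V ^ 2 := by
    have e : ∑ p ∈ I, (|ω (rk D.P p)| * b) ^ 2 = V * b ^ 2 := by
      rw [hV, Finset.sum_mul]
      refine Finset.sum_congr rfl fun p _ => ?_
      rw [mul_pow, sq_abs]
    have hyr : (1 : ℝ) ≤ D.y := by exact_mod_cast (by omega : 1 ≤ D.y)
    rw [e]
    refine (div_le_self (sq_nonneg _) (one_le_pow₀ hyr)).trans (le_of_eq ?_)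
    ring
  have h5 : ∑ p ∈ I, ω (rk D.P p) ^ 2 * b ^ 2 = V * b ^ 2 := by rw [hV, Finset.sum_mul]
  have h6 : ∑ p ∈ I, ω (rk D.P p) ^ 4 * b ^ 4 ≤ V ^ 2 * b ^ 4 := by
    rw [← Finset.sum_mul]
    exact mul_le_mul_of_nonneg_right h3 (by positivity)
  rw [h5] at h1
  have h7 : 3 * (V * b ^ 2) ^ 2 = 3 * b ^ 4 * V ^ 2 := by ring
  nlinarith

/-- the maximal inequality for weighted sums -/
theorem Pd.max_block {D : Pd ι} {b δ : ℝ} {K : ℕ} (h : D.Ok b δ K) (hK : 9 ≤ K)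
    (hK2 : 2 ^ Fintype.card ι ≤ K) (ω : ℕ → ℝ) {r : ℝ} (hr : 0 < r) :
    (nu D.H).real {c : ι → ℤ | ∃ m ≤ D.P.card,
      r < |∑ i ∈ range m, ω i * D.Z (el D.P i) (red (el D.P i) c)|} ≤
      2916 * (5 * b ^ 4) * (∑ i ∈ range D.P.card, ω i ^ 2) ^ 2 / r ^ 4 := by
  obtain ⟨M, hM1, hM2⟩ := chain D.H (fun i c => ω i * D.Z (el D.P i) (red (el D.P i) c))
    (fun i => ω i ^ 2) (fun i => sq_nonneg _) (5 * b ^ 4) (by positivity) D.P.card
    (fun u v _ hv => Pd.four_block h hK hK2 ω hv) D.P.card 0 D.P.card (Nat.zero_le _) le_rfl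
    (by omega)
  have hM0 : ∀ c, 0 ≤ M c := fun c => by
    have := hM2 c 0 le_rfl (Nat.zero_le _)
    simpa using this
  refine (nu_markov D.H _ M (pow_pos hr 4) hM0 ?_).trans ?_
  · rintro c ⟨m, hm, hlt⟩
    have h1 := hM2 c m (Nat.zero_le _) hm
    rw [← Finset.range_eq_Ico] at h1
    have h2 := pow_le_pow_left₀ hr.le hlt.le 4
    rw [(show Even 4 by decide).pow_abs] at h2
    exact h2.trans h1
  · rw [← Finset.range_eq_Ico] at hM1
    exact div_le_div_of_nonneg_right hM1 (by positivity)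

/-- **tightness** -/
theorem tight_prof {b δ : ℝ} (D : ℕ → Pd ι) (hD : ∀ K, ∀ᶠ j in atTop, (D j).Ok b δ K) (hb : 0 < b)
    (hδ : 0 < δ) {ε : ℝ} (hε : 0 < ε) {η : ℝ} (hη : 0 < η) : ∃ N0 : ℕ, ∀ N ≥ N0, ∀ᶠ j in atTop,
      (nu (D j).H).real {c : ι → ℤ | ε < ‖(D j).X c - interp N ((D j).X c)‖} ≤ η := by
  have hsδ : 0 < √δ := Real.sqrt_pos.2 hδ
  obtain ⟨lam, hlamd⟩ : ∃ lam, lam = ε * √δ / 4 := ⟨_, rfl⟩
  have hlam : 0 < lam := by rw [hlamd]; positivity
  obtain ⟨N1, hN1⟩ := exists_nat_gt (2916 * (5 * b ^ 4) / lam ^ 4 / η)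
  refine ⟨max N1 1, fun N hN => ?_⟩
  have hN0 : 0 < N := lt_of_lt_of_le one_pos ((le_max_right _ _).trans hN)
  have hNr : (0 : ℝ) < N := by exact_mod_cast hN0
  have hKN : 2916 * (5 * b ^ 4) / lam ^ 4 / N ≤ η := by
    have h1 : (N1 : ℝ) ≤ N := by exact_mod_cast (le_max_left _ _).trans hN
    rw [div_lt_iff₀ hη] at hN1
    rw [div_le_iff₀ hNr]
    nlinarith
  obtain ⟨K1, hK1⟩ := exists_nat_ge (b ^ 2 / lam ^ 2)
  obtain ⟨d2, hd2⟩ : ∃ d2 : ℕ, d2 = 2 ^ Fintype.card ι := ⟨_, rfl⟩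
  filter_upwards [hD (K1 + 9 + d2)] with j hj
  obtain ⟨K, hK⟩ : ∃ K, K = K1 + 9 + d2 := ⟨_, rfl⟩
  rw [← hK] at hj
  have hK9 : 9 ≤ K := by omega
  have hKd : 2 ^ Fintype.card ι ≤ K := by omega
  set E := D j with hE
  have hnj0 : 0 < E.P.card := lt_of_lt_of_le (by omega) hj.large
  set n : ℝ := (E.P.card : ℝ) with hn
  have hn0 : 0 < n := by rw [hn]; exact_mod_cast hnj0
  have hsn : 0 < √n := Real.sqrt_pos.2 hn0
  have hVn : δ * n ≤ E.V := hj.var
  have hV0 : 0 < E.V := lt_of_lt_of_le (by positivity) hVn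
  have hsV : 0 < √E.V := Real.sqrt_pos.2 hV0
  have hsVn : √δ * √n ≤ √E.V := by
    rw [← Real.sqrt_mul hδ.le]
    exact Real.sqrt_le_sqrt hVn
  have hMn : b ≤ lam * √n := by
    refine abs_le_of_sq_le_sq' ?_ (by positivity) |>.2
    rw [mul_pow, Real.sq_sqrt hn0.le]
    have h2 : (K1 : ℝ) ≤ n := by
      rw [hn]
      exact_mod_cast (by have := hj.large; omega : K1 ≤ E.P.card)
    have h3 : b ^ 2 / lam ^ 2 ≤ n := by linarith
    rw [div_le_iff₀ (by positivity)] at h3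
    linarith
  -- the weights of the blocks
  set W : ℕ → ℕ → ℝ := fun i k => cl (n * ((i + 1 : ℕ) : ℝ) / N - k) -
    cl (n * (i : ℝ) / N - k) with hW
  have hWm : ∀ i k, 0 ≤ W i k ∧ W i k ≤ 1 := by
    intro i k
    have h1 : cl (n * (i : ℝ) / N - k) ≤ cl (n * ((i + 1 : ℕ) : ℝ) / N - k) := by
      apply cl_mono
      push_cast
      gcongr
      linarith
    have h2 := cl_mem (n * (i : ℝ) / N - k)
    have h3 := cl_mem (n * ((i + 1 : ℕ) : ℝ) / N - k)
    rw [hW]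
    constructor
    · simp only
      linarith
    · simp only
      linarith
  have hWsum : ∀ i < N, ∑ k ∈ Finset.range E.P.card, W i k ^ 2 ≤ n / N := by
    intro i hi
    have hiN : (i : ℝ) + 1 ≤ N := by exact_mod_cast hi
    have h1 : ∑ k ∈ Finset.range E.P.card, W i k = n / N := by
      rw [hW]
      simp only
      rw [Finset.sum_sub_distrib, cl_total (by positivity) (by
        rw [div_le_iff₀ hNr]
        push_cast
        exact mul_le_mul_of_nonneg_left hiN hn0.le), cl_total (by positivity) (by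
        rw [div_le_iff₀ hNr]
        exact mul_le_mul_of_nonneg_left (by linarith) hn0.le)]
      push_cast
      field_simp
      ring
    rw [← h1]
    apply Finset.sum_le_sum
    intro k _
    have := hWm i k
    nlinarith
  set S : ℕ → Set (ι → ℤ) := fun i => {c : ι → ℤ | ∃ m ≤ E.P.card,
      lam * √n < |∑ q ∈ range m, W i q * E.Z (el E.P q) (red (el E.P q) c)|} with hS
  have hmax : ∀ i < N, (nu E.H).real (S i) ≤ 2916 * (5 * b ^ 4) / lam ^ 4 / N ^ 2 := by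
    intro i hi
    refine (Pd.max_block hj hK9 hKd (W i) (by positivity)).trans ?_
    have h2 : (∑ q ∈ range E.P.card, W i q ^ 2) ^ 2 ≤ (n / N) ^ 2 :=
      pow_le_pow_left₀ (Finset.sum_nonneg fun _ _ => sq_nonneg _) (hWsum i hi) 2
    have h3 : (lam * √n) ^ 4 = lam ^ 4 * n ^ 2 := by
      rw [mul_pow, show √n ^ 4 = (√n ^ 2) ^ 2 by ring, Real.sq_sqrt hn0.le]
    rw [h3]
    calc 2916 * (5 * b ^ 4) * (∑ q ∈ range E.P.card, W i q ^ 2) ^ 2 / (lam ^ 4 * n ^ 2)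
        ≤ 2916 * (5 * b ^ 4) * (n / N) ^ 2 / (lam ^ 4 * n ^ 2) := by gcongr
      _ = _ := by field_simp
  -- the inclusion
  have hsub : {c : ι → ℤ | ε < ‖E.X c - interp N (E.X c)‖} ⊆ ⋃ i ∈ Finset.range N, S i := by
    intro c hlt
    by_contra hcon
    rw [hS] at hcon
    simp only [Set.mem_iUnion, Set.mem_ofPred_eq, not_exists, not_and, not_lt,
      Finset.mem_range] at hcon
    have h1 := interp_err hN0 (E.X c)
      (ε := (lam * √n + b) / √E.V) (by positivity) (fun i hi r hr1 hr2 => by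
        have h2 := hcon i hi
        refine spath_block hnj0 hsV (fun q => E.Z (el E.P q) (red (el E.P q) c))
          (fun q hq => hj.bound _ (el_mem hq) _) (u := n * (i : ℝ) / N)
          (w := n * ((i + 1 : ℕ) : ℝ) / N) (s := pt N i) (t := r) ?_ ?_ ?_ (fun m hm => ?_)
        · rw [pt_val hN0 hi.le]
          ring
        · rw [div_le_iff₀ hNr, mul_assoc]
          apply mul_le_mul_of_nonneg_left _ hn0.le
          linarith
        · rw [le_div_iff₀ hNr, mul_assoc]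
          apply mul_le_mul_of_nonneg_left _ hn0.le
          push_cast
          linarith
        · refine le_trans (le_of_eq ?_) (h2 m hm)
          congr 1
          apply Finset.sum_congr rfl
          intro q _
          rw [hW]
          ring)
    have h4 : 2 * ((lam * √n + b) / √E.V) ≤ ε := by
      have h5 : lam * √n + b ≤ 2 * (lam * √n) := by linarith
      have h7 : 2 * (lam * √n) = ε / 2 * (√δ * √n) := by
        rw [hlamd]
        ring
      have h8 : (lam * √n + b) / √E.V ≤ ε / 2 := by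
        rw [div_le_iff₀ hsV]
        calc lam * √n + b ≤ ε / 2 * (√δ * √n) := by linarith
          _ ≤ ε / 2 * √E.V := by gcongr
      linarith
    exact absurd hlt (not_lt.2 (h1.trans h4))
  calc _ ≤ (nu E.H).real (⋃ i ∈ Finset.range N, S i) := measureReal_mono hsub (measure_ne_top _ _)
    _ ≤ ∑ i ∈ Finset.range N, (nu E.H).real (S i) := measureReal_biUnion_finset_le _ _
    _ ≤ ∑ i ∈ Finset.range N, 2916 * (5 * b ^ 4) / lam ^ 4 / N ^ 2 :=
        Finset.sum_le_sum fun i hi => hmax i (Finset.mem_range.1 hi)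
    _ = 2916 * (5 * b ^ 4) / lam ^ 4 / N := by
        rw [Finset.sum_const, Finset.card_range, nsmul_eq_mul]
        field_simp
    _ ≤ η := hKN

end Pool.Agent.U581.FL
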