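import Pool.Agent.U581.FL.Prof

/-!
# The invariance principle with a variance profile: convergence of the characteristic functions
-/

set_option autoImplicit false
set_option linter.unusedSectionVars false

namespace Pool.Agent.U581.FL

open Finset Filter Topology Pool.Agent.Y722.HS Pool.Agent.X280.BP Pool.Agent.X280.UC
  Pool.Agent.X280.HG MeasureTheory Pool.Agent.U581.BM ProbabilityTheory
open scoped BoundedContinuousFunction NNReal

variable {ι : Type} [Fintype ι] [DecidableEq ι]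

theorem vv_nn (Z : ∀ p : ℕ, (ι → ZMod p) → ℝ) {p : ℕ} (hp : p ≠ 0) : 0 ≤ vv Z p := by
  have : NeZero p := ⟨hp⟩
  rw [vv_eq]
  exact EM_nn p _ fun x => sq_nonneg _

theorem Pd.tau_apply (D : Pd ι) (t : unitInterval) :
    D.tau t = (∑ p ∈ D.P, vv D.Z p * cl (D.P.card * t - rk D.P p)) / D.V := ppath_apply _ _ _ _

theorem Pd.tau_mono {D : Pd ι} {b δ : ℝ} {K : ℕ} (h : D.Ok b δ K) (hK : 1 ≤ K) {s t : unitInterval}
    (hst : s ≤ t) : D.tau s ≤ D.tau t := by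
  rw [Pd.tau_apply, Pd.tau_apply]
  refine div_le_div_of_nonneg_right ?_ (Pd.V_pos h hK).le
  refine Finset.sum_le_sum fun p hp => ?_
  refine mul_le_mul_of_nonneg_left ?_ (vv_nn _ (h.prime p hp).1.ne_zero)
  apply cl_mono
  have h1 : (s : ℝ) ≤ t := hst
  have h2 : (0 : ℝ) ≤ D.P.card := Nat.cast_nonneg _
  nlinarith

theorem Pd.tau_mem {D : Pd ι} {b δ : ℝ} {K : ℕ} (h : D.Ok b δ K) (hK : 1 ≤ K) (t : unitInterval) :
    0 ≤ D.tau t ∧ D.tau t ≤ 1 := by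
  have hV := Pd.V_pos h hK
  rw [Pd.tau_apply]
  constructor
  · refine div_nonneg (Finset.sum_nonneg fun p hp => ?_) hV.le
    exact mul_nonneg (vv_nn _ (h.prime p hp).1.ne_zero) (cl_mem _).1
  · rw [div_le_one hV]
    unfold Pd.V VP
    refine Finset.sum_le_sum fun p hp => ?_
    exact mul_le_of_le_one_right (vv_nn _ (h.prime p hp).1.ne_zero) (cl_mem _).2

/-- the covariances -/
theorem Pd.cov1 {D : Pd ι} {b δ : ℝ} {K : ℕ} (h : D.Ok b δ K) (hK : 1 ≤ K) (s t : unitInterval) :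
    |∑ p ∈ D.P, vv D.Z p * (cl (D.P.card * s - rk D.P p) * cl (D.P.card * t - rk D.P p)) -
      D.V * min (D.tau s) (D.tau t)| ≤ b ^ 2 := by
  have hV := Pd.V_pos h hK
  wlog hst : s ≤ t generalizing s t
  · have := this t s (le_of_not_ge hst)
    simp_rw [mul_comm (cl (D.P.card * (s : ℝ) - _)), min_comm (D.tau s)]
    exact this
  rw [min_eq_left (Pd.tau_mono h hK hst), Pd.tau_apply, mul_div_cancel₀ _ hV.ne', abs_sub_comm,
    ← Finset.sum_sub_distrib]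
  have hn : (0 : ℝ) ≤ D.P.card := Nat.cast_nonneg _
  have h1 : (s : ℝ) ≤ t := hst
  have h2 : ∀ p ∈ D.P, 0 ≤ vv D.Z p * cl (D.P.card * s - rk D.P p) - vv D.Z p *
      (cl (D.P.card * s - rk D.P p) * cl (D.P.card * t - rk D.P p)) ∧
      vv D.Z p * cl (D.P.card * s - rk D.P p) - vv D.Z p *
      (cl (D.P.card * s - rk D.P p) * cl (D.P.card * t - rk D.P p)) ≤
      b ^ 2 * (cl (D.P.card * s - rk D.P p) * (1 - cl (D.P.card * s - rk D.P p))) := by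
    intro p hp
    have h3 := cl_mem (D.P.card * s - rk D.P p)
    have h4 := cl_mem (D.P.card * t - rk D.P p)
    have h5 : cl (D.P.card * s - rk D.P p) ≤ cl (D.P.card * t - rk D.P p) := cl_mono (by nlinarith)
    have h6 := vv_nn D.Z (h.prime p hp).1.ne_zero
    have h7 := Pd.vv_le h hp
    have e : vv D.Z p * cl (D.P.card * s - rk D.P p) - vv D.Z p *
      (cl (D.P.card * s - rk D.P p) * cl (D.P.card * t - rk D.P p)) =
      vv D.Z p * (cl (D.P.card * s - rk D.P p) * (1 - cl (D.P.card * t - rk D.P p))) := by ring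
    rw [e]
    refine ⟨mul_nonneg h6 (mul_nonneg h3.1 (by linarith)), ?_⟩
    have h8 : cl (D.P.card * s - rk D.P p) * (1 - cl (D.P.card * t - rk D.P p)) ≤
        cl (D.P.card * s - rk D.P p) * (1 - cl (D.P.card * s - rk D.P p)) :=
      mul_le_mul_of_nonneg_left (by linarith) h3.1
    exact mul_le_mul h7 h8 (mul_nonneg h3.1 (by linarith)) (sq_nonneg _)
  rw [abs_of_nonneg (Finset.sum_nonneg fun p hp => (h2 p hp).1)]
  calc _ ≤ ∑ p ∈ D.P, b ^ 2 * (cl (D.P.card * s - rk D.P p) * (1 - cl (D.P.card * s - rk D.P p))) :=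
        Finset.sum_le_sum fun p hp => (h2 p hp).2
    _ = b ^ 2 * ∑ k ∈ Finset.range D.P.card, cl (D.P.card * s - k) * (1 - cl (D.P.card * s - k)) := by
        rw [← Finset.mul_sum, sum_rk D.P (fun k _ => cl (D.P.card * s - k) *
          (1 - cl (D.P.card * s - k)))]
    _ ≤ b ^ 2 * 1 := mul_le_mul_of_nonneg_left (cl_defect _) (sq_nonneg _)
    _ = b ^ 2 := mul_one _

/-- the quadratic form with a time change -/
noncomputable def qtau (N : ℕ) (θ : ℕ → ℝ) (T : unitInterval → ℝ) : ℝ :=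
  ∑ i ∈ Finset.range (N + 1), ∑ j ∈ Finset.range (N + 1), θ i * θ j * min (T (pt N i)) (T (pt N j))

/-- the local function of a linear combination -/
noncomputable def Pd.G (D : Pd ι) (N : ℕ) (θ : ℕ → ℝ) (p : ℕ) (x : ι → ZMod p) : ℝ :=
  wt D.P.card N θ (rk D.P p) * D.Z p x

theorem Pd.comb (D : Pd ι) (N : ℕ) (θ : ℕ → ℝ) (c : ι → ℤ) :
    ∑ i ∈ Finset.range (N + 1), θ i * D.X c (pt N i) = SP (D.G N θ) D.P c / √D.V := by
  have h := ppath_comb (k := 1) D.P (√D.V) (fun _ p => D.Z p (red p c)) N (fun _ => θ)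
  simp only [Fin.sum_univ_one] at h
  exact h

theorem Pd.VPG {D : Pd ι} {b δ : ℝ} {K : ℕ} (h : D.Ok b δ K) (N : ℕ) (θ : ℕ → ℝ) :
    VP (D.G N θ) D.P = ∑ p ∈ D.P, wt D.P.card N θ (rk D.P p) ^ 2 * vv D.Z p := by
  unfold VP
  refine Finset.sum_congr rfl fun p hp => ?_
  have : NeZero p := ⟨(h.prime p hp).1.ne_zero⟩
  rw [vv_eq, vv_eq]
  have e : (fun x => D.G N θ p x ^ 2) = fun x => wt D.P.card N θ (rk D.P p) ^ 2 * D.Z p x ^ 2 := by
    funext x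
    unfold Pd.G
    ring
  rw [e, EM_mulF]

theorem Pd.VP_near {D : Pd ι} {b δ : ℝ} {K : ℕ} (h : D.Ok b δ K) (hK : 1 ≤ K) (N : ℕ) (θ : ℕ → ℝ) :
    |VP (D.G N θ) D.P - D.V * qtau N θ D.tau| ≤ (∑ i ∈ Finset.range (N + 1), |θ i|) ^ 2 * b ^ 2 := by
  rw [Pd.VPG h]
  have e1 : ∑ p ∈ D.P, wt D.P.card N θ (rk D.P p) ^ 2 * vv D.Z p =
      ∑ i ∈ Finset.range (N + 1), ∑ j ∈ Finset.range (N + 1), θ i * θ j *
        ∑ p ∈ D.P, vv D.Z p * (cl (D.P.card * (pt N i : unitInterval) - rk D.P p) *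
          cl (D.P.card * (pt N j : unitInterval) - rk D.P p)) := by
    unfold wt
    simp_rw [pow_two, Finset.sum_mul_sum, Finset.sum_mul]
    rw [Finset.sum_comm]
    apply Finset.sum_congr rfl
    intro i _
    rw [Finset.sum_comm]
    apply Finset.sum_congr rfl
    intro j _
    rw [Finset.mul_sum]
    apply Finset.sum_congr rfl
    intro p _
    ring
  have e2 : D.V * qtau N θ D.tau = ∑ i ∈ Finset.range (N + 1), ∑ j ∈ Finset.range (N + 1),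
      θ i * θ j * (D.V * min (D.tau (pt N i)) (D.tau (pt N j))) := by
    unfold qtau
    rw [Finset.mul_sum]
    apply Finset.sum_congr rfl
    intro i _
    rw [Finset.mul_sum]
    apply Finset.sum_congr rfl
    intro j _
    ring
  rw [e1, e2, ← Finset.sum_sub_distrib, pow_two (∑ i ∈ Finset.range (N + 1), |θ i|),
    Finset.sum_mul_sum, Finset.sum_mul]
  refine (Finset.abs_sum_le_sum_abs _ _).trans (Finset.sum_le_sum fun i _ => ?_)
  rw [← Finset.sum_sub_distrib, Finset.sum_mul]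
  refine (Finset.abs_sum_le_sum_abs _ _).trans (Finset.sum_le_sum fun j _ => ?_)
  rw [← mul_sub, abs_mul, abs_mul]
  exact mul_le_mul_of_nonneg_left (Pd.cov1 h hK _ _) (by positivity)

theorem Pd.G_mean {D : Pd ι} {b δ : ℝ} {K : ℕ} (h : D.Ok b δ K) (N : ℕ) (θ : ℕ → ℝ) {p : ℕ}
    (hp : p ∈ D.P) [NeZero p] : EM p (D.G N θ p) = 0 := by
  have e : D.G N θ p = fun x => wt D.P.card N θ (rk D.P p) * D.Z p x := rfl
  have := h.mean p hp
  rw [EMt_eq] at this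
  rw [e, EM_mulF, this, mul_zero]

theorem Pd.G_bound {D : Pd ι} {b δ : ℝ} {K : ℕ} (h : D.Ok b δ K) (N : ℕ) (θ : ℕ → ℝ) {p : ℕ}
    (hp : p ∈ D.P) (x : ι → ZMod p) : |D.G N θ p x| ≤ (∑ i ∈ Finset.range (N + 1), |θ i|) * b := by
  unfold Pd.G
  rw [abs_mul]
  exact mul_le_mul (wt_le _ N θ _) (h.bound p hp x) (abs_nonneg _)
    (Finset.sum_nonneg fun _ _ => abs_nonneg _)

/-- the control of the variance -/
theorem Pd.near_ev {b δ : ℝ} (hδ : 0 < δ) (D : ℕ → Pd ι) (hD : ∀ K, ∀ᶠ j in atTop, (D j).Ok b δ K)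
    (T : unitInterval → ℝ) (hT : ∀ t, Tendsto (fun j => (D j).tau t) atTop (𝓝 (T t))) (N : ℕ)
    (θ : ℕ → ℝ) {κ : ℝ} (hκ : 0 < κ) (K : ℕ) : ∀ᶠ j in atTop, (D j).Ok b δ K ∧
      |VP ((D j).G N θ) (D j).P - (D j).V * qtau N θ T| ≤ κ * (D j).V ∧
      (∑ i ∈ Finset.range (N + 1), |θ i|) ^ 2 * b ^ 2 ≤ κ * (D j).V := by
  set Θ := ∑ i ∈ Finset.range (N + 1), |θ i| with hΘ
  have hq : Tendsto (fun j => qtau N θ (D j).tau) atTop (𝓝 (qtau N θ T)) := by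
    unfold qtau
    refine tendsto_finsetSum _ fun i _ => tendsto_finsetSum _ fun j _ => ?_
    exact ((hT _).min (hT _)).const_mul _
  obtain ⟨K1, hK1⟩ := exists_nat_ge (Θ ^ 2 * b ^ 2 / (κ / 2) / δ)
  rw [Metric.tendsto_atTop] at hq
  obtain ⟨J, hJ⟩ := hq (κ / 2) (by positivity)
  filter_upwards [hD (K + K1 + 1), eventually_ge_atTop J] with j hj hjJ
  have h1 := hJ j hjJ
  rw [Real.dist_eq] at h1
  have hV := Pd.V_pos hj (by omega)
  have h2 : Θ ^ 2 * b ^ 2 ≤ κ / 2 * (D j).V := by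
    have h3 : ((K + K1 + 1 : ℕ) : ℝ) ≤ (D j).P.card := by exact_mod_cast hj.large
    push_cast at h3
    have h4 : (K1 : ℝ) ≤ (D j).P.card := by
      have : (0 : ℝ) ≤ K := Nat.cast_nonneg _
      linarith
    have h5 := hK1.trans h4
    rw [div_div, div_le_iff₀ (by positivity)] at h5
    have h6 := hj.var
    calc Θ ^ 2 * b ^ 2 ≤ (D j).P.card * (κ / 2 * δ) := h5
      _ = κ / 2 * (δ * (D j).P.card) := by ring
      _ ≤ κ / 2 * (D j).V := mul_le_mul_of_nonneg_left h6 (by positivity)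
  refine ⟨hj.mono (by omega), ?_, by nlinarith⟩
  have h3 := Pd.VP_near hj (by omega) N θ
  rw [← hΘ] at h3
  have h4 : |(D j).V * qtau N θ (D j).tau - (D j).V * qtau N θ T| ≤ κ / 2 * (D j).V := by
    rw [← mul_sub, abs_mul, abs_of_pos hV, mul_comm]
    exact mul_le_mul_of_nonneg_right h1.le hV.le
  have h5 := abs_sub_le (VP ((D j).G N θ) (D j).P) ((D j).V * qtau N θ (D j).tau)
    ((D j).V * qtau N θ T)
  linarith

theorem VP_nn {D : Pd ι} {b δ : ℝ} {K : ℕ} (h : D.Ok b δ K) (N : ℕ) (θ : ℕ → ℝ) :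
    0 ≤ VP (D.G N θ) D.P := Finset.sum_nonneg fun p hp => vv_nn _ (h.prime p hp).1.ne_zero

theorem qtau_nn {b δ : ℝ} (hδ : 0 < δ) (D : ℕ → Pd ι) (hD : ∀ K, ∀ᶠ j in atTop, (D j).Ok b δ K)
    (T : unitInterval → ℝ) (hT : ∀ t, Tendsto (fun j => (D j).tau t) atTop (𝓝 (T t))) (N : ℕ)
    (θ : ℕ → ℝ) : 0 ≤ qtau N θ T := by
  by_contra hcon
  push Not at hcon
  obtain ⟨κ, hκ⟩ : ∃ κ, κ = -qtau N θ T / 2 := ⟨_, rfl⟩
  have hκ0 : 0 < κ := by rw [hκ]; linarith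
  obtain ⟨j, h1, h2, h3⟩ := (Pd.near_ev hδ D hD T hT N θ hκ0 1).exists
  have hV := Pd.V_pos h1 le_rfl
  have h4 := VP_nn h1 N θ
  have h5 := (abs_le.1 h2).2
  have h6 : qtau N θ T = -2 * κ := by rw [hκ]; ring
  rw [h6] at h5
  nlinarith

/-- the degenerate case -/
theorem prof_deg {b δ : ℝ} (hδ : 0 < δ) (D : ℕ → Pd ι)
    (hD : ∀ K, ∀ᶠ j in atTop, (D j).Ok b δ K) (T : unitInterval → ℝ)
    (hT : ∀ t, Tendsto (fun j => (D j).tau t) atTop (𝓝 (T t))) (N : ℕ) (θ : ℕ → ℝ)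
    (h0 : qtau N θ T = 0) :
    Tendsto (fun j => EBc (D j).H (fun c => Complex.exp (((SP ((D j).G N θ) (D j).P c /
      √(D j).V : ℝ) : ℂ) * Complex.I))) atTop (𝓝 1) := by
  rw [Metric.tendsto_atTop]
  intro ε hε
  obtain ⟨η, hη⟩ : ∃ η, η = ε / 4 := ⟨_, rfl⟩
  have hη0 : 0 < η := by rw [hη]; positivity
  set Θ := ∑ i ∈ Finset.range (N + 1), |θ i| with hΘ
  have hΘ0 : 0 ≤ Θ := Finset.sum_nonneg fun _ _ => abs_nonneg _
  obtain ⟨d2, hd2⟩ : ∃ d2 : ℕ, d2 = 2 ^ Fintype.card ι := ⟨_, rfl⟩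
  obtain ⟨J, hJ⟩ := eventually_atTop.1 (Pd.near_ev hδ D hD T hT N θ (κ := η ^ 2 / 3)
    (by positivity) (9 + d2))
  refine ⟨J, fun j hj => ?_⟩
  obtain ⟨h, h1, h2⟩ := hJ j hj
  rw [← hΘ] at h2
  have hK9 : 9 ≤ 9 + d2 := by omega
  have hKd : 2 ^ Fintype.card ι ≤ 9 + d2 := by omega
  set E := D j with hE
  have hV := Pd.V_pos h (by omega)
  have hsV : 0 < √E.V := Real.sqrt_pos.2 hV
  rw [h0, mul_zero, sub_zero] at h1
  have hVP0 := VP_nn h N θ
  have hVP : VP (E.G N θ) E.P ≤ η ^ 2 / 3 * E.V := (abs_le.1 h1).2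
  obtain ⟨W, hW⟩ : ∃ W, W = η ^ 2 / 3 * E.V := ⟨_, rfl⟩
  have hW0 : 0 ≤ W := by rw [hW]; positivity
  rw [← hW] at h2 hVP
  have hn0' : 0 < E.P.card := lt_of_lt_of_le (by omega) h.large
  have hb0 : 0 ≤ Θ * b := mul_nonneg hΘ0 h.b0.le
  have h4 := mom4 E.P E.y h.prime (E.G N θ) (fun _ => Θ * b) (fun p => vv (E.G N θ) p)
    (fun p => Θ ^ 2 * b ^ 2 * vv (E.G N θ) p) (fun p hp x => Pd.G_bound h N θ hp x)
    (fun p hp _ => Pd.G_mean h N θ hp)
    (fun p hp _ => by rw [vv_eq])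
    (fun p hp _ => by
      rw [vv_eq, ← EM_mulF]
      refine EM_monoF p _ _ fun x => ?_
      have h5 : E.G N θ p x ^ 2 ≤ Θ ^ 2 * b ^ 2 := by
        rw [← sq_abs, ← mul_pow]
        exact pow_le_pow_left₀ (abs_nonneg _) (Pd.G_bound h N θ hp x) 2
      nlinarith [sq_nonneg (E.G N θ p x)])
    E.H (by
      have hy1 : 1 ≤ E.y := (Nat.succ_le_of_lt hn0').trans h.card_le
      have h5 : E.y ^ 4 ≤ E.y ^ (9 + d2) := Nat.pow_le_pow_right (by omega) (by omega)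
      have := h.high
      omega)
  have h5 := Mdl.err (Pd.m0_ok h) hK9 hKd (Finset.Subset.refl _) (fun _ => Θ * b)
  have h5' : 2 ^ Fintype.card ι * ((E.y : ℝ) ^ 4 / (2 * E.H + 1)) * (∑ _p ∈ E.P, Θ * b) ^ 4 ≤
      (∑ _p ∈ E.P, (Θ * b) ^ 2) ^ 2 / E.y ^ 2 := h5
  have hyr : (0 : ℝ) < E.y := by
    exact_mod_cast (by have := h.card_le; omega : 0 < E.y)
  have hny : (E.P.card : ℝ) ≤ E.y := by exact_mod_cast h.card_le
  have h6 : (∑ _p ∈ E.P, (Θ * b) ^ 2) ^ 2 / (E.y : ℝ) ^ 2 ≤ W ^ 2 := by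
    rw [Finset.sum_const, nsmul_eq_mul, div_le_iff₀ (by positivity)]
    have h7 : (E.P.card : ℝ) * (Θ * b) ^ 2 ≤ E.y * W := by
      rw [mul_pow]
      exact mul_le_mul hny h2 (by positivity) hyr.le
    calc ((E.P.card : ℝ) * (Θ * b) ^ 2) ^ 2 ≤ (E.y * W) ^ 2 := pow_le_pow_left₀ (by positivity) h7 2
      _ = _ := by ring
  have h8 : EB E.H (fun c => (SP (E.G N θ) E.P c) ^ 4) ≤ 5 * W ^ 2 := by
    have e : (fun c => (SP (E.G N θ) E.P c) ^ 4) = fun c : ι → ℤ =>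
        (∑ p ∈ E.P, E.G N θ p (red p c)) ^ 4 := rfl
    have e2 : ∑ p ∈ E.P, Θ ^ 2 * b ^ 2 * vv (E.G N θ) p = Θ ^ 2 * b ^ 2 * VP (E.G N θ) E.P := by
      unfold VP
      rw [Finset.mul_sum]
    have e3 : ∑ p ∈ E.P, vv (E.G N θ) p = VP (E.G N θ) E.P := rfl
    rw [e]
    rw [e2, e3] at h4
    have h9 : VP (E.G N θ) E.P ^ 2 ≤ W ^ 2 := pow_le_pow_left₀ hVP0 hVP 2
    have h10 : Θ ^ 2 * b ^ 2 * VP (E.G N θ) E.P ≤ W ^ 2 := by
      rw [sq W]
      exact mul_le_mul h2 hVP hVP0 hW0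
    linarith
  have h9 : EB E.H (fun c => (SP (E.G N θ) E.P c / √E.V) ^ 4) ≤ 5 * (η ^ 2 / 3) ^ 2 := by
    have e : (fun c : ι → ℤ => (SP (E.G N θ) E.P c / √E.V) ^ 4) = fun c =>
        (1 / E.V ^ 2) * (SP (E.G N θ) E.P c) ^ 4 := by
      funext c
      rw [div_pow]
      have : √E.V ^ 4 = E.V ^ 2 := by
        rw [show (4 : ℕ) = 2 * 2 by norm_num, pow_mul, Real.sq_sqrt hV.le]
      rw [this]
      ring
    rw [e, EB_mul_left]
    calc 1 / E.V ^ 2 * EB E.H (fun c => (SP (E.G N θ) E.P c) ^ 4)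
        ≤ 1 / E.V ^ 2 * (5 * W ^ 2) := mul_le_mul_of_nonneg_left h8 (by positivity)
      _ = _ := by
        rw [hW]
        field_simp
  rw [dist_eq_norm]
  have e1 : EBc E.H (fun c => Complex.exp (((SP (E.G N θ) E.P c / √E.V : ℝ) : ℂ) * Complex.I)) - 1 =
      EBc E.H (fun c => Complex.exp (((SP (E.G N θ) E.P c / √E.V : ℝ) : ℂ) * Complex.I) - 1) := by
    rw [EBc_sub, Pool.Agent.U62.RB.EBc_one]
  rw [e1]
  have h10 := EBc_mono_norm E.H (fun c => Complex.exp (((SP (E.G N θ) E.P c / √E.V : ℝ) : ℂ) *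
    Complex.I) - 1) (fun c => η + (1 / η ^ 3) * (SP (E.G N θ) E.P c / √E.V) ^ 4) (fun c => by
      refine (exp_one_le _ hη0).trans (le_of_eq ?_)
      ring)
  refine lt_of_le_of_lt h10 ?_
  rw [EB_addF, EB_mul_left, Pool.Agent.X280.BP.EB_const]
  have h11 : 1 / η ^ 3 * EB E.H (fun c => (SP (E.G N θ) E.P c / √E.V) ^ 4) ≤ η := by
    calc 1 / η ^ 3 * EB E.H (fun c => (SP (E.G N θ) E.P c / √E.V) ^ 4)
        ≤ 1 / η ^ 3 * (5 * (η ^ 2 / 3) ^ 2) := mul_le_mul_of_nonneg_left h9 (by positivity)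
      _ = 5 / 9 * η := by
        field_simp
        norm_num
      _ ≤ η := by linarith
  linarith

/-- the general case -/
theorem prof_pos {b δ : ℝ} (hδ : 0 < δ) (D : ℕ → Pd ι)
    (hD : ∀ K, ∀ᶠ j in atTop, (D j).Ok b δ K) (T : unitInterval → ℝ)
    (hT : ∀ t, Tendsto (fun j => (D j).tau t) atTop (𝓝 (T t))) (N : ℕ) (θ : ℕ → ℝ)
    (h0 : 0 < qtau N θ T) :
    Tendsto (fun j => EBc (D j).H (fun c => Complex.exp (((SP ((D j).G N θ) (D j).P c /
      √(D j).V : ℝ) : ℂ) * Complex.I))) atTop (𝓝 ((Real.exp (-(qtau N θ T / 2)) : ℝ) : ℂ)) := by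
  set Q := qtau N θ T with hQ
  have hsQ : 0 < √Q := Real.sqrt_pos.2 h0
  rw [Metric.tendsto_atTop]
  intro ε hε
  obtain ⟨m, hm⟩ := unif_char2 (ι := ι) (√Q) (half_pos hε)
  have hm0 : (0 : ℝ) < (m : ℝ) + 1 := by positivity
  set Θ := ∑ i ∈ Finset.range (N + 1), |θ i| with hΘ
  have hΘ0 : 0 ≤ Θ := Finset.sum_nonneg fun _ _ => abs_nonneg _
  obtain ⟨κ, hκ⟩ : ∃ κ, κ = Q / (m + 1) ^ 2 := ⟨_, rfl⟩
  have hκ0 : 0 < κ := by rw [hκ]; positivity
  have hκ1 : κ * (m + 1) ^ 2 = Q := by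
    rw [hκ]
    field_simp
  obtain ⟨J, hJ⟩ := eventually_atTop.1 (Pd.near_ev hδ D hD T hT N θ hκ0 (m + 1))
  refine ⟨J, fun j hj => ?_⟩
  obtain ⟨h, h1, h2⟩ := hJ j hj
  rw [← hΘ] at h2
  rw [← hQ] at h1
  set E := D j with hE
  have hV := Pd.V_pos h (by omega)
  have hsV : 0 < √E.V := Real.sqrt_pos.2 hV
  set σ : ℝ := √E.V * √Q with hσ
  have hσ0 : 0 < σ := by positivity
  have hσ2 : σ ^ 2 = E.V * Q := by
    rw [hσ, mul_pow, Real.sq_sqrt hV.le, Real.sq_sqrt h0.le]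
  set D2 : Dat2 ι := ⟨E.P, E.y, E.H, E.G N θ, fun c => SP (E.G N θ) E.P c / σ, σ⟩ with hD2
  have hmono := h.mono (show m ≤ m + 1 by omega)
  have hOk : D2.Ok m := by
    refine ⟨fun p hp => (h.prime p hp).1, fun p hp => (h.prime p hp).2, hσ0, ?_, ?_, ?_, ?_, ?_, ?_⟩
    · intro p hp x
      change |E.G N θ p x| ≤ σ / (m + 1)
      refine (Pd.G_bound h N θ hp x).trans ?_
      rw [le_div_iff₀ hm0]
      refine abs_le_of_sq_le_sq' ?_ hσ0.le |>.2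
      rw [hσ2]
      calc (Θ * b * (m + 1)) ^ 2 = Θ ^ 2 * b ^ 2 * (m + 1) ^ 2 := by ring
        _ ≤ κ * E.V * (m + 1) ^ 2 := mul_le_mul_of_nonneg_right h2 (by positivity)
        _ = E.V * (κ * (m + 1) ^ 2) := by ring
        _ = E.V * Q := by rw [hκ1]
    · intro p hp _
      exact Pd.G_mean h N θ hp
    · change |VP (E.G N θ) E.P - σ ^ 2| ≤ σ ^ 2 / (m + 1)
      rw [hσ2]
      refine h1.trans ?_
      rw [le_div_iff₀ hm0]
      calc κ * E.V * (m + 1) = E.V * (κ * (m + 1)) := by ring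
        _ ≤ E.V * (κ * (m + 1) ^ 2) := by
            refine mul_le_mul_of_nonneg_left (mul_le_mul_of_nonneg_left ?_ hκ0.le) hV.le
            have : (0 : ℝ) ≤ m := Nat.cast_nonneg m
            nlinarith
        _ = E.V * Q := by rw [hκ1]
    · change m ≤ E.y
      exact hmono.large.trans h.card_le
    · exact hmono.high
    · change EB E.H (far (fun c => SP (E.G N θ) E.P c / σ) (fun c => SP (E.G N θ) E.P c / σ)
        (1 / (m + 1))) ≤ 1 / (m + 1)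
      have e : far (fun c => SP (E.G N θ) E.P c / σ) (fun c => SP (E.G N θ) E.P c / σ)
          (1 / ((m : ℝ) + 1)) = fun _ : ι → ℤ => (0 : ℝ) := by
        funext c
        unfold far
        rw [sub_self, abs_zero, if_pos (by positivity)]
      rw [e, Pool.Agent.X280.BP.EB_const]
      positivity
  have h3 := hm D2 hOk
  have e1 : (fun c => Complex.exp ((√Q * D2.Q c : ℝ) * Complex.I)) =
      fun c => Complex.exp (((SP (E.G N θ) E.P c / √E.V : ℝ) : ℂ) * Complex.I) := by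
    funext c
    have e2 : √Q * D2.Q c = SP (E.G N θ) E.P c / √E.V := by
      change √Q * (SP (E.G N θ) E.P c / σ) = _
      rw [hσ]
      field_simp
    rw [e2]
  rw [e1, Real.sq_sqrt h0.le] at h3
  rw [dist_eq_norm]
  exact lt_of_le_of_lt h3 (by linarith)

/-- **convergence of the characteristic functions** -/
theorem prof_char {b δ : ℝ} (hδ : 0 < δ) (D : ℕ → Pd ι)
    (hD : ∀ K, ∀ᶠ j in atTop, (D j).Ok b δ K) (T : unitInterval → ℝ)
    (hT : ∀ t, Tendsto (fun j => (D j).tau t) atTop (𝓝 (T t))) (N : ℕ) (θ : ℕ → ℝ) :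
    Tendsto (fun j => EBc (D j).H (fun c => Complex.exp (((∑ i ∈ Finset.range (N + 1),
      θ i * (D j).X c (pt N i) : ℝ) : ℂ) * Complex.I))) atTop
      (𝓝 ((Real.exp (-(qtau N θ T / 2)) : ℝ) : ℂ)) := by
  simp only [Pd.comb]
  rcases eq_or_lt_of_le (qtau_nn hδ D hD T hT N θ) with h0 | h0
  · have h1 := prof_deg hδ D hD T hT N θ h0.symm
    rw [← h0]
    simpa using h1
  · exact prof_pos hδ D hD T hT N θ h0

end Pool.Agent.U581.FL
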