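import Pool.Agent.U581.FL.Prof2

/-!
# The invariance principle with a variance profile
-/

set_option autoImplicit false
set_option linter.unusedSectionVars false

namespace Pool.Agent.U581.FL

open Finset Filter Topology Pool.Agent.Y722.HS Pool.Agent.X280.BP Pool.Agent.X280.UC
  Pool.Agent.X280.HG MeasureTheory Pool.Agent.U581.BM ProbabilityTheory
open scoped BoundedContinuousFunction NNReal

section

variable {Ω : Type*} [MeasurableSpace Ω] {P : Measure Ω} {B : ℝ≥0 → Ω → ℝ}

/-- the characteristic function of the Brownian motion at arbitrary times -/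
theorem bcharT (hB : IsBrownianReal B P) (N : ℕ) (s : ℕ → unitInterval) (θ : ℕ → ℝ) :
    ∫ ω, Complex.exp (((∑ i ∈ Finset.range (N + 1),
      θ i * bpath B ω (s i) : ℝ) : ℂ) * Complex.I) ∂P =
    ((Real.exp (-((∑ i ∈ Finset.range (N + 1), ∑ j ∈ Finset.range (N + 1),
      θ i * θ j * min ((s i : unitInterval) : ℝ) ((s j : unitInterval) : ℝ)) / 2)) : ℝ) : ℂ) := by
  have hP : IsProbabilityMeasure P := hB.isGaussianProcess.isProbabilityMeasure
  have hG := (hB.isGaussianProcess.comp_right (fun i : ℕ => tm (s i))).smul θ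
  have hS := hG.hasGaussianLaw_fun_sum (I := Finset.range (N + 1))
  set S : Ω → ℝ := fun ω => ∑ i ∈ Finset.range (N + 1), θ i • (B ∘ fun i => tm (s i)) i ω with hSd
  have e1 : ∫ ω, Complex.exp (((∑ i ∈ Finset.range (N + 1),
      θ i * bpath B ω (s i) : ℝ) : ℂ) * Complex.I) ∂P = charFun (P.map S) 1 := by
    rw [charFun_apply, integral_map hS.aemeasurable (by fun_prop)]
    apply integral_congr_ae
    filter_upwards [bpath_apply hB] with ω hω
    simp only [hω]
    congr 2
    rw [hSd]
    simp
  have hm2 : ∀ i ∈ Finset.range (N + 1), MemLp (fun ω => θ i • (B ∘ fun i => tm (s i)) i ω) 2 P :=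
    fun i _ => (hG.hasGaussianLaw_eval i).memLp_two
  have hmean : ∫ ω, S ω ∂P = 0 := by
    rw [hSd, integral_finsetSum _ fun i hi => (hm2 i hi).integrable (by norm_num)]
    apply Finset.sum_eq_zero
    intro i _
    simp only [smul_eq_mul, Function.comp_apply]
    rw [integral_const_mul]
    have := hB.integral_eval (tm (s i))
    rw [this, mul_zero]
  have hvar : Var[S; P] = ∑ i ∈ Finset.range (N + 1), ∑ j ∈ Finset.range (N + 1),
      θ i * θ j * min ((s i : unitInterval) : ℝ) ((s j : unitInterval) : ℝ) := by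
    rw [hSd, variance_fun_sum' hm2]
    apply Finset.sum_congr rfl
    intro i _
    apply Finset.sum_congr rfl
    intro j _
    have h1 := hB.covariance_eval (tm (s i)) (tm (s j))
    have h2 : cov[fun ω => θ i • (B ∘ fun i => tm (s i)) i ω,
        fun ω => θ j • (B ∘ fun i => tm (s i)) j ω; P] =
        θ i * (θ j * cov[B (tm (s i)), B (tm (s j)); P]) := by
      simp only [smul_eq_mul, Function.comp_apply]
      rw [covariance_const_mul_left, covariance_const_mul_right]
    rw [h2, h1]
    rw [mul_assoc]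
    rfl
  rw [e1, hS.charFun_map_eq]
  have e2 : (fun ω => inner ℝ (1 : ℝ) (S ω)) = S := by
    funext ω
    simp
  rw [e2]
  have e3 : P[S] = 0 := hmean
  rw [hvar]
  simp only [e3]
  push_cast
  rw [zero_mul, zero_sub]

theorem comp_aem [MeasurableSpace C(unitInterval, ℝ)] [BorelSpace C(unitInterval, ℝ)]
    (hB : IsBrownianReal B P) (T : C(unitInterval, unitInterval)) :
    AEMeasurable (fun ω => (bpath B ω).comp T) P :=
  (ContinuousMap.continuous_precomp T).measurable.comp_aemeasurable (bpath_aem hB)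

/-- continuity in the time change -/
theorem comp_tendsto [MeasurableSpace C(unitInterval, ℝ)] [BorelSpace C(unitInterval, ℝ)]
    [IsProbabilityMeasure P]
    (hB : IsBrownianReal B P) (T : ℕ → C(unitInterval, unitInterval))
    (T0 : C(unitInterval, unitInterval)) (hT : Tendsto T atTop (𝓝 T0)) (F : C(unitInterval, ℝ) →ᵇ ℝ) :
    Tendsto (fun j => ∫ ω, F ((bpath B ω).comp (T j)) ∂P) atTop
      (𝓝 (∫ ω, F ((bpath B ω).comp T0) ∂P)) := by
  refine tendsto_integral_of_dominated_convergence (fun _ => ‖F‖) (fun N => ?_)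
    (integrable_const _) (fun N => ?_) ?_
  · exact (F.continuous.measurable.comp_aemeasurable (comp_aem hB (T N))).aestronglyMeasurable
  · exact Eventually.of_forall fun ω => F.norm_coe_le_norm _
  · exact Eventually.of_forall fun ω =>
      (F.continuous.tendsto _).comp (((ContinuousMap.continuous_postcomp (bpath B ω)).tendsto T0).comp hT)

end

/-- **compactness of the time changes** -/
theorem lip_compact (L : ℝ≥0) : IsCompact {T : C(unitInterval, unitInterval) | LipschitzWith L T} := by
  have h1 : IsCompact {T : unitInterval →ᵇ unitInterval | LipschitzWith L T} := by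
    refine BoundedContinuousFunction.arzela_ascoli₁ _ ?_ ?_
    · have e : {T : unitInterval →ᵇ unitInterval | LipschitzWith L T} =
          ⋂ x : unitInterval, ⋂ y : unitInterval,
            {T : unitInterval →ᵇ unitInterval | dist (T x) (T y) ≤ L * dist x y} := by
        ext T
        simp only [Set.mem_iInter, Set.mem_ofPred_eq]
        exact lipschitzWith_iff_dist_le_mul
      rw [e]
      refine isClosed_iInter fun x => isClosed_iInter fun y => ?_
      exact isClosed_le ((continuous_eval_const x).dist (continuous_eval_const y)) continuous_const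
    · exact (LipschitzWith.uniformEquicontinuous _ L fun T => T.2).equicontinuous
  have h2 := h1.image (ContinuousMap.isometryEquivBoundedOfCompact unitInterval unitInterval).symm.continuous
  refine h2.of_isClosed_subset ?_ ?_
  · have e : {T : C(unitInterval, unitInterval) | LipschitzWith L T} =
        ⋂ x : unitInterval, ⋂ y : unitInterval,
          {T : C(unitInterval, unitInterval) | dist (T x) (T y) ≤ L * dist x y} := by
      ext T
      simp only [Set.mem_iInter, Set.mem_ofPred_eq]
      exact lipschitzWith_iff_dist_le_mul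
    rw [e]
    refine isClosed_iInter fun x => isClosed_iInter fun y => ?_
    exact isClosed_le ((continuous_eval_const x).dist (continuous_eval_const y)) continuous_const
  · intro T hT
    refine ⟨ContinuousMap.isometryEquivBoundedOfCompact unitInterval unitInterval T, hT, ?_⟩
    exact (ContinuousMap.isometryEquivBoundedOfCompact unitInterval unitInterval).symm_apply_apply T

variable {ι : Type} [Fintype ι] [DecidableEq ι]

/-- the time change -/
noncomputable def Pd.tc (D : Pd ι) : C(unitInterval, unitInterval) :=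
  ⟨fun t => Set.projIcc 0 1 zero_le_one (D.tau t), continuous_projIcc.comp D.tau.continuous⟩

theorem Pd.tc_val {D : Pd ι} {b δ : ℝ} {K : ℕ} (h : D.Ok b δ K) (hK : 1 ≤ K) (t : unitInterval) :
    ((D.tc t : unitInterval) : ℝ) = D.tau t := by
  change ((Set.projIcc (0 : ℝ) 1 zero_le_one (D.tau t) : Set.Icc (0 : ℝ) 1) : ℝ) = D.tau t
  rw [Set.projIcc_of_mem zero_le_one (Pd.tau_mem h hK t)]

theorem Pd.tau_lip {D : Pd ι} {b δ : ℝ} {K : ℕ} (h : D.Ok b δ K) (hK : 1 ≤ K) {s t : unitInterval}
    (hst : s ≤ t) : D.tau t - D.tau s ≤ b ^ 2 / δ * (t - s) := by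
  have hV := Pd.V_pos h hK
  have hδ := h.δ0
  have h1 : (s : ℝ) ≤ t := hst
  have hn : (0 : ℝ) ≤ D.P.card := Nat.cast_nonneg _
  rw [Pd.tau_apply, Pd.tau_apply, ← sub_div, ← Finset.sum_sub_distrib]
  have h2 : ∑ p ∈ D.P, (vv D.Z p * cl (D.P.card * t - rk D.P p) -
      vv D.Z p * cl (D.P.card * s - rk D.P p)) ≤ b ^ 2 * (D.P.card * (t - s)) := by
    calc _ ≤ ∑ p ∈ D.P, b ^ 2 * (cl (D.P.card * t - rk D.P p) - cl (D.P.card * s - rk D.P p)) := by
          refine Finset.sum_le_sum fun p hp => ?_
          rw [← mul_sub]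
          refine mul_le_mul_of_nonneg_right (Pd.vv_le h hp) ?_
          rw [sub_nonneg]
          exact cl_mono (by nlinarith)
      _ = b ^ 2 * ∑ k ∈ Finset.range D.P.card, (cl (D.P.card * t - k) - cl (D.P.card * s - k)) := by
          rw [← Finset.mul_sum, sum_rk D.P (fun k _ => cl (D.P.card * t - k) - cl (D.P.card * s - k))]
      _ = b ^ 2 * (D.P.card * (t - s)) := by
          rw [Finset.sum_sub_distrib, cl_total (mul_nonneg hn t.2.1)
            (mul_le_of_le_one_right hn t.2.2), cl_total (mul_nonneg hn s.2.1)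
            (mul_le_of_le_one_right hn s.2.2)]
          ring
  rw [div_le_iff₀ hV]
  refine h2.trans ?_
  have h3 := h.var
  have h4 : 0 ≤ b ^ 2 / δ * ((t : ℝ) - s) := mul_nonneg (by positivity) (by linarith)
  calc b ^ 2 * (D.P.card * ((t : ℝ) - s)) = b ^ 2 / δ * (t - s) * (δ * D.P.card) := by
        field_simp
    _ ≤ b ^ 2 / δ * (t - s) * D.V := mul_le_mul_of_nonneg_left h3 h4

theorem Pd.tc_lip {D : Pd ι} {b δ : ℝ} {K : ℕ} (h : D.Ok b δ K) (hK : 1 ≤ K) :
    LipschitzWith (b ^ 2 / δ).toNNReal D.tc := by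
  have hδ := h.δ0
  refine LipschitzWith.of_dist_le_mul fun s t => ?_
  rw [Real.coe_toNNReal _ (by positivity)]
  have key : ∀ s t : unitInterval, s ≤ t → dist (D.tc s) (D.tc t) ≤ b ^ 2 / δ * dist s t := by
    intro s t hst
    have h1 : (s : ℝ) ≤ t := hst
    rw [Subtype.dist_eq, Subtype.dist_eq, Real.dist_eq, Real.dist_eq, Pd.tc_val h hK, Pd.tc_val h hK,
      abs_sub_comm, abs_sub_comm (s : ℝ), abs_of_nonneg (by
        have := Pd.tau_mono h hK hst
        linarith), abs_of_nonneg (by linarith)]
    exact Pd.tau_lip h hK hst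
  rcases le_total s t with hst | hst
  · exact key s t hst
  · rw [dist_comm, dist_comm s t]
    exact key t s hst

section

variable [MeasurableSpace C(unitInterval, ℝ)] [BorelSpace C(unitInterval, ℝ)]
  {Ω : Type*} [MeasurableSpace Ω] {μ : Measure Ω} [IsProbabilityMeasure μ] {B : ℝ≥0 → Ω → ℝ}

/-- the limit along a sequence with convergent profiles -/
theorem prof_limit {b δ : ℝ} (hb : 0 < b) (hδ : 0 < δ) (hB : IsBrownianReal B μ) (D : ℕ → Pd ι)
    (hD : ∀ K, ∀ᶠ j in atTop, (D j).Ok b δ K) (T : C(unitInterval, unitInterval))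
    (hT : Tendsto (fun j => (D j).tc) atTop (𝓝 T)) (F : C(unitInterval, ℝ) →ᵇ ℝ) :
    Tendsto (fun j => EB (D j).H (fun c => F ((D j).X c))) atTop
      (𝓝 (∫ ω, F ((bpath B ω).comp T) ∂μ)) := by
  have hT' : ∀ t, Tendsto (fun j => (D j).tau t) atTop (𝓝 ((T t : unitInterval) : ℝ)) := by
    intro t
    have h1 : Tendsto (fun j => (((D j).tc t : unitInterval) : ℝ)) atTop
        (𝓝 ((T t : unitInterval) : ℝ)) :=
      (continuous_subtype_val.tendsto _).comp (((continuous_eval_const t).tendsto T).comp hT)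
    refine h1.congr' ?_
    filter_upwards [hD 1] with j hj
    exact Pd.tc_val hj le_rfl t
  have h := donsker_abs (ν := fun j => nu (ι := ι) (D j).H) (P := μ) (X := fun j c => (D j).X c)
    (Z := fun ω => (bpath B ω).comp T) (fun j => meas_all _) (comp_aem hB T)
    (fun N θ => by
      have e : ∀ ω, ∑ i ∈ Finset.range (N + 1), θ i * ((bpath B ω).comp T) (pt N i) =
          ∑ i ∈ Finset.range (N + 1), θ i * bpath B ω (T (pt N i)) := fun ω => rfl
      simp only [e]
      rw [bcharT hB N (fun i => T (pt N i)) θ]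
      simp only [nu_intc]
      exact prof_char hδ D hD (fun t => ((T t : unitInterval) : ℝ)) hT' N θ)
    (fun ε hε η hη => tight_prof D hD hb hδ hε hη) F
  simp only [nu_int] at h
  exact h

/-- **the invariance principle with a variance profile** -/
theorem prof_main {b δ : ℝ} (hb : 0 < b) (hδ : 0 < δ) (hB : IsBrownianReal B μ)
    (F : C(unitInterval, ℝ) →ᵇ ℝ) {ε : ℝ} (hε : 0 < ε) :
    ∃ K : ℕ, ∀ D : Pd ι, D.Ok b δ K →
      |EB D.H (fun c => F (D.X c)) - ∫ ω, F ((bpath B ω).comp D.tc) ∂μ| ≤ ε := by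
  by_contra hcon
  push Not at hcon
  choose Ds h1 h2 using hcon
  obtain ⟨T, -, φ, hφ, hT⟩ := (lip_compact (b ^ 2 / δ).toNNReal).tendsto_subseq
    (x := fun j => (Ds (j + 1)).tc) (fun j => Pd.tc_lip (h1 (j + 1)) (by omega))
  have hD : ∀ K, ∀ᶠ j in atTop, (Ds (φ j + 1)).Ok b δ K := by
    intro K
    filter_upwards [eventually_ge_atTop K] with j hj
    exact (h1 (φ j + 1)).mono (by have := hφ.id_le j; simp only [id] at this; omega)
  have hT' : Tendsto (fun j => (Ds (φ j + 1)).tc) atTop (𝓝 T) := hT
  have h3 := prof_limit hb hδ hB (fun j => Ds (φ j + 1)) hD T hT' F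
  have h4 := comp_tendsto hB (fun j => (Ds (φ j + 1)).tc) T hT' F
  have h5 := h3.sub h4
  rw [sub_self, Metric.tendsto_atTop] at h5
  obtain ⟨J, hJ⟩ := h5 ε hε
  have h6 := hJ J le_rfl
  rw [Real.dist_eq, sub_zero] at h6
  exact absurd h6 (not_lt.2 (h2 (φ J + 1)).le)

end

end Pool.Agent.U581.FL
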