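import Pool.Agent.U581.FL.Prof3

/-!
# The invariance principle for bounded periodic functions with a variance profile
-/

set_option autoImplicit false
set_option linter.unusedSectionVars false

namespace Pool.Agent.U581.FL

open Finset Filter Topology Pool.Agent.Y722.HS Pool.Agent.X280.BP Pool.Agent.X280.UC
  Pool.Agent.X280.HG MeasureTheory Pool.Agent.U581.BM ProbabilityTheory Pool.Agent.U62.RB
open scoped BoundedContinuousFunction NNReal

/-- the total variance -/
noncomputable def totV {n : ℕ} (F : ℕ → (Fin n → ℤ) → ℝ) (P : Finset ℕ) : ℝ := ∑ p ∈ P, lvar (F p) p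

/-- the profile of the variance as a time change -/
noncomputable def tcF {n : ℕ} (F : ℕ → (Fin n → ℤ) → ℝ) (P : Finset ℕ) :
    C(unitInterval, unitInterval) :=
  ⟨fun t => Set.projIcc 0 1 zero_le_one (ppath P (totV F P) (fun p => lvar (F p) p) t),
    continuous_projIcc.comp (ppath P (totV F P) (fun p => lvar (F p) p)).continuous⟩

section

variable [MeasurableSpace C(unitInterval, ℝ)] [BorelSpace C(unitInterval, ℝ)]
  {Ω : Type*} [MeasurableSpace Ω] {μ : Measure Ω} [IsProbabilityMeasure μ] {B : ℝ≥0 → Ω → ℝ}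

/-- **the invariance principle for bounded periodic functions** -/
theorem prof_fun (n : ℕ) {b δ : ℝ} (hb : 0 < b) (hδ : 0 < δ) (hB : IsBrownianReal B μ)
    (Φ : C(unitInterval, ℝ) →ᵇ ℝ) {ε : ℝ} (hε : 0 < ε) :
    ∃ K : ℕ, ∀ (F : ℕ → (Fin n → ℤ) → ℝ) (P : Finset ℕ) (y H : ℕ), (∀ p ∈ P, p.Prime ∧ p ≤ y) →
      K ≤ P.card → (∀ p ∈ P, PerF (F p) p) → (∀ p ∈ P, ∀ c, |F p c| ≤ b) →
      δ * P.card ≤ totV F P → y ^ K ≤ H →
      |EB H (fun c => Φ (ppath P (√(totV F P)) (fun p => F p c - lmean (F p) p))) -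
        ∫ ω, Φ ((bpath B ω).comp (tcF F P)) ∂μ| ≤ ε := by
  obtain ⟨K, hK⟩ := prof_main (ι := Fin n) (b := 2 * b) (by positivity) hδ hB Φ hε
  refine ⟨K, fun F P y H hP hc hper hbd hV hH => ?_⟩
  set Z : ∀ p : ℕ, (Fin n → ZMod p) → ℝ := fun p x => evF F p x - lmean (F p) p with hZ
  have hvv : ∀ p ∈ P, vv Z p = lvar (F p) p := by
    intro p hp
    have : NeZero p := ⟨(hP p hp).1.ne_zero⟩
    rw [vv_eq]
    have e : (fun x => Z p x ^ 2) = fun x => (evF (fun q c => F q c ^ 2) p x -
        2 * lmean (F p) p * evF F p x) + lmean (F p) p ^ 2 := by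
      funext x
      rw [hZ]
      unfold evF
      ring
    rw [e, EM_add', EM_sub', EM_mul', EM_const', EM_evF, EM_evF]
    unfold lvar
    ring
  have hVP : VP Z P = totV F P := by
    unfold VP totV
    exact Finset.sum_congr rfl hvv
  have hok : (⟨P, y, H, Z⟩ : Pd (Fin n)).Ok (2 * b) δ K := by
    refine ⟨hP, hc, hH, by positivity, hδ, ?_, ?_, ?_⟩
    · intro p hp x
      have : NeZero p := ⟨(hP p hp).1.ne_zero⟩
      change |evF F p x - lmean (F p) p| ≤ 2 * b
      have h2 : |evF F p x| ≤ b := hbd p hp _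
      have h3 : |lmean (F p) p| ≤ b := lmean_abs_le _ (hbd p hp)
      calc |evF F p x - lmean (F p) p| ≤ |evF F p x| + |lmean (F p) p| := abs_sub _ _
        _ ≤ 2 * b := by linarith
    · intro p hp
      have : NeZero p := ⟨(hP p hp).1.ne_zero⟩
      change EMt p (fun x => evF F p x - lmean (F p) p) = 0
      rw [EMt_eq, EM_sub', EM_const', EM_evF, sub_self]
    · change δ * (P.card : ℝ) ≤ VP Z P
      rw [hVP]
      exact hV
  have h := hK _ hok
  have e1 : (fun c => Φ (Pd.X (⟨P, y, H, Z⟩ : Pd (Fin n)) c)) =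
      fun c => Φ (ppath P (√(totV F P)) (fun p => F p c - lmean (F p) p)) := by
    funext c
    congr 1
    unfold Pd.X Pd.V
    ext t
    rw [ppath_apply, ppath_apply]
    change (∑ p ∈ P, Z p (red p c) * _) / √(VP Z P) = _
    rw [hVP]
    congr 1
    refine Finset.sum_congr rfl fun p hp => ?_
    have : NeZero p := ⟨(hP p hp).1.ne_zero⟩
    rw [hZ]
    dsimp only
    rw [evF_red (hper p hp) c]
  have e2 : (Pd.tc (⟨P, y, H, Z⟩ : Pd (Fin n))) = tcF F P := by
    refine ContinuousMap.ext fun t => ?_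
    have e3 : ppath P (VP Z P) (fun p => vv Z p) t = ppath P (totV F P) (fun p => lvar (F p) p) t := by
      rw [ppath_apply, ppath_apply, hVP]
      congr 1
      refine Finset.sum_congr rfl fun p hp => ?_
      rw [hvv p hp]
    change Set.projIcc (0 : ℝ) 1 zero_le_one (ppath P (VP Z P) (fun p => vv Z p) t) =
      Set.projIcc (0 : ℝ) 1 zero_le_one (ppath P (totV F P) (fun p => lvar (F p) p) t)
    rw [e3]
  rw [e2] at h
  change |EB H (fun c => Φ (Pd.X (⟨P, y, H, Z⟩ : Pd (Fin n)) c)) - _| ≤ ε at h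
  rw [e1] at h
  exact h

end

end Pool.Agent.U581.FL
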