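import Pool.Agent.U581.FL.Char

/-!
# Tightness
-/

set_option autoImplicit false
set_option linter.unusedSectionVars false

namespace Pool.Agent.U581.FL

open Finset Filter Topology Pool.Agent.Y722.HS Pool.Agent.X280.BP Pool.Agent.X280.UC
  Pool.Agent.X280.HG MeasureTheory Pool.Agent.U581.BM

variable {ι : Type} [Fintype ι] [DecidableEq ι] {k : ℕ} {C : ℝ}

theorem sum_rk_Ico (P : Finset ℕ) {u v : ℕ} (hv : v ≤ P.card) (f : ℕ → ℕ → ℝ) :
    ∑ p ∈ P.filter (fun p => u ≤ rk P p ∧ rk P p < v), f (rk P p) p = ∑ i ∈ Ico u v, f i (el P i) := by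
  rw [Finset.sum_filter, sum_rk P (fun k p => if u ≤ k ∧ k < v then f k p else 0), ← Finset.sum_filter]
  congr 1
  ext i
  simp only [Finset.mem_filter, Finset.mem_range, Finset.mem_Ico]
  omega

theorem EM_monoF (p : ℕ) [NeZero p] (f g : (ι → ZMod p) → ℝ) (h : ∀ x, f x ≤ g x) :
    EM p f ≤ EM p g := by
  unfold EM
  gcongr
  exact h _

/-- the constant of the fourth moments -/
noncomputable def A4 (C : ℝ) : ℝ := 3 * (1 + C) ^ 2 + C + 1

theorem A4_pos (hC : 0 ≤ C) : 0 < A4 C := by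
  unfold A4
  positivity

theorem Mdl.second {D : Mdl ι k} {K : ℕ} (h : D.Ok C K) (a : Fin k) {p : ℕ} (hp : p ∈ D.P)
    [NeZero p] : EM p (fun x => D.Z a p x ^ 2) ≤ 1 + C := by
  have h4 := h.four a p hp
  rw [EMt_eq] at h4
  have h1 : EM p (fun x => D.Z a p x ^ 2) ≤ EM p (fun x => 1 + D.Z a p x ^ 4) := by
    refine EM_monoF p _ _ fun x => ?_
    nlinarith [sq_nonneg (D.Z a p x ^ 2 - 1)]
  have h2 : EM p (fun x => 1 + D.Z a p x ^ 4) = 1 + EM p (fun x => D.Z a p x ^ 4) := by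
    rw [EM_add', EM_const']
  linarith

/-- the fourth moments of weighted sums over blocks -/
theorem Mdl.four_block {D : Mdl ι k} {K : ℕ} (h : D.Ok C K) (hC : 0 ≤ C) (hK : 9 ≤ K)
    (hK2 : 2 ^ Fintype.card ι ≤ K) (a : Fin k) (ω : ℕ → ℝ) {u v : ℕ} (hv : v ≤ D.P.card) :
    EB D.H (fun c => (∑ i ∈ Ico u v, ω i * D.Z a (el D.P i) (red (el D.P i) c)) ^ 4) ≤
      A4 C * (∑ i ∈ Ico u v, ω i ^ 2) ^ 2 := by
  set I := D.P.filter (fun p => u ≤ rk D.P p ∧ rk D.P p < v) with hI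
  have hIP : I ⊆ D.P := Finset.filter_subset _ _
  have hny := h.card_le
  have hy1 : K ≤ D.y := h.large.trans hny
  set Z' : ∀ p : ℕ, (ι → ZMod p) → ℝ := fun p x => ω (rk D.P p) * D.Z a p x with hZ'
  have e1 : ∀ c : ι → ℤ, ∑ i ∈ Ico u v, ω i * D.Z a (el D.P i) (red (el D.P i) c) =
      ∑ p ∈ I, Z' p (red p c) := by
    intro c
    rw [hI, hZ', ← sum_rk_Ico D.P hv (fun k p => ω k * D.Z a p (red p c))]
  have e2 : ∀ f : ℕ → ℝ, ∑ i ∈ Ico u v, f i = ∑ p ∈ I, f (rk D.P p) := by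
    intro f
    rw [hI, ← sum_rk_Ico D.P hv (fun k _ => f k)]
  simp only [e1]
  rw [e2 (fun i => ω i ^ 2)]
  set V := ∑ p ∈ I, ω (rk D.P p) ^ 2 with hV
  have hV0 : 0 ≤ V := Finset.sum_nonneg fun _ _ => sq_nonneg _
  have h1 := mom4 I D.y (fun p hp => h.prime p (hIP hp)) Z' (fun p => |ω (rk D.P p)| * D.A)
    (fun p => ω (rk D.P p) ^ 2 * (1 + C)) (fun p => ω (rk D.P p) ^ 4 * C)
    (fun p hp x => by
      rw [hZ']
      dsimp only
      rw [abs_mul]
      exact mul_le_mul_of_nonneg_left (h.bound a p (hIP hp) x) (abs_nonneg _))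
    (fun p hp _ => by
      have := h.mean a p (hIP hp)
      rw [EMt_eq] at this
      rw [hZ']
      dsimp only
      rw [EM_mulF, this, mul_zero])
    (fun p hp _ => by
      have e : (fun x => Z' p x ^ 2) = fun x => ω (rk D.P p) ^ 2 * D.Z a p x ^ 2 := by
        funext x
        rw [hZ']
        ring
      rw [e, EM_mulF]
      exact mul_le_mul_of_nonneg_left (Mdl.second h a (hIP hp)) (sq_nonneg _))
    (fun p hp _ => by
      have e : (fun x => Z' p x ^ 4) = fun x => ω (rk D.P p) ^ 4 * D.Z a p x ^ 4 := by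
        funext x
        rw [hZ']
        ring
      have h4 := h.four a p (hIP hp)
      rw [EMt_eq] at h4
      rw [e, EM_mulF]
      exact mul_le_mul_of_nonneg_left h4 (by positivity))
    D.H (by
      have h5 : D.y ^ 4 ≤ D.y ^ K := Nat.pow_le_pow_right (by omega) (by omega)
      have := h.high
      omega)
  have h2 := Mdl.err h hK hK2 hIP (fun p => |ω (rk D.P p)| * D.A)
  have h3 : ∑ p ∈ I, ω (rk D.P p) ^ 4 ≤ V ^ 2 := by
    calc ∑ p ∈ I, ω (rk D.P p) ^ 4 = ∑ p ∈ I, ω (rk D.P p) ^ 2 * ω (rk D.P p) ^ 2 := by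
          refine Finset.sum_congr rfl fun p _ => ?_
          ring
      _ ≤ ∑ p ∈ I, ω (rk D.P p) ^ 2 * V := by
          refine Finset.sum_le_sum fun p hp => ?_
          exact mul_le_mul_of_nonneg_left (Finset.single_le_sum (f := fun p => ω (rk D.P p) ^ 2)
            (fun _ _ => sq_nonneg _) hp) (sq_nonneg _)
      _ = V ^ 2 := by rw [← Finset.sum_mul, sq]
  have h4 : (∑ p ∈ I, (|ω (rk D.P p)| * D.A) ^ 2) ^ 2 / (D.y : ℝ) ^ 2 ≤ V ^ 2 := by
    have e : ∑ p ∈ I, (|ω (rk D.P p)| * D.A) ^ 2 = V * D.A ^ 2 := by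
      rw [hV, Finset.sum_mul]
      refine Finset.sum_congr rfl fun p _ => ?_
      rw [mul_pow, sq_abs]
    have hyr : (0 : ℝ) < D.y := by exact_mod_cast (by omega : 0 < D.y)
    have hAy : D.A ^ 2 ≤ D.y := by
      have h5 : D.A ^ 2 ≤ D.A ^ 2 * (K + 1) := by
        have : (0 : ℝ) ≤ K := Nat.cast_nonneg K
        nlinarith [sq_nonneg D.A]
      have h6 : (D.P.card : ℝ) ≤ D.y := by exact_mod_cast hny
      exact (h5.trans h.Asq).trans h6
    rw [e, div_le_iff₀ (by positivity), mul_pow]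
    exact mul_le_mul_of_nonneg_left (pow_le_pow_left₀ (sq_nonneg _) hAy 2) (sq_nonneg _)
  have h5 : ∑ p ∈ I, ω (rk D.P p) ^ 2 * (1 + C) = V * (1 + C) := by rw [hV, Finset.sum_mul]
  have h6 : ∑ p ∈ I, ω (rk D.P p) ^ 4 * C ≤ V ^ 2 * C := by
    rw [← Finset.sum_mul]
    exact mul_le_mul_of_nonneg_right h3 hC
  rw [h5] at h1
  unfold A4
  have h7 : 3 * (V * (1 + C)) ^ 2 = 3 * (1 + C) ^ 2 * V ^ 2 := by ring
  nlinarith

/-- the maximal inequality for weighted sums -/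
theorem Mdl.max_block {D : Mdl ι k} {K : ℕ} (h : D.Ok C K) (hC : 0 ≤ C) (hK : 9 ≤ K)
    (hK2 : 2 ^ Fintype.card ι ≤ K) (a : Fin k) (ω : ℕ → ℝ) {r : ℝ} (hr : 0 < r) :
    (nu D.H).real {c : ι → ℤ | ∃ m ≤ D.P.card,
      r < |∑ i ∈ range m, ω i * D.Z a (el D.P i) (red (el D.P i) c)|} ≤
      2916 * A4 C * (∑ i ∈ range D.P.card, ω i ^ 2) ^ 2 / r ^ 4 := by
  obtain ⟨M, hM1, hM2⟩ := chain D.H (fun i c => ω i * D.Z a (el D.P i) (red (el D.P i) c))
    (fun i => ω i ^ 2) (fun i => sq_nonneg _) (A4 C) (A4_pos hC).le D.P.card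
    (fun u v _ hv => Mdl.four_block h hC hK hK2 a ω hv) D.P.card 0 D.P.card (Nat.zero_le _) le_rfl
    (by omega)
  have hM0 : ∀ c, 0 ≤ M c := fun c => by
    have := hM2 c 0 le_rfl (Nat.zero_le _)
    simpa using this
  refine (nu_markov D.H _ M (pow_pos hr 4) hM0 ?_).trans ?_
  · rintro c ⟨m, hm, hlt⟩
    have h1 := hM2 c m (Nat.zero_le _) hm
    rw [← Finset.range_eq_Ico] at h1
    have h2 := pow_le_pow_left₀ hr.le hlt.le 4
    have h3 : |∑ i ∈ range m, ω i * D.Z a (el D.P i) (red (el D.P i) c)| ^ 4 =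
        (∑ i ∈ range m, ω i * D.Z a (el D.P i) (red (el D.P i) c)) ^ 4 := by
      rw [show (4 : ℕ) = 2 * 2 by norm_num, pow_mul, sq_abs, ← pow_mul]
    rw [h3] at h2
    exact h2.trans h1
  · rw [← Finset.range_eq_Ico] at hM1
    exact div_le_div_of_nonneg_right hM1 (by positivity)

/-- **tightness** -/
theorem tight_model (D : ℕ → Mdl ι k) (hD : ∀ K, ∀ᶠ j in atTop, (D j).Ok C K) (hC : 0 ≤ C)
    (a : Fin k) {ε : ℝ} (hε : 0 < ε) {η : ℝ} (hη : 0 < η) : ∃ N0 : ℕ, ∀ N ≥ N0, ∀ᶠ j in atTop,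
      (nu (D j).H).real {c : ι → ℤ | ε < ‖(D j).X c a - interp N ((D j).X c a)‖} ≤ η := by
  obtain ⟨lam, hlamd⟩ : ∃ lam, lam = ε / 4 := ⟨_, rfl⟩
  have hlam : 0 < lam := by rw [hlamd]; positivity
  have hA4 := A4_pos hC
  obtain ⟨N1, hN1⟩ := exists_nat_gt (2916 * A4 C / lam ^ 4 / η)
  refine ⟨max N1 1, fun N hN => ?_⟩
  have hN0 : 0 < N := lt_of_lt_of_le one_pos ((le_max_right _ _).trans hN)
  have hNr : (0 : ℝ) < N := by exact_mod_cast hN0
  have hKN : 2916 * A4 C / lam ^ 4 / N ≤ η := by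
    have h1 : (N1 : ℝ) ≤ N := by exact_mod_cast (le_max_left _ _).trans hN
    rw [div_lt_iff₀ hη] at hN1
    rw [div_le_iff₀ hNr]
    nlinarith
  obtain ⟨K1, hK1⟩ := exists_nat_ge (1 / lam ^ 2)
  obtain ⟨d2, hd2⟩ : ∃ d2 : ℕ, d2 = 2 ^ Fintype.card ι := ⟨_, rfl⟩
  filter_upwards [hD (K1 + 9 + d2)] with j hj
  obtain ⟨K, hK⟩ : ∃ K, K = K1 + 9 + d2 := ⟨_, rfl⟩
  rw [← hK] at hj
  have hK9 : 9 ≤ K := by omega
  have hKd : 2 ^ Fintype.card ι ≤ K := by omega
  set E := D j with hE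
  have hnj0 : 0 < E.P.card := lt_of_lt_of_le (by omega) hj.large
  set n : ℝ := (E.P.card : ℝ) with hn
  have hn0 : 0 < n := by rw [hn]; exact_mod_cast hnj0
  have hsn : 0 < √n := Real.sqrt_pos.2 hn0
  have hMn : E.A ≤ lam * √n := by
    refine abs_le_of_sq_le_sq' ?_ (by positivity) |>.2
    rw [mul_pow, Real.sq_sqrt hn0.le]
    have h1 : (1 : ℝ) ≤ lam ^ 2 * (K + 1) := by
      have h2 : (K1 : ℝ) ≤ K := by exact_mod_cast (by omega : K1 ≤ K)
      have h3 : 1 / lam ^ 2 ≤ (K : ℝ) + 1 := by linarith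
      rw [div_le_iff₀ (by positivity)] at h3
      linarith
    have h4 := hj.Asq
    rw [← hn] at h4
    calc E.A ^ 2 = E.A ^ 2 * 1 := (mul_one _).symm
      _ ≤ E.A ^ 2 * (lam ^ 2 * (K + 1)) := mul_le_mul_of_nonneg_left h1 (sq_nonneg _)
      _ = lam ^ 2 * (E.A ^ 2 * (K + 1)) := by ring
      _ ≤ lam ^ 2 * n := mul_le_mul_of_nonneg_left h4 (sq_nonneg _)
  -- the weights of the blocks
  set W : ℕ → ℕ → ℝ := fun i k => cl (n * ((i + 1 : ℕ) : ℝ) / N - k) -
    cl (n * (i : ℝ) / N - k) with hW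
  have hWm : ∀ i k, 0 ≤ W i k ∧ W i k ≤ 1 := by
    intro i k
    have h1 : cl (n * (i : ℝ) / N - k) ≤ cl (n * ((i + 1 : ℕ) : ℝ) / N - k) := by
      apply cl_mono
      push_cast
      gcongr
      linarith
    have h2 := cl_mem (n * (i : ℝ) / N - k)
    have h3 := cl_mem (n * ((i + 1 : ℕ) : ℝ) / N - k)
    rw [hW]
    constructor
    · simp only
      linarith
    · simp only
      linarith
  have hWsum : ∀ i < N, ∑ k ∈ Finset.range E.P.card, W i k ^ 2 ≤ n / N := by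
    intro i hi
    have hiN : (i : ℝ) + 1 ≤ N := by exact_mod_cast hi
    have h1 : ∑ k ∈ Finset.range E.P.card, W i k = n / N := by
      rw [hW]
      simp only
      rw [Finset.sum_sub_distrib, cl_total (by positivity) (by
        rw [div_le_iff₀ hNr]
        push_cast
        exact mul_le_mul_of_nonneg_left hiN hn0.le), cl_total (by positivity) (by
        rw [div_le_iff₀ hNr]
        exact mul_le_mul_of_nonneg_left (by linarith) hn0.le)]
      push_cast
      field_simp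
      ring
    rw [← h1]
    apply Finset.sum_le_sum
    intro k _
    have := hWm i k
    nlinarith
  set S : ℕ → Set (ι → ℤ) := fun i => {c : ι → ℤ | ∃ m ≤ E.P.card,
      lam * √n < |∑ q ∈ range m, W i q * E.Z a (el E.P q) (red (el E.P q) c)|} with hS
  have hmax : ∀ i < N, (nu E.H).real (S i) ≤ 2916 * A4 C / lam ^ 4 / N ^ 2 := by
    intro i hi
    refine (Mdl.max_block hj hC hK9 hKd a (W i) (by positivity)).trans ?_
    have h2 : (∑ q ∈ range E.P.card, W i q ^ 2) ^ 2 ≤ (n / N) ^ 2 :=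
      pow_le_pow_left₀ (Finset.sum_nonneg fun _ _ => sq_nonneg _) (hWsum i hi) 2
    have h3 : (lam * √n) ^ 4 = lam ^ 4 * n ^ 2 := by
      rw [mul_pow, show √n ^ 4 = (√n ^ 2) ^ 2 by ring, Real.sq_sqrt hn0.le]
    rw [h3]
    calc 2916 * A4 C * (∑ q ∈ range E.P.card, W i q ^ 2) ^ 2 / (lam ^ 4 * n ^ 2)
        ≤ 2916 * A4 C * (n / N) ^ 2 / (lam ^ 4 * n ^ 2) := by gcongr
      _ = _ := by field_simp
  -- the inclusion
  have hsub : {c : ι → ℤ | ε < ‖E.X c a - interp N (E.X c a)‖} ⊆ ⋃ i ∈ Finset.range N, S i := by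
    intro c hlt
    by_contra hcon
    rw [hS] at hcon
    simp only [Set.mem_iUnion, Set.mem_ofPred_eq, not_exists, not_and, not_lt,
      Finset.mem_range] at hcon
    have h1 := interp_err hN0 (E.X c a)
      (ε := (lam * √n + E.A) / √n) (by have := hj.A0; positivity) (fun i hi r hr1 hr2 => by
        have h2 := hcon i hi
        refine spath_block hnj0 hsn (fun q => E.Z a (el E.P q) (red (el E.P q) c))
          (fun q hq => hj.bound a _ (el_mem hq) _) (u := n * (i : ℝ) / N)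
          (w := n * ((i + 1 : ℕ) : ℝ) / N) (s := pt N i) (t := r) ?_ ?_ ?_ (fun m hm => ?_)
        · rw [pt_val hN0 hi.le]
          ring
        · rw [div_le_iff₀ hNr, mul_assoc]
          apply mul_le_mul_of_nonneg_left _ hn0.le
          linarith
        · rw [le_div_iff₀ hNr, mul_assoc]
          apply mul_le_mul_of_nonneg_left _ hn0.le
          push_cast
          linarith
        · refine le_trans (le_of_eq ?_) (h2 m hm)
          congr 1
          apply Finset.sum_congr rfl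
          intro q _
          rw [hW]
          ring)
    have h4 : 2 * ((lam * √n + E.A) / √n) ≤ ε := by
      have h5 : lam * √n + E.A ≤ 2 * (lam * √n) := by linarith
      have h6 : (lam * √n + E.A) / √n ≤ 2 * (lam * √n) / √n :=
        div_le_div_of_nonneg_right h5 hsn.le
      have h7 : 2 * (lam * √n) / √n = ε / 2 := by
        rw [hlamd]
        field_simp
        norm_num
      linarith
    exact absurd hlt (not_lt.2 (h1.trans h4))
  calc _ ≤ (nu E.H).real (⋃ i ∈ Finset.range N, S i) := measureReal_mono hsub (measure_ne_top _ _)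
    _ ≤ ∑ i ∈ Finset.range N, (nu E.H).real (S i) := measureReal_biUnion_finset_le _ _
    _ ≤ ∑ i ∈ Finset.range N, 2916 * A4 C / lam ^ 4 / N ^ 2 :=
        Finset.sum_le_sum fun i hi => hmax i (Finset.mem_range.1 hi)
    _ = 2916 * A4 C / lam ^ 4 / N := by
        rw [Finset.sum_const, Finset.card_range, nsmul_eq_mul]
        field_simp
    _ ≤ η := hKN

end Pool.Agent.U581.FL
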