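import Pool.Agent.U581.FL.Bounded
import Pool.Agent.N534.XH.Good

/-!
# The invariance principle for local data with bounded fourth moments
-/

set_option autoImplicit false
set_option linter.unusedSectionVars false

namespace Pool.Agent.U581.FL

open Finset Filter Topology Pool.Agent.Y722.HS Pool.Agent.X280.BP Pool.Agent.X280.UC
  Pool.Agent.X280.HG MeasureTheory Pool.Agent.U581.BM ProbabilityTheory Pool.Agent.U62.RB
open Pool.Agent.N534.XH (q4 q4_pow q4_nonneg q4_pos q4_one sum_q4_set young ib ib_nonneg ib_le)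
open scoped BoundedContinuousFunction NNReal

variable {ι : Type} [Fintype ι] [DecidableEq ι] {k : ℕ}

/-- local data with bounded fourth moments which are orthonormal up to `O(1 / p)` -/
structure LV (U : Fin k → ∀ p : ℕ, (ι → ZMod p) → ℝ) (C : ℝ) : Prop where
  C0 : 0 ≤ C
  m1 : ∀ a p, p.Prime → |EMt p (U a p)| ≤ C / p
  m2 : ∀ a b p, p.Prime → |EMt p (fun x => U a p x * U b p x) - if a = b then 1 else 0| ≤ C / p
  m4 : ∀ a p, p.Prime → EMt p (fun x => U a p x ^ 4) ≤ C

/-- the truncated centred data -/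
noncomputable def TZ (U : Fin k → ∀ p : ℕ, (ι → ZMod p) → ℝ) (A : ℝ) (a : Fin k) (p : ℕ)
    (x : ι → ZMod p) : ℝ := trunc A (U a p x) - mT (U a) A p

/-- the eighth root -/
noncomputable def r8 (n : ℝ) : ℝ := √√√n

theorem r8_pow {n : ℝ} (hn : 0 ≤ n) : r8 n ^ 8 = n := by
  unfold r8
  have e1 : √(√(√n)) ^ 8 = ((√(√(√n)) ^ 2) ^ 2) ^ 2 := by ring
  rw [e1, Real.sq_sqrt (Real.sqrt_nonneg _), Real.sq_sqrt (Real.sqrt_nonneg _), Real.sq_sqrt hn]

theorem r8_nn (n : ℝ) : 0 ≤ r8 n := Real.sqrt_nonneg _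

theorem r8_large (R : ℝ) (hR : 0 ≤ R) : ∃ N : ℕ, ∀ n : ℕ, N ≤ n → R ≤ r8 n := by
  obtain ⟨N, hN⟩ := exists_nat_ge (R ^ 8)
  refine ⟨N, fun n hn => ?_⟩
  have h1 : R ^ 8 ≤ r8 n ^ 8 := by
    rw [r8_pow (Nat.cast_nonneg n)]
    exact hN.trans (by exact_mod_cast hn)
  exact le_of_pow_le_pow_left₀ (by norm_num) (r8_nn _) h1

variable {U : Fin k → ∀ p : ℕ, (ι → ZMod p) → ℝ} {C : ℝ}

theorem trunc_four (A x : ℝ) : trunc A x ^ 4 ≤ x ^ 4 := by
  unfold trunc
  split_ifs
  · exact le_rfl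
  · rw [zero_pow (by norm_num)]
    positivity

theorem trunc_prod {A : ℝ} (hA : 0 < A) (x y : ℝ) :
    |trunc A x * trunc A y - x * y| ≤ (x ^ 4 + y ^ 4) / A ^ 2 := by
  have h0 : 0 ≤ (x ^ 4 + y ^ 4) / A ^ 2 := by positivity
  have key : ∀ u v : ℝ, A < |u| → |u * v| ≤ (u ^ 4 + v ^ 4) / A ^ 2 := by
    intro u v hu
    rw [le_div_iff₀ (by positivity), abs_mul]
    have h1 : A ^ 2 ≤ |u| ^ 2 := pow_le_pow_left₀ hA.le hu.le 2
    have h2 : u ^ 4 = |u| ^ 4 := ((show Even 4 by decide).pow_abs u).symm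
    have h3 : v ^ 4 = |v| ^ 4 := ((show Even 4 by decide).pow_abs v).symm
    rw [h2, h3]
    have hu0 := abs_nonneg u
    have hv0 := abs_nonneg v
    calc |u| * |v| * A ^ 2 ≤ |u| * |v| * |u| ^ 2 := by gcongr
      _ = |u| ^ 3 * |v| := by ring
      _ ≤ |u| ^ 4 + |v| ^ 4 := by
        rcases le_total |u| |v| with h | h
        · calc |u| ^ 3 * |v| ≤ |v| ^ 3 * |v| := by gcongr
            _ = |v| ^ 4 := by ring
            _ ≤ _ := by nlinarith [pow_nonneg hu0 4]
        · calc |u| ^ 3 * |v| ≤ |u| ^ 3 * |u| := by gcongr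
            _ = |u| ^ 4 := by ring
            _ ≤ _ := by nlinarith [pow_nonneg hv0 4]
  by_cases hx : |x| ≤ A
  · by_cases hy : |y| ≤ A
    · unfold trunc
      rw [if_pos hx, if_pos hy, sub_self, abs_zero]
      exact h0
    · unfold trunc
      rw [if_neg hy, mul_zero, zero_sub, abs_neg, mul_comm x y, add_comm (x ^ 4)]
      exact key y x (not_le.1 hy)
  · unfold trunc
    rw [if_neg hx, zero_mul, zero_sub, abs_neg]
    exact key x y (not_le.1 hx)

theorem LV.mT_le (h : LV U C) {A : ℝ} (hA : 1 ≤ A) (a : Fin k) {p : ℕ} (hp : p.Prime) :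
    |mT (U a) A p| ≤ C * (1 / p + 1 / A ^ 3) := by
  have : NeZero p := ⟨hp.ne_zero⟩
  have hA0 : 0 < A := by linarith
  rw [mT_eq]
  have h1 := h.m1 a p hp
  rw [EMt_eq] at h1
  have h2 : |EM p (fun c => trunc A (U a p c)) - EM p (U a p)| ≤ C / A ^ 3 := by
    rw [← EM_sub']
    refine (abs_EM_le_EM p _ (fun c => 1 / A ^ 3 * U a p c ^ 4) fun c =>
      (trunc_diff hA0 _).trans (le_of_eq (by ring))).trans ?_
    rw [EM_mul']
    have h4 := h.m4 a p hp
    rw [EMt_eq] at h4
    calc 1 / A ^ 3 * EM p (fun c => U a p c ^ 4) ≤ 1 / A ^ 3 * C := by gcongr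
      _ = _ := by ring
  have e : EM p (fun c => trunc A (U a p c)) =
      (EM p (fun c => trunc A (U a p c)) - EM p (U a p)) + EM p (U a p) := by ring
  rw [e]
  calc _ ≤ _ := abs_add_le _ _
    _ ≤ C / A ^ 3 + C / p := add_le_add h2 h1
    _ = _ := by ring

theorem LV.mT_le2 (h : LV U C) {A : ℝ} (hA : 1 ≤ A) (a : Fin k) {p : ℕ} (hp : p.Prime) :
    |mT (U a) A p| ≤ 2 * C := by
  have hC := h.C0
  have hp1 : (1 : ℝ) ≤ p := by exact_mod_cast hp.one_lt.le
  refine (h.mT_le hA a hp).trans ?_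
  have h5 : 1 / (p : ℝ) ≤ 1 := by rw [div_le_one (by linarith)]; exact hp1
  have h6 : 1 / A ^ 3 ≤ 1 := by
    rw [div_le_one (by positivity)]
    exact one_le_pow₀ hA
  calc C * (1 / p + 1 / A ^ 3) ≤ C * (1 + 1) := by gcongr
    _ = 2 * C := by ring

theorem LV.cov (h : LV U C) {A : ℝ} (hA : 1 ≤ A) (a b : Fin k) {p : ℕ} (hp : p.Prime) :
    |EMt p (fun x => TZ U A a p x * TZ U A b p x) - if a = b then 1 else 0| ≤
      (3 * C + 2 * C ^ 2) * (1 / p + 1 / A ^ 2) := by
  have : NeZero p := ⟨hp.ne_zero⟩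
  have hC := h.C0
  have hA0 : 0 < A := by linarith
  have hp1 : (1 : ℝ) ≤ p := by exact_mod_cast hp.one_lt.le
  have hp0 : (0 : ℝ) < p := by linarith
  rw [EMt_eq]
  have h1 := h.m2 a b p hp
  rw [EMt_eq] at h1
  have e1 : EM p (fun x => TZ U A a p x * TZ U A b p x) =
      EM p (fun x => trunc A (U a p x) * trunc A (U b p x)) - mT (U a) A p * mT (U b) A p := by
    have e2 : (fun x => TZ U A a p x * TZ U A b p x) = fun x =>
        ((trunc A (U a p x) * trunc A (U b p x) - mT (U a) A p * trunc A (U b p x)) -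
          mT (U b) A p * trunc A (U a p x)) + mT (U a) A p * mT (U b) A p := by
      funext x
      unfold TZ
      ring
    rw [e2, EM_add', EM_sub', EM_sub', EM_mul', EM_mul', EM_const', ← mT_eq, ← mT_eq]
    ring
  have h2 : |EM p (fun x => trunc A (U a p x) * trunc A (U b p x)) - EM p (fun x => U a p x * U b p x)| ≤
      2 * C / A ^ 2 := by
    rw [← EM_sub']
    refine (abs_EM_le_EM p _ (fun c => 1 / A ^ 2 * (U a p c ^ 4 + U b p c ^ 4)) fun c =>
      (trunc_prod hA0 _ _).trans (le_of_eq (by ring))).trans ?_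
    rw [EM_mul', EM_add']
    have h4 := h.m4 a p hp
    have h5 := h.m4 b p hp
    rw [EMt_eq] at h4 h5
    calc 1 / A ^ 2 * (EM p (fun c => U a p c ^ 4) + EM p (fun c => U b p c ^ 4)) ≤
        1 / A ^ 2 * (C + C) := by gcongr
      _ = _ := by ring
  have h3 : |mT (U a) A p * mT (U b) A p| ≤ 2 * C * (C * (1 / p + 1 / A ^ 2)) := by
    rw [abs_mul]
    have hA3 : 1 / A ^ 3 ≤ 1 / A ^ 2 := by
      apply one_div_le_one_div_of_le (by positivity)
      exact pow_le_pow_right₀ hA (by norm_num)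
    refine mul_le_mul (h.mT_le2 hA a hp) ((h.mT_le hA b hp).trans ?_) (abs_nonneg _) (by positivity)
    gcongr
  rw [e1]
  have e3 : EM p (fun x => trunc A (U a p x) * trunc A (U b p x)) - mT (U a) A p * mT (U b) A p -
      (if a = b then 1 else 0) =
      (EM p (fun x => trunc A (U a p x) * trunc A (U b p x)) - EM p (fun x => U a p x * U b p x)) +
      (EM p (fun x => U a p x * U b p x) - if a = b then 1 else 0) -
      mT (U a) A p * mT (U b) A p := by ring
  rw [e3]
  refine (abs_sub _ _).trans ((add_le_add ((abs_add_le _ _).trans (add_le_add h2 h1)) h3).trans ?_)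
  have h7 : 0 ≤ 1 / (p : ℝ) := by positivity
  have h8 : 0 ≤ 1 / A ^ 2 := by positivity
  have e4 : 2 * C / A ^ 2 + C / p + 2 * C * (C * (1 / p + 1 / A ^ 2)) =
      C * (2 * (1 / A ^ 2) + 1 / p) + 2 * C ^ 2 * (1 / p + 1 / A ^ 2) := by ring
  have e5 : (3 * C + 2 * C ^ 2) * (1 / p + 1 / A ^ 2) =
      C * (3 * (1 / A ^ 2) + 3 * (1 / p)) + 2 * C ^ 2 * (1 / p + 1 / A ^ 2) := by ring
  rw [e4, e5]
  have h9 : C * (2 * (1 / A ^ 2) + 1 / p) ≤ C * (3 * (1 / A ^ 2) + 3 * (1 / p)) :=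
    mul_le_mul_of_nonneg_left (by linarith) hC
  linarith

theorem four_sub (x m : ℝ) : (x - m) ^ 4 ≤ 8 * (x ^ 4 + m ^ 4) := by
  have h1 : (x - m) ^ 2 ≤ 2 * (x ^ 2 + m ^ 2) := by nlinarith [sq_nonneg (x + m)]
  have h2 : ((x - m) ^ 2) ^ 2 ≤ (2 * (x ^ 2 + m ^ 2)) ^ 2 := pow_le_pow_left₀ (sq_nonneg _) h1 2
  nlinarith [sq_nonneg (x ^ 2 - m ^ 2)]

theorem LV.four (h : LV U C) {A : ℝ} (hA : 1 ≤ A) (a : Fin k) {p : ℕ} (hp : p.Prime) :
    EMt p (fun x => TZ U A a p x ^ 4) ≤ 8 * (C + (2 * C) ^ 4) := by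
  have : NeZero p := ⟨hp.ne_zero⟩
  have h4 := h.m4 a p hp
  rw [EMt_eq] at h4 ⊢
  have h1 : EM p (fun x => TZ U A a p x ^ 4) ≤
      EM p (fun x => 8 * (U a p x ^ 4 + (2 * C) ^ 4)) := by
    refine EM_monoF p _ _ fun x => ?_
    refine (four_sub _ _).trans ?_
    have h2 := trunc_four A (U a p x)
    have h3 := pow_le_pow_left₀ (abs_nonneg _) (h.mT_le2 hA a hp) 4
    rw [show |mT (U a) A p| ^ 4 = mT (U a) A p ^ 4 by
      rw [show (4 : ℕ) = 2 * 2 by norm_num, pow_mul, sq_abs, ← pow_mul]] at h3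
    linarith
  rw [EM_mul', EM_add', EM_const'] at h1
  linarith

/-- the model -/
noncomputable def umdl (U : Fin k → ∀ p : ℕ, (ι → ZMod p) → ℝ) (P : Finset ℕ) (y H : ℕ) : Mdl ι k :=
  ⟨P, y, H, TZ U (r8 P.card ^ 3), 2 * r8 P.card ^ 3⟩

theorem umdl_ok (h : LV U C) (K : ℕ) : ∃ L : ℕ, ∀ (P : Finset ℕ) (y H : ℕ),
    (∀ p ∈ P, p.Prime ∧ p ≤ y) → L ≤ P.card → y ^ L ≤ H → (umdl U P y H).Ok (8 * (C + (2 * C) ^ 4)) K := by
  have hC := h.C0
  set C' := 3 * C + 2 * C ^ 2 with hC'
  have hC'0 : 0 ≤ C' := by positivity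
  obtain ⟨L1, hL1⟩ := r8_large (4 * (K + 1) + 1) (by positivity)
  obtain ⟨L2, hL2⟩ := log_small' C' hC'0 (1 / (2 * (K + 1))) (by positivity)
  obtain ⟨L3, hL3⟩ := r8_large (2 * C' * (K + 1)) (by positivity)
  refine ⟨L1 + L2 + L3 + K + 1, fun P y H hP hcard hH => ?_⟩
  have hn1 : (1 : ℝ) ≤ P.card := by exact_mod_cast (by omega : 1 ≤ P.card)
  obtain ⟨t, ht⟩ : ∃ t : ℝ, t = r8 P.card := ⟨_, rfl⟩
  have ht8 : t ^ 8 = P.card := by rw [ht]; exact r8_pow (by positivity)
  have ht1 : 4 * ((K : ℝ) + 1) + 1 ≤ t := by rw [ht]; exact hL1 _ (by omega)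
  have ht3 : 2 * C' * ((K : ℝ) + 1) ≤ t := by rw [ht]; exact hL3 _ (by omega)
  have hK0 : (0 : ℝ) ≤ K := Nat.cast_nonneg K
  have ht1' : 1 ≤ t := by linarith
  have ht0 : 0 < t := by linarith
  have hA1 : 1 ≤ t ^ 3 := one_le_pow₀ ht1'
  have hZ : ∀ a, ∀ p ∈ P, ∀ x, |TZ U (t ^ 3) a p x| ≤ 2 * t ^ 3 := by
    intro a p hp x
    have : NeZero p := ⟨(hP p hp).1.ne_zero⟩
    unfold TZ
    have h2 : |mT (U a) (t ^ 3) p| ≤ t ^ 3 := by
      rw [mT_eq]
      have h3 := abs_EM_le_EM p (fun c => trunc (t ^ 3) (U a p c)) (fun _ => t ^ 3)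
        fun c => trunc_abs (by positivity) _
      rwa [EM_const'] at h3
    exact (abs_sub _ _).trans (by have := trunc_abs (show 0 ≤ t ^ 3 by positivity) (U a p x); linarith)
  unfold umdl
  rw [← ht]
  refine ⟨hP, by show K ≤ P.card; omega, ?_, ?_, hZ, ?_, ?_, ?_, ?_⟩
  · change y ^ K ≤ H
    refine le_trans ?_ hH
    have hy : 0 < y := by
      obtain ⟨p, hp⟩ := Finset.card_pos.1 (by omega : 0 < P.card)
      exact (hP p hp).1.pos.trans_le (hP p hp).2
    exact Nat.pow_le_pow_right hy (by omega)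
  · change 0 ≤ 2 * t ^ 3
    positivity
  · change (2 * t ^ 3) ^ 2 * ((K : ℝ) + 1) ≤ P.card
    rw [← ht8]
    calc (2 * t ^ 3) ^ 2 * ((K : ℝ) + 1) = (4 * (K + 1)) * t ^ 6 := by ring
      _ ≤ t * t ^ 6 := by gcongr; linarith
      _ = t ^ 7 := by ring
      _ ≤ t ^ 8 := pow_le_pow_right₀ ht1' (by norm_num)
  · intro a p hp
    have : NeZero p := ⟨(hP p hp).1.ne_zero⟩
    change EMt p (fun x => trunc (t ^ 3) (U a p x) - mT (U a) (t ^ 3) p) = 0
    rw [EMt_eq, EM_sub', EM_const', ← mT_eq, sub_self]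
  · intro a b
    change ∑ p ∈ P, |EMt p (fun x => TZ U (t ^ 3) a p x * TZ U (t ^ 3) b p x) - if a = b then 1 else 0| ≤
      P.card / (K + 1)
    have h1 : ∑ p ∈ P, |EMt p (fun x => TZ U (t ^ 3) a p x * TZ U (t ^ 3) b p x) -
        if a = b then 1 else 0| ≤ ∑ p ∈ P, (C' / p + C' * (1 / (t ^ 3) ^ 2)) := by
      refine Finset.sum_le_sum fun p hp => ((h.cov hA1 a b (hP p hp).1).trans (le_of_eq ?_))
      rw [← hC']
      ring
    refine h1.trans ?_
    rw [Finset.sum_add_distrib, Finset.sum_const, nsmul_eq_mul]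
    have h2 := sum_Cp (fun p hp => (hP p hp).1) hC'0
    have h3 := hL2 P.card (by omega)
    have h4 : √(P.card : ℝ) ≤ P.card := by
      have h5 : √(P.card : ℝ) * √(P.card : ℝ) = P.card := Real.mul_self_sqrt (by positivity)
      have h6 : 1 ≤ √(P.card : ℝ) := Real.one_le_sqrt.2 hn1
      nlinarith
    have h7 : 1 / (2 * ((K : ℝ) + 1)) * √(P.card : ℝ) ≤ P.card / (K + 1) / 2 := by
      calc 1 / (2 * ((K : ℝ) + 1)) * √(P.card : ℝ) ≤ 1 / (2 * ((K : ℝ) + 1)) * P.card := by gcongr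
        _ = _ := by field_simp
    have h8 : (P.card : ℝ) * (C' * (1 / (t ^ 3) ^ 2)) ≤ P.card / (K + 1) / 2 := by
      have h9 : C' * (1 / (t ^ 3) ^ 2) ≤ 1 / (K + 1) / 2 := by
        rw [mul_one_div, div_div, div_le_div_iff₀ (by positivity) (by positivity), one_mul]
        calc C' * ((K + 1) * 2) = 2 * C' * (K + 1) := by ring
          _ ≤ t := ht3
          _ ≤ (t ^ 3) ^ 2 := by
            rw [← pow_mul]
            exact le_self_pow₀ ht1' (by norm_num)
      calc (P.card : ℝ) * (C' * (1 / (t ^ 3) ^ 2)) ≤ P.card * (1 / (K + 1) / 2) := by gcongr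
        _ = _ := by ring
    linarith
  · intro a p hp
    exact h.four hA1 a (hP p hp).1

/-- the paths of the sums over the good primes -/
noncomputable def upath (U : Fin k → ∀ p : ℕ, (ι → ZMod p) → ℝ) (G : ∀ p : ℕ, (ι → ZMod p) → Prop)
    (P : Finset ℕ) (c : ι → ℤ) (a : Fin k) : C(unitInterval, ℝ) :=
  ppath P (√P.card) fun p => (1 - ib G p (red p c)) * U a p (red p c)

/-- bad primes -/
theorem EB_badV (h : LV U C) (G : ∀ p : ℕ, (ι → ZMod p) → Prop) {D : ℝ} (hD : 0 ≤ D)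
    (hG : ∀ p : ℕ, p.Prime → EMt p (ib G p) ≤ D / p) (a : Fin k) (p H : ℕ)
    (hp : p.Prime) (hpH : p ≤ 2 * H + 1) :
    EB H (fun c => ib G p (red p c) * |U a p (red p c)|) ≤
      2 ^ Fintype.card ι * ((D + C) * (1 / q4 p ^ 3)) := by
  have : NeZero p := ⟨hp.ne_zero⟩
  have hb := q4_one hp.one_lt.le
  have hb0 : 0 < q4 p := by linarith
  have hp0 : (0 : ℝ) < p := by exact_mod_cast hp.pos
  refine (EB_le H p hpH (fun c => ib G p c * |U a p c|) (fun c =>
    mul_nonneg (ib_nonneg G p c) (abs_nonneg _))).trans ?_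
  refine mul_le_mul_of_nonneg_left ?_ (by positivity)
  have h1 : EM p (fun c => ib G p c * |U a p c|) ≤
      EM p (fun c => q4 p * ib G p c + 1 / q4 p ^ 3 * U a p c ^ 4) := by
    refine EM_mono' p _ _ fun c => ?_
    have h2 := young (r := 0) hb (U a p c) _ (ib_nonneg G p c) (ib_le G p c)
    rw [add_zero, add_zero] at h2
    refine h2.trans (le_of_eq ?_)
    ring
  have h3 : EM p (fun c => q4 p * ib G p c + 1 / q4 p ^ 3 * U a p c ^ 4) =
      q4 p * EM p (ib G p) + 1 / q4 p ^ 3 * EM p (fun c => U a p c ^ 4) := by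
    rw [EM_add', EM_mul', EM_mul']
  have h4 := h.m4 a p hp
  have h5 := hG p hp
  rw [EMt_eq] at h4 h5
  have e4 := q4_pow p
  calc _ ≤ _ := h1
    _ = _ := h3
    _ ≤ q4 p * (D / p) + 1 / q4 p ^ 3 * C := by gcongr
    _ = (D + C) * (1 / q4 p ^ 3) := by
      rw [← e4]
      field_simp

/-- the paths are near to those of the model -/
theorem umdl_near (h : LV U C) (G : ∀ p : ℕ, (ι → ZMod p) → Prop) {D : ℝ} (hD : 0 ≤ D)
    (hG : ∀ p : ℕ, p.Prime → EMt p (ib G p) ≤ D / p) {δ η : ℝ} (hδ : 0 < δ) (hη : 0 < η) :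
    ∃ L : ℕ, ∀ (P : Finset ℕ) (y H : ℕ), (∀ p ∈ P, p.Prime ∧ p ≤ y) → L ≤ P.card → y ^ L ≤ H →
      (nu H).real {c : ι → ℤ | δ < dist (upath U G P c) ((umdl U P y H).X c)} ≤ η := by
  have hC := h.C0
  obtain ⟨d2, hd2⟩ : ∃ d2 : ℝ, d2 = 2 ^ Fintype.card ι := ⟨_, rfl⟩
  have hd20 : 0 < d2 := by rw [hd2]; positivity
  obtain ⟨L1, hL1⟩ := r8_large (2 * (k * d2 * C) / η + 1) (by positivity)
  obtain ⟨L2, hL2⟩ := log_small' (2 * C) (by positivity) (δ / 2) (by positivity)
  obtain ⟨L3, hL3⟩ := r8_large (4 * (k * d2 * (D + C) * 5) / (δ * η) + 1) (by positivity)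
  refine ⟨L1 + L2 + L3 + 1, fun P y H hP hcard hH => ?_⟩
  have hc1 : 1 ≤ P.card := by omega
  have hn1 : (1 : ℝ) ≤ P.card := by exact_mod_cast hc1
  have hn0 : (0 : ℝ) < P.card := by linarith
  have hsn : 0 < √(P.card : ℝ) := Real.sqrt_pos.2 hn0
  have hy1 : 1 ≤ y := by
    obtain ⟨p, hp⟩ := Finset.card_pos.1 (by omega : 0 < P.card)
    exact (hP p hp).1.pos.trans_le (hP p hp).2
  have hyH : y ≤ H := by
    refine le_trans ?_ hH
    calc y = y ^ 1 := (pow_one y).symm
      _ ≤ y ^ (L1 + L2 + L3 + 1) := Nat.pow_le_pow_right hy1 (by omega)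
  obtain ⟨t, ht⟩ : ∃ t : ℝ, t = r8 P.card := ⟨_, rfl⟩
  have ht8 : t ^ 8 = P.card := by rw [ht]; exact r8_pow (by positivity)
  have ht1 : 2 * (k * d2 * C) / η + 1 ≤ t := by rw [ht]; exact hL1 _ (by omega)
  have ht3 : 4 * (k * d2 * (D + C) * 5) / (δ * η) + 1 ≤ t := by rw [ht]; exact hL3 _ (by omega)
  have ht1' : 1 ≤ t := by
    have : 0 ≤ 2 * (k * d2 * C) / η := by positivity
    linarith
  have ht0 : 0 < t := by linarith
  have hA1 : 1 ≤ t ^ 3 := one_le_pow₀ ht1'
  have hA0 : 0 < t ^ 3 := by positivity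
  have hst : √(P.card : ℝ) = t ^ 4 := by
    rw [← ht8, show t ^ 8 = (t ^ 4) ^ 2 by ring, Real.sqrt_sq (by positivity)]
  have hq4 : q4 P.card = t ^ 2 := by
    unfold q4
    rw [hst, show t ^ 4 = (t ^ 2) ^ 2 by ring, Real.sqrt_sq (by positivity)]
  -- the two functions
  set M1 : (ι → ℤ) → ℝ := fun c => ∑ p ∈ P, ∑ a, big (t ^ 3) (U a p (red p c)) with hM1
  set M2 : (ι → ℤ) → ℝ := fun c => ∑ p ∈ P, ∑ a, ib G p (red p c) * |U a p (red p c)| with hM2
  have hM10 : ∀ c, 0 ≤ M1 c := fun c => Finset.sum_nonneg fun _ _ => Finset.sum_nonneg fun _ _ =>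
    big_nonneg _ _
  have hM20 : ∀ c, 0 ≤ M2 c := fun c => Finset.sum_nonneg fun _ _ => Finset.sum_nonneg fun _ _ =>
    mul_nonneg (ib_nonneg G _ _) (abs_nonneg _)
  have hE1 : EB H M1 ≤ η / 2 := by
    have h1 : EB H M1 = ∑ p ∈ P, ∑ a, EB H (fun c => big (t ^ 3) (U a p (red p c))) := by
      rw [hM1, EB_sum]
      refine Finset.sum_congr rfl fun p _ => ?_
      rw [EB_sum]
    have h2 : ∀ p ∈ P, ∀ a, EB H (fun c => big (t ^ 3) (U a p (red p c))) ≤
        d2 * (C / (t ^ 3) ^ 4) := by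
      intro p hp a
      have : NeZero p := ⟨(hP p hp).1.ne_zero⟩
      have hpH : p ≤ 2 * H + 1 := by
        have := (hP p hp).2
        omega
      refine (EB_le H p hpH (fun c => big (t ^ 3) (U a p c)) (fun c => big_nonneg _ _)).trans ?_
      rw [hd2]
      have h6 : EM p (fun c => big (t ^ 3) (U a p c)) ≤ EM p (fun c => 1 / (t ^ 3) ^ 4 * U a p c ^ 4) :=
        EM_monoV p _ _ fun c => (big_le hA0 _).trans (le_of_eq (by ring))
      rw [EM_mul'] at h6
      have h7 := h.m4 a p (hP p hp).1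
      rw [EMt_eq] at h7
      have h8 : EM p (fun c => big (t ^ 3) (U a p c)) ≤ C / (t ^ 3) ^ 4 := by
        calc EM p (fun c => big (t ^ 3) (U a p c)) ≤ 1 / (t ^ 3) ^ 4 * EM p (fun c => U a p c ^ 4) := h6
          _ ≤ 1 / (t ^ 3) ^ 4 * C := by gcongr
          _ = _ := by ring
      gcongr
    rw [h1]
    calc ∑ p ∈ P, ∑ a, EB H (fun c => big (t ^ 3) (U a p (red p c)))
        ≤ ∑ _p ∈ P, ∑ _a : Fin k, d2 * (C / (t ^ 3) ^ 4) :=
          Finset.sum_le_sum fun p hp => Finset.sum_le_sum fun a _ => h2 p hp a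
      _ = t ^ 8 * (k * (d2 * (C / (t ^ 3) ^ 4))) := by
          rw [Finset.sum_const, Finset.sum_const, Finset.card_univ, Fintype.card_fin, nsmul_eq_mul,
            nsmul_eq_mul, ht8]
      _ = k * d2 * C / t ^ 4 := by field_simp
      _ ≤ η / 2 := by
          rw [div_le_iff₀ (by positivity)]
          have h9 : 2 * (k * d2 * C) / η ≤ t := by linarith
          rw [div_le_iff₀ hη] at h9
          have h10 : t ≤ t ^ 4 := le_self_pow₀ ht1' (by norm_num)
          have h11 : t * η ≤ t ^ 4 * η := mul_le_mul_of_nonneg_right h10 hη.le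
          linarith
  have hE2 : EB H M2 ≤ η / 2 * (δ / 2 * t ^ 4) := by
    have h1 : EB H M2 = ∑ p ∈ P, ∑ a, EB H (fun c => ib G p (red p c) * |U a p (red p c)|) := by
      rw [hM2, EB_sum]
      refine Finset.sum_congr rfl fun p _ => ?_
      rw [EB_sum]
    rw [h1]
    have h2 := sum_q4_set P (fun p hp => (hP p hp).1.one_lt.le)
    calc ∑ p ∈ P, ∑ a, EB H (fun c => ib G p (red p c) * |U a p (red p c)|)
        ≤ ∑ p ∈ P, ∑ _a : Fin k, d2 * ((D + C) * (1 / q4 p ^ 3)) := by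
          refine Finset.sum_le_sum fun p hp => Finset.sum_le_sum fun a _ => ?_
          rw [hd2]
          exact EB_badV h G hD hG a p H (hP p hp).1 (by have := (hP p hp).2; omega)
      _ = k * d2 * (D + C) * ∑ p ∈ P, 1 / q4 p ^ 3 := by
          rw [Finset.mul_sum]
          refine Finset.sum_congr rfl fun p _ => ?_
          rw [Finset.sum_const, Finset.card_univ, Fintype.card_fin, nsmul_eq_mul]
          ring
      _ ≤ k * d2 * (D + C) * (5 * t ^ 2) := by
          rw [← hq4]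
          gcongr
      _ = (k * d2 * (D + C) * 5) * t ^ 2 := by ring
      _ ≤ η / 2 * (δ / 2 * t ^ 4) := by
          have h9 : 4 * (k * d2 * (D + C) * 5) / (δ * η) ≤ t := by linarith
          rw [div_le_iff₀ (by positivity)] at h9
          have h10 : t ≤ t ^ 2 := le_self_pow₀ ht1' (by norm_num)
          have h11 : t * (δ * η) ≤ t ^ 2 * (δ * η) := mul_le_mul_of_nonneg_right h10 (by positivity)
          have h12 : 4 * (k * d2 * (D + C) * 5) * t ^ 2 ≤ t ^ 2 * (δ * η) * t ^ 2 :=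
            mul_le_mul_of_nonneg_right (h9.trans h11) (by positivity)
          have e : t ^ 2 * (δ * η) * t ^ 2 = 4 * (η / 2 * (δ / 2 * t ^ 4)) := by ring
          linarith
  -- the inclusion
  have hsub : {c : ι → ℤ | δ < dist (upath U G P c) ((umdl U P y H).X c)} ⊆
      {c | 1 ≤ M1 c} ∪ {c | δ / 2 * t ^ 4 ≤ M2 c} := by
    intro c hc
    by_contra hcon
    rw [Set.mem_union, not_or] at hcon
    obtain ⟨hc1', hc2'⟩ := hcon
    have hc1' : M1 c < 1 := not_le.1 hc1'
    have hc2' : M2 c < δ / 2 * t ^ 4 := not_le.1 hc2'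
    have hsmall : ∀ a, ∀ p ∈ P, |U a p (red p c)| ≤ t ^ 3 := by
      intro a p hp
      by_contra hbig
      have h3 : big (t ^ 3) (U a p (red p c)) = 1 := by
        unfold big
        rw [if_neg hbig]
      have h4 : big (t ^ 3) (U a p (red p c)) ≤ M1 c := by
        refine (Finset.single_le_sum (f := fun a => big (t ^ 3) (U a p (red p c)))
          (fun _ _ => big_nonneg _ _) (Finset.mem_univ a)).trans ?_
        exact Finset.single_le_sum (f := fun p => ∑ a, big (t ^ 3) (U a p (red p c)))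
          (fun _ _ => Finset.sum_nonneg fun _ _ => big_nonneg _ _) hp
      rw [h3] at h4
      linarith
    have hle : dist (upath U G P c) ((umdl U P y H).X c) ≤ δ := by
      rw [dist_pi_le_iff hδ.le]
      intro a
      rw [dist_eq_norm]
      have hE : 0 ≤ δ * t ^ 4 := by positivity
      have h1 := ppath_dist P hsn (fun p => (1 - ib G p (red p c)) * U a p (red p c))
        (fun p => TZ U (t ^ 3) a p (red p c)) hE (fun m hm => by
          have h2 : ∀ q ∈ Finset.range m, |(1 - ib G (el P q) (red (el P q) c)) *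
              U a (el P q) (red (el P q) c) - TZ U (t ^ 3) a (el P q) (red (el P q) c)| ≤
              |mT (U a) (t ^ 3) (el P q)| + ib G (el P q) (red (el P q) c) *
                |U a (el P q) (red (el P q) c)| := by
            intro q hq
            have hq' : el P q ∈ P := el_mem (lt_of_lt_of_le (Finset.mem_range.1 hq) hm)
            have e : (1 - ib G (el P q) (red (el P q) c)) * U a (el P q) (red (el P q) c) -
                TZ U (t ^ 3) a (el P q) (red (el P q) c) = mT (U a) (t ^ 3) (el P q) -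
                ib G (el P q) (red (el P q) c) * U a (el P q) (red (el P q) c) := by
              unfold TZ trunc
              rw [if_pos (hsmall a _ hq')]
              ring
            rw [e]
            refine (abs_sub _ _).trans (le_of_eq ?_)
            rw [abs_mul, abs_of_nonneg (ib_nonneg G _ _)]
          refine (Finset.abs_sum_le_sum_abs _ _).trans ((Finset.sum_le_sum h2).trans ?_)
          calc ∑ q ∈ Finset.range m, (|mT (U a) (t ^ 3) (el P q)| + ib G (el P q) (red (el P q) c) *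
                |U a (el P q) (red (el P q) c)|)
              ≤ ∑ q ∈ Finset.range P.card, (|mT (U a) (t ^ 3) (el P q)| +
                ib G (el P q) (red (el P q) c) * |U a (el P q) (red (el P q) c)|) :=
                Finset.sum_le_sum_of_subset_of_nonneg (Finset.range_subset_range.2 hm)
                  fun _ _ _ => add_nonneg (abs_nonneg _) (mul_nonneg (ib_nonneg G _ _) (abs_nonneg _))
            _ = ∑ p ∈ P, (|mT (U a) (t ^ 3) p| + ib G p (red p c) * |U a p (red p c)|) :=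
                (sum_rk P (fun _ p => |mT (U a) (t ^ 3) p| + ib G p (red p c) *
                  |U a p (red p c)|)).symm
            _ = ∑ p ∈ P, |mT (U a) (t ^ 3) p| + ∑ p ∈ P, ib G p (red p c) * |U a p (red p c)| :=
                Finset.sum_add_distrib
            _ ≤ δ / 2 * t ^ 4 + δ / 2 * t ^ 4 := by
                refine add_le_add ?_ ?_
                · calc ∑ p ∈ P, |mT (U a) (t ^ 3) p| ≤ ∑ p ∈ P, (C / p + C * (1 / (t ^ 3) ^ 3)) := by
                        refine Finset.sum_le_sum fun p hp => ((h.mT_le hA1 a (hP p hp).1).trans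
                          (le_of_eq ?_))
                        ring
                    _ = ∑ p ∈ P, C / (p : ℝ) + t ^ 8 * (C * (1 / (t ^ 3) ^ 3)) := by
                        rw [Finset.sum_add_distrib, Finset.sum_const, nsmul_eq_mul, ht8]
                    _ ≤ C * (2 + Real.log P.card) + C * (2 + Real.log P.card) := by
                        refine add_le_add (sum_Cp (fun p hp => (hP p hp).1) hC) ?_
                        have e : t ^ 8 * (C * (1 / (t ^ 3) ^ 3)) = C * (1 / t) := by field_simp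
                        rw [e]
                        refine mul_le_mul_of_nonneg_left ?_ hC
                        have h5 : 1 / t ≤ 1 := by
                          rw [div_le_one ht0]
                          exact ht1'
                        have h6 : 0 ≤ Real.log P.card := Real.log_nonneg hn1
                        linarith
                    _ = 2 * C * (2 + Real.log P.card) := by ring
                    _ ≤ δ / 2 * t ^ 4 := by
                        rw [← hst]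
                        exact hL2 P.card (by omega)
                · refine le_trans (Finset.sum_le_sum fun p _ => ?_) hc2'.le
                  exact Finset.single_le_sum (f := fun a => ib G p (red p c) * |U a p (red p c)|)
                    (fun _ _ => mul_nonneg (ib_nonneg G _ _) (abs_nonneg _)) (Finset.mem_univ a)
            _ = δ * t ^ 4 := by ring)
      have e2 : (umdl U P y H).X c a = ppath P (√P.card) (fun p => TZ U (t ^ 3) a p (red p c)) := by
        unfold umdl Mdl.X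
        rw [← ht]
      rw [e2]
      refine h1.trans ?_
      rw [hst, mul_div_assoc, div_self (by positivity), mul_one]
    exact absurd hc (not_lt.2 hle)
  calc (nu H).real {c : ι → ℤ | δ < dist (upath U G P c) ((umdl U P y H).X c)}
      ≤ (nu H).real ({c | 1 ≤ M1 c} ∪ {c | δ / 2 * t ^ 4 ≤ M2 c}) :=
        measureReal_mono hsub (measure_ne_top _ _)
    _ ≤ (nu H).real {c | 1 ≤ M1 c} + (nu H).real {c | δ / 2 * t ^ 4 ≤ M2 c} :=
        measureReal_union_le _ _
    _ ≤ EB H M1 / 1 + EB H M2 / (δ / 2 * t ^ 4) :=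
        add_le_add (nu_markov H _ M1 one_pos hM10 fun c hc => hc)
          (nu_markov H _ M2 (by positivity) hM20 fun c hc => hc)
    _ ≤ η / 2 + η / 2 := by
        refine add_le_add (by rw [div_one]; exact hE1) ?_
        rw [div_le_iff₀ (by positivity)]
        exact hE2
    _ = η := by ring

section

variable [MeasurableSpace C(unitInterval, ℝ)] [BorelSpace C(unitInterval, ℝ)]
  {Ω : Type*} [MeasurableSpace Ω] {μ : Measure Ω} [IsProbabilityMeasure μ]

/-- **the invariance principle** -/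
theorem unb_main (h : LV U C) (G : ∀ p : ℕ, (ι → ZMod p) → Prop) {D : ℝ} (hD : 0 ≤ D)
    (hG : ∀ p : ℕ, p.Prime → EMt p (ib G p) ≤ D / p) {B : Fin k → ℝ≥0 → Ω → ℝ}
    (hB : IndBrown B μ) (Φ : (Fin k → C(unitInterval, ℝ)) →ᵇ ℝ) {ε : ℝ} (hε : 0 < ε) :
    ∃ K : ℕ, ∀ (P : Finset ℕ) (y H : ℕ), (∀ p ∈ P, p.Prime ∧ p ≤ y) → K ≤ P.card → y ^ K ≤ H →
      |EB H (fun c => Φ (upath U G P c)) - ∫ ω, Φ (fun a => bpath (B a) ω) ∂μ| ≤ ε := by
  by_contra hcon
  push Not at hcon
  choose Ps ys Hs h1 h2 h3 h4 using hcon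
  have hmono : ∀ K j : ℕ, 1 ≤ j → K ≤ j → ys j ^ K ≤ Hs j := by
    intro K j hj1 hKj
    refine le_trans ?_ (h3 j)
    obtain ⟨p, hp⟩ := Finset.card_pos.1 (lt_of_lt_of_le hj1 (h2 j))
    exact Nat.pow_le_pow_right ((h1 j p hp).1.pos.trans_le (h1 j p hp).2) hKj
  have h5 := model_near (μ := μ) (B := B) (C := 8 * (C + (2 * C) ^ 4))
    (fun j => umdl U (Ps j) (ys j) (Hs j))
    (fun K => by
      obtain ⟨L, hL⟩ := umdl_ok h K
      filter_upwards [eventually_ge_atTop L, eventually_ge_atTop 1] with j hj hj1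
      exact hL _ _ _ (h1 j) (hj.trans (h2 j)) (hmono L j hj1 hj)) (by have := h.C0; positivity)
    (fun j c => upath U G (Ps j) c)
    (fun δ hδ => by
      rw [Metric.tendsto_atTop]
      intro η hη
      obtain ⟨L, hL⟩ := umdl_near h G hD hG hδ (half_pos hη)
      refine ⟨max L 1, fun j hj => ?_⟩
      have h6 := hL _ _ _ (h1 j) (((le_max_left _ _).trans hj).trans (h2 j))
        (hmono L j ((le_max_right _ _).trans hj) ((le_max_left _ _).trans hj))
      rw [Real.dist_eq, sub_zero, abs_of_nonneg measureReal_nonneg]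
      exact lt_of_le_of_lt h6 (by linarith)) hB Φ
  rw [Metric.tendsto_atTop] at h5
  obtain ⟨N, hN⟩ := h5 ε hε
  have h6 := hN N le_rfl
  rw [Real.dist_eq] at h6
  exact absurd h6 (not_lt.2 (h4 N).le)

end

end Pool.Agent.U581.FL
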