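import Pool.Agent.U581.FL.Abs

/-!
# Weights of polygonal paths
-/

set_option autoImplicit false

namespace Pool.Agent.U581.FL

open Real MeasureTheory Filter Topology Pool.Agent.U581.BM

theorem exists_block' {n : ℕ} (hn : 0 < n) {u : ℝ} (h0 : 0 ≤ u) (h1 : u ≤ n) :
    ∃ m : ℕ, m < n ∧ (m : ℝ) ≤ u ∧ u ≤ m + 1 := by
  have hn0 : (0 : ℝ) < n := by exact_mod_cast hn
  obtain ⟨m, h2, h3, h4⟩ := exists_block hn
    (⟨u / n, by positivity, by rw [div_le_one hn0]; exact h1⟩ : unitInterval)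
  have e : (n : ℝ) * ((⟨u / n, by positivity, by rw [div_le_one hn0]; exact h1⟩ : unitInterval) : ℝ)
      = u := by
    show (n : ℝ) * (u / n) = u
    field_simp
  rw [e] at h3 h4
  exact ⟨m, h2, h3, h4⟩

theorem cl_total {n : ℕ} {u : ℝ} (h0 : 0 ≤ u) (h1 : u ≤ n) :
    ∑ k ∈ Finset.range n, cl (u - k) = u := by
  rcases Nat.eq_zero_or_pos n with h | h
  · rw [h] at h1 ⊢
    simp at h1 ⊢
    linarith
  · obtain ⟨m, hm, h2, h3⟩ := exists_block' h h0 h1
    have := cl_sum (fun _ => 1) hm h2 h3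
    simp only [one_mul, Finset.sum_const, Finset.card_range, nsmul_eq_mul, mul_one] at this
    rw [this]
    ring

theorem cl_defect {n : ℕ} (u : ℝ) :
    ∑ k ∈ Finset.range n, cl (u - k) * (1 - cl (u - k)) ≤ 1 := by
  have h1 : ∀ k ∈ Finset.range n, cl (u - k) * (1 - cl (u - k)) ≤
      if k = ⌊u⌋₊ then (1 : ℝ) else 0 := by
    intro k _
    have h2 := cl_mem (u - k)
    split_ifs with h
    · nlinarith
    · rcases lt_or_gt_of_ne h with h3 | h3
      · have h4 : ((k + 1 : ℕ) : ℝ) ≤ u := by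
          by_contra hc
          push Not at hc
          have h6 : ⌊u⌋₊ < k + 1 := Nat.floor_lt' (by omega) |>.2 hc
          omega
        push_cast at h4
        rw [cl_one (by linarith)]
        simp
      · have h4 : u ≤ k := (Nat.lt_of_floor_lt h3).le
        rw [cl_zero (by linarith)]
        simp
  refine (Finset.sum_le_sum h1).trans ?_
  rw [Finset.sum_ite_eq']
  split_ifs <;> norm_num

theorem cl_cov' {n : ℕ} {u w : ℝ} (h0 : 0 ≤ u) (h1 : u ≤ n) (huw : u ≤ w) :
    |(∑ k ∈ Finset.range n, cl (u - k) * cl (w - k)) - u| ≤ 1 := by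
  have h2 := cl_total h0 h1
  have h3 : ∑ k ∈ Finset.range n, cl (u - k) * cl (w - k) ≤ u := by
    calc ∑ k ∈ Finset.range n, cl (u - k) * cl (w - k) ≤ ∑ k ∈ Finset.range n, cl (u - k) :=
          Finset.sum_le_sum fun k _ => mul_le_of_le_one_right (cl_mem _).1 (cl_mem _).2
      _ = u := h2
  have h4 : u - 1 ≤ ∑ k ∈ Finset.range n, cl (u - k) * cl (w - k) := by
    have h5 : ∑ k ∈ Finset.range n, cl (u - k) - ∑ k ∈ Finset.range n, cl (u - k) * cl (w - k) ≤ 1 := by
      rw [← Finset.sum_sub_distrib]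
      refine le_trans (Finset.sum_le_sum fun k _ => ?_) (cl_defect (n := n) u)
      have h6 : cl (u - k) ≤ cl (w - k) := cl_mono (by linarith)
      have h7 := cl_mem (u - k)
      nlinarith
    rw [h2] at h5
    linarith
  rw [abs_le]
  constructor <;> linarith

theorem cl_cov {n : ℕ} (hn : 0 < n) (s t : unitInterval) :
    |(∑ k ∈ Finset.range n, cl (n * (s : ℝ) - k) * cl (n * (t : ℝ) - k)) / n -
      min (s : ℝ) (t : ℝ)| ≤ 1 / n := by
  have hn0 : (0 : ℝ) < n := by exact_mod_cast hn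
  wlog hst : (s : ℝ) ≤ t generalizing s t
  · have := this t s (le_of_not_ge hst)
    simp_rw [mul_comm (cl (n * (s : ℝ) - _)), min_comm (s : ℝ)]
    exact this
  rw [min_eq_left hst]
  have h1 := cl_cov' (n := n) (u := n * (s : ℝ)) (w := n * (t : ℝ))
    (mul_nonneg hn0.le s.2.1) (mul_le_of_le_one_right hn0.le s.2.2)
    (mul_le_mul_of_nonneg_left hst hn0.le)
  have e : (∑ k ∈ Finset.range n, cl (n * (s : ℝ) - k) * cl (n * (t : ℝ) - k)) / n - (s : ℝ) =
      ((∑ k ∈ Finset.range n, cl (n * (s : ℝ) - k) * cl (n * (t : ℝ) - k)) - n * s) / n := by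
    field_simp
  rw [e, abs_div, abs_of_pos hn0]
  exact div_le_div_of_nonneg_right h1 hn0.le

theorem sum_split {T U : ℕ → ℝ} {m n : ℕ} (hm : m < n) (h1 : ∀ k < m, T k = U k)
    (h2 : ∀ k, m < k → T k = 0) :
    ∑ k ∈ Finset.range n, T k = (∑ k ∈ Finset.range m, U k) + T m := by
  induction n, (Nat.succ_le_of_lt hm) using Nat.le_induction with
  | base =>
    rw [Nat.succ_eq_add_one, Finset.sum_range_succ]
    congr 1
    exact Finset.sum_congr rfl fun k hk => h1 k (Finset.mem_range.1 hk)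
  | succ n hn ih =>
    have hn' : m + 1 ≤ n := hn
    rw [Finset.sum_range_succ, ih (by omega), h2 n (by omega), add_zero]

/-- the polygonal path of the sums of `g`, normalised by `q` -/
noncomputable def spath (n : ℕ) (q : ℝ) (g : ℕ → ℝ) : C(unitInterval, ℝ) :=
  polygon n fun k => (∑ i ∈ Finset.range k, g i) / q

theorem spath_apply (n : ℕ) (q : ℝ) (g : ℕ → ℝ) (t : unitInterval) :
    spath n q g t = (∑ k ∈ Finset.range n, g k * cl (n * t - k)) / q := by
  unfold spath
  rw [polygon_apply, Finset.sum_range_zero, zero_div, zero_add, Finset.sum_div]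
  apply Finset.sum_congr rfl
  intro k _
  rw [Finset.sum_range_succ]
  ring

/-- the oscillation in a block against partial sums with weights -/
theorem spath_block {n : ℕ} (hn : 0 < n) {q : ℝ} (hq : 0 < q) (g : ℕ → ℝ) {M : ℝ}
    (hM : ∀ k < n, |g k| ≤ M) {u w : ℝ} {s t : unitInterval} (hu : (n : ℝ) * s = u)
    (hut : u ≤ n * t) (htw : (n : ℝ) * t ≤ w) {Y : ℝ}
    (hY : ∀ m ≤ n, |∑ k ∈ Finset.range m, g k * (cl (w - k) - cl (u - k))| ≤ Y) :
    |spath n q g t - spath n q g s| ≤ (Y + M) / q := by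
  obtain ⟨m, hm, h1, h2⟩ := exists_block hn t
  rw [spath_apply, spath_apply, hu, ← sub_div, ← Finset.sum_sub_distrib]
  have h3 := sum_split (T := fun k => g k * cl (n * t - k) - g k * cl (u - k))
    (U := fun k => g k * (cl (w - k) - cl (u - k))) hm (fun k hk => by
      have hk' : (k : ℝ) + 1 ≤ m := by exact_mod_cast hk
      rw [cl_one (by linarith), cl_one (by linarith : 1 ≤ w - k)]
      ring) (fun k hk => by
      have hk' : (m : ℝ) + 1 ≤ k := by exact_mod_cast hk
      rw [cl_zero (by linarith), cl_zero (by linarith : u - k ≤ 0)]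
      ring)
  rw [h3, abs_div, abs_of_pos hq]
  apply div_le_div_of_nonneg_right _ hq.le
  refine (abs_add_le _ _).trans (add_le_add (hY m hm.le) ?_)
  rw [← mul_sub, abs_mul]
  have h4 := cl_mem ((n : ℝ) * t - m)
  have h5 := cl_mem (u - m)
  have h6 : |cl ((n : ℝ) * t - m) - cl (u - m)| ≤ 1 := by
    rw [abs_le]
    constructor <;> linarith
  calc |g m| * |cl ((n : ℝ) * t - m) - cl (u - m)| ≤ |g m| * 1 :=
        mul_le_mul_of_nonneg_left h6 (abs_nonneg _)
    _ ≤ M := by rw [mul_one]; exact hM m hm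

theorem weight_cov {n : ℕ} (hn : 0 < n) (N : ℕ) (θ : ℕ → ℝ) :
    |(∑ k ∈ Finset.range n, (∑ i ∈ Finset.range (N + 1),
      θ i * cl (n * ((pt N i : unitInterval) : ℝ) - k)) ^ 2) / n -
    ∑ i ∈ Finset.range (N + 1), ∑ j ∈ Finset.range (N + 1),
      θ i * θ j * min ((pt N i : unitInterval) : ℝ) ((pt N j : unitInterval) : ℝ)| ≤
    (∑ i ∈ Finset.range (N + 1), |θ i|) ^ 2 * (1 / n) := by
  have e1 : (∑ k ∈ Finset.range n, (∑ i ∈ Finset.range (N + 1),
      θ i * cl (n * ((pt N i : unitInterval) : ℝ) - k)) ^ 2) / n =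
      ∑ i ∈ Finset.range (N + 1), ∑ j ∈ Finset.range (N + 1), θ i * θ j *
        ((∑ k ∈ Finset.range n, cl (n * ((pt N i : unitInterval) : ℝ) - k) *
          cl (n * ((pt N j : unitInterval) : ℝ) - k)) / n) := by
    simp_rw [pow_two, Finset.sum_mul_sum]
    rw [Finset.sum_comm, Finset.sum_div]
    apply Finset.sum_congr rfl
    intro i _
    rw [Finset.sum_comm, Finset.sum_div]
    apply Finset.sum_congr rfl
    intro j _
    rw [mul_div_assoc', Finset.mul_sum]
    congr 1
    apply Finset.sum_congr rfl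
    intro k _
    ring
  rw [e1, ← Finset.sum_sub_distrib, pow_two, Finset.sum_mul_sum, Finset.sum_mul]
  refine (Finset.abs_sum_le_sum_abs _ _).trans (Finset.sum_le_sum fun i _ => ?_)
  rw [← Finset.sum_sub_distrib, Finset.sum_mul]
  refine (Finset.abs_sum_le_sum_abs _ _).trans (Finset.sum_le_sum fun j _ => ?_)
  rw [← mul_sub, abs_mul, abs_mul]
  exact mul_le_mul_of_nonneg_left (cl_cov hn _ _) (by positivity)

end Pool.Agent.U581.FL
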